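import Pool.Agent.Helper35.E98.Bridge
import Pool.Agent.Helper87.LS.Return

/-!
The energy and the Hodge norm of `g S` (for `A` of determinant one) as integrals over `S`:
`hn2 (act (ofSurf S) A hA) x = inf over Lipschitz functions F of ∫ ‖cov A (wform S x + grad F)‖²`,
where `cov A` is the action of `A` on covectors: `dot (cov A ω) (A v) = dot ω v`.
-/

open MeasureTheory Set Filter Topology

namespace Pool.Agent.Helper35.E98

open Pool.Agent.Helper87.LS Pool.Agent.Helper72.TF

/-! ### The action on covectors -/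

/-- The action of a linear map on covectors. -/
noncomputable def cov (A : ℂ ≃ₗ[ℝ] ℂ) : ℂ →ₗ[ℝ] ℂ where
  toFun ω := ⟨dot ω (A.symm 1), dot ω (A.symm Complex.I)⟩
  map_add' x y := by
    apply Complex.ext <;> simp [dot] <;> ring
  map_smul' c x := by
    apply Complex.ext <;> simp [dot] <;> ring

theorem dot_map_symm (A : ℂ ≃ₗ[ℝ] ℂ) (ω v : ℂ) : dot ω (A.symm v) = dot (cov A ω) v := by
  have h1 : v = v.re • (1 : ℂ) + v.im • Complex.I := by
    apply Complex.ext <;> simp
  have h2 : A.symm v = v.re • A.symm 1 + v.im • A.symm Complex.I := by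
    conv_lhs => rw [h1]
    rw [map_add, map_smul, map_smul]
  rw [h2]
  simp only [dot, cov, LinearMap.coe_mk, AddHom.coe_mk, Complex.add_re, Complex.add_im,
    Complex.real_smul, Complex.re_ofReal_mul, Complex.im_ofReal_mul]
  ring

theorem dot_cov (A : ℂ ≃ₗ[ℝ] ℂ) (ω v : ℂ) : dot (cov A ω) (A v) = dot ω v := by
  rw [← dot_map_symm, LinearEquiv.symm_apply_apply]

theorem eq_of_dot {a b : ℂ} (h : ∀ v, dot a v = dot b v) : a = b := by
  have h1 := h 1
  have h2 := h Complex.I
  simp only [dot, Complex.one_re, Complex.one_im, Complex.I_re, Complex.I_im, mul_one, mul_zero,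
    add_zero, zero_add] at h1 h2
  exact Complex.ext h1 h2

theorem cov_refl (ω : ℂ) : cov (LinearEquiv.refl ℝ ℂ) ω = ω := by
  refine eq_of_dot fun v => ?_
  have := dot_cov (LinearEquiv.refl ℝ ℂ) ω v
  simpa using this

theorem cov_comp (A B : ℂ ≃ₗ[ℝ] ℂ) (ω : ℂ) : cov (A.trans B) ω = cov B (cov A ω) := by
  refine eq_of_dot fun v => ?_
  have h1 := dot_cov (A.trans B) ω (A.symm (B.symm v))
  have h2 := dot_cov B (cov A ω) (B.symm v)
  have h3 := dot_cov A ω (A.symm (B.symm v))
  simp only [LinearEquiv.trans_apply, LinearEquiv.apply_symm_apply] at h1 h2 h3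
  rw [h1, h2, h3]

/-! ### Gradients -/

theorem dot_grad {f : ℂ → ℝ} (z v : ℂ) : dot (grad f z) v = fderiv ℝ f z v := by
  have h1 : v = v.re • (1 : ℂ) + v.im • Complex.I := by
    apply Complex.ext <;> simp
  conv_rhs => rw [h1]
  rw [map_add, map_smul, map_smul]
  simp only [dot, grad, smul_eq_mul]
  ring

theorem grad_add_right (F : ℂ → ℝ) (p z : ℂ) : grad (fun z => F (z + p)) z = grad F (z + p) := by
  unfold grad
  rw [fderiv_comp_add_right]

theorem grad_congr {f g : ℂ → ℝ} {z : ℂ} (h : f =ᶠ[𝓝 z] g) : grad f z = grad g z := by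
  unfold grad
  rw [h.fderiv_eq]

theorem grad_comp (A : ℂ ≃ₗ[ℝ] ℂ) (f : ℂ → ℝ) (z : ℂ) :
    grad f (A z) = cov A (grad (fun z => f (A z)) z) := by
  refine eq_of_dot fun v => ?_
  have h1 : fderiv ℝ (fun z => f (A z)) z
      = (fderiv ℝ f (A z)).comp (A.toContinuousLinearEquiv : ℂ →L[ℝ] ℂ) := by
    have := (A.toContinuousLinearEquiv).comp_right_fderiv (f := f) (x := z)
    exact this
  rw [← dot_map_symm, dot_grad, dot_grad, h1]
  simp

theorem measurable_grad (f : ℂ → ℝ) : Measurable (grad f) := by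
  have h : grad f = fun z => ((fderiv ℝ f z 1 : ℝ) : ℂ)
      + ((fderiv ℝ f z Complex.I : ℝ) : ℂ) * Complex.I := by
    funext z
    apply Complex.ext <;> simp [grad]
  rw [h]
  exact (Complex.measurable_ofReal.comp (measurable_fderiv_apply_const ℝ f 1)).add
    ((Complex.measurable_ofReal.comp (measurable_fderiv_apply_const ℝ f Complex.I)).mul_const _)

variable {S : Surf}

theorem LipS.grad_le {L : ℝ} {F : ℂ → ℝ} (hF : LipS S L F) {z : ℂ} (hz : z ∈ S.D) :
    ‖grad F z‖ ≤ 2 * L := by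
  have h1 := hF.norm_fderiv_le hz
  have h2 : ∀ v : ℂ, ‖v‖ = 1 → |fderiv ℝ F z v| ≤ L := fun v hv => by
    have := (fderiv ℝ F z).le_opNorm v
    rw [hv, mul_one] at this
    exact this.trans h1
  have h3 := Complex.norm_le_abs_re_add_abs_im (grad F z)
  have h4 : |(grad F z).re| ≤ L := h2 1 norm_one
  have h5 : |(grad F z).im| ≤ L := h2 Complex.I Complex.norm_I
  linarith

/-! ### Energy -/

/-- Integrability of quadratic expressions. -/
theorem integrable_energy (B : ℂ →ₗ[ℝ] ℂ) (x : Fin S.n × Fin 3 → ℝ) {L : ℝ} {F : ℂ → ℝ}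
    (hF : LipS S L F) : Integrable (fun z => ‖B (wform S x z + grad F z)‖ ^ 2) S.μ := by
  have hBc : Continuous B := B.continuous_of_finiteDimensional
  have hm : Measurable (fun z => ‖B (wform S x z + grad F z)‖ ^ 2) :=
    ((hBc.measurable.comp ((measurable_wform x).add (measurable_grad F))).norm).pow_const 2
  set M := (∑ i, ‖omega (ofSurf S) x (i, 0)‖) + 2 * L with hM
  obtain ⟨C, hC0, hC⟩ : ∃ C : ℝ, 0 ≤ C ∧ ∀ w, ‖B w‖ ≤ C * ‖w‖ := by
    refine ⟨‖LinearMap.toContinuousLinearMap B‖, norm_nonneg _, fun w => ?_⟩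
    exact (LinearMap.toContinuousLinearMap B).le_opNorm w
  refine Integrable.of_bound hm.aestronglyMeasurable ((C * M) ^ 2) ?_
  filter_upwards [ae_mem_D S] with z hz
  rw [norm_pow, norm_norm]
  have h1 : ‖wform S x z + grad F z‖ ≤ M :=
    (norm_add_le _ _).trans (add_le_add (wform_bound x z) (hF.grad_le hz))
  gcongr
  exact (hC _).trans (mul_le_mul_of_nonneg_left h1 hC0)

theorem integral_D {g : ℂ → ℝ} (hg : Integrable g S.μ) :
    ∫ z, g z ∂S.μ = ∑ i, ∫ z in tri (S.P i), g z := by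
  unfold Surf.μ Surf.D
  refine integral_iUnion_fintype (fun i => (S.isOpen_tri i).measurableSet) ?_ ?_
  · intro i j hij
    exact S.disj i j hij
  · intro i
    refine IntegrableOn.mono_set (t := S.D) hg ?_
    exact subset_iUnion (fun i => tri (S.P i)) i

/-- Linear maps of determinant one preserve the area. -/
theorem measurePreserving_linear (A : ℂ ≃ₗ[ℝ] ℂ) (hA : LinearMap.det (A : ℂ →ₗ[ℝ] ℂ) = 1) :
    MeasurePreserving A (volume : Measure ℂ) volume := by
  refine ⟨A.toContinuousLinearEquiv.continuous.measurable, ?_⟩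
  have h := Measure.map_linearMap_addHaar_eq_smul_addHaar (μ := (volume : Measure ℂ))
    (f := (A : ℂ →ₗ[ℝ] ℂ)) (by rw [hA]; norm_num)
  rw [hA] at h
  simpa using h

theorem cr_linear (A : ℂ ≃ₗ[ℝ] ℂ) (hA : LinearMap.det (A : ℂ →ₗ[ℝ] ℂ) = 1) (u v : ℂ) :
    cr (A u) (A v) = cr u v := by
  rw [cr_map, hA, one_mul]

section Act

variable {H : Type} (T : Pool.Agent.Helper79.G.Tri H) (A : ℂ ≃ₗ[ℝ] ℂ)
  (hA : LinearMap.det (A : ℂ →ₗ[ℝ] ℂ) = 1)

theorem act_a0 (h : H) (z : ℂ) : (act T A hA).a0 h (A z) = T.a0 h z :=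
  cr_linear A hA _ _

theorem act_a1 (h : H) (z : ℂ) : (act T A hA).a1 h (A z) = T.a1 h z := by
  change cr (A (T.vec (T.next h))) (A z - A (T.vec h)) = cr (T.vec (T.next h)) (z - T.vec h)
  rw [← map_sub, cr_linear A hA]

theorem act_a2 (h : H) (z : ℂ) : (act T A hA).a2 h (A z) = T.a2 h z :=
  cr_linear A hA _ _

theorem act_mem_Op (h : H) (z : ℂ) : A z ∈ Op (act T A hA) h ↔ z ∈ Op T h := by
  change 0 < _ ∧ 0 < _ ∧ 0 < _ ↔ 0 < _ ∧ 0 < _ ∧ 0 < _
  rw [act_a0, act_a1, act_a2]

theorem act_mem_Cl (h : H) (z : ℂ) : A z ∈ Cl (act T A hA) h ↔ z ∈ Cl T h := by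
  change 0 ≤ _ ∧ 0 ≤ _ ∧ 0 ≤ _ ↔ 0 ≤ _ ∧ 0 ≤ _ ∧ 0 ≤ _
  rw [act_a0, act_a1, act_a2]

theorem act_omega (x : H → ℝ) (h : H) : omega (act T A hA) x h = cov A (omega T x h) := by
  apply omega_eq_of
  · change dot (cov A (omega T x h)) (A (T.vec h)) = x h
    rw [dot_cov, dot_omega_vec]
  · change dot (cov A (omega T x h)) (A (T.vec (T.next h))) = x (T.next h)
    rw [dot_cov, dot_omega_next]

theorem linear_lipschitz (B : ℂ ≃ₗ[ℝ] ℂ) : ∃ C : NNReal, LipschitzWith C B :=
  ⟨_, (B.toContinuousLinearEquiv : ℂ →L[ℝ] ℂ).lipschitz⟩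

theorem act_Fn {f : H → ℂ → ℝ} (hf : Fn (act T A hA) f) : Fn T (fun h z => f h (A z)) := by
  obtain ⟨C, hC⟩ := hf.lip
  obtain ⟨C', hC'⟩ := linear_lipschitz A
  refine ⟨⟨C * C', fun h => ?_⟩, ?_, ?_⟩
  · exact (hC h).comp hC'.lipschitzOnWith (fun z hz => (act_mem_Cl T A hA h z).2 hz)
  · intro h z hz
    have := hf.rot h (A z) ((act_mem_Cl T A hA h z).2 hz)
    change f (T.next h) (A (z - T.vec h)) = f h (A z)
    rw [map_sub]
    exact this
  · intro h t ht
    have := hf.edge h t ht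
    change f (T.opp h) (A (t * T.vec h - T.vec h)) = f h (A (t * T.vec h))
    have e : A ((t : ℂ) * T.vec h) = (t : ℂ) * A (T.vec h) := by
      rw [← Complex.real_smul, map_smul, Complex.real_smul]
    rw [map_sub, e]
    exact this

theorem act_Fn' {f : H → ℂ → ℝ} (hf : Fn T f) : Fn (act T A hA) (fun h z => f h (A.symm z)) := by
  obtain ⟨C, hC⟩ := hf.lip
  obtain ⟨C', hC'⟩ := linear_lipschitz A.symm
  refine ⟨⟨C * C', fun h => ?_⟩, ?_, ?_⟩
  · refine (hC h).comp hC'.lipschitzOnWith (fun z hz => ?_)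
    rw [← act_mem_Cl T A hA, LinearEquiv.apply_symm_apply]
    exact hz
  · intro h z hz
    have h1 : A.symm z ∈ Cl T h := by
      rw [← act_mem_Cl T A hA, LinearEquiv.apply_symm_apply]
      exact hz
    have := hf.rot h (A.symm z) h1
    change f (T.next h) (A.symm (z - A (T.vec h))) = f h (A.symm z)
    rw [map_sub, LinearEquiv.symm_apply_apply]
    exact this
  · intro h t ht
    have := hf.edge h t ht
    change f (T.opp h) (A.symm (t * A (T.vec h) - A (T.vec h))) = f h (A.symm (t * A (T.vec h)))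
    have e : A.symm ((t : ℂ) * A (T.vec h)) = (t : ℂ) * T.vec h := by
      rw [← Complex.real_smul, map_smul, LinearEquiv.symm_apply_apply, Complex.real_smul]
    rw [map_sub, e, LinearEquiv.symm_apply_apply]
    exact this

theorem isOpen_Op (h : H) : IsOpen (Op T h) := by
  have h1 : Op T h = {z | 0 < T.a0 h z} ∩ ({z | 0 < T.a1 h z} ∩ {z | 0 < T.a2 h z}) := rfl
  rw [h1]
  refine (isOpen_lt continuous_const ?_).inter ((isOpen_lt continuous_const ?_).inter
    (isOpen_lt continuous_const ?_))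
  · unfold Pool.Agent.Helper79.G.Tri.a0 cr; fun_prop
  · unfold Pool.Agent.Helper79.G.Tri.a1 cr; fun_prop
  · unfold Pool.Agent.Helper79.G.Tri.a2 cr; fun_prop

theorem act_en [Fintype H] (x : H → ℝ) (f : H → ℂ → ℝ) : en (act T A hA) x f
    = (∑ h, ∫ z in Op T h, ‖cov A (omega T x h + grad (fun z => f h (A z)) z)‖ ^ 2) / 3 := by
  unfold en
  congr 1
  refine Finset.sum_congr rfl fun h _ => ?_
  have hmp := measurePreserving_linear A hA
  have hemb : MeasurableEmbedding A :=
    A.toContinuousLinearEquiv.toHomeomorph.measurableEmbedding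
  have h1 := hmp.setIntegral_preimage_emb hemb
    (fun z => ‖omega (act T A hA) x h + grad (f h) z‖ ^ 2) (Op (act T A hA) h)
  have h2 : A ⁻¹' Op (act T A hA) h = Op T h := by
    ext z
    exact act_mem_Op T A hA h z
  rw [h2] at h1
  rw [← h1]
  refine setIntegral_congr_fun (isOpen_Op T h).measurableSet fun z _ => ?_
  rw [act_omega, grad_comp, map_add]

end Act

/-- The energy of a form on the surface `A S`. -/
noncomputable def energy (S : Surf) (A : ℂ ≃ₗ[ℝ] ℂ) (x : Fin S.n × Fin 3 → ℝ) (F : ℂ → ℝ) : ℝ :=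
  ∫ z, ‖cov A (wform S x z + grad F z)‖ ^ 2 ∂S.μ

theorem en_eq_energy (A : ℂ ≃ₗ[ℝ] ℂ) (hA : LinearMap.det (A : ℂ →ₗ[ℝ] ℂ) = 1)
    {x : Fin S.n × Fin 3 → ℝ} (hx : x ∈ Coch (ofSurf S)) {L : ℝ} {F : ℂ → ℝ} (hF : LipS S L F)
    {f : Fin S.n × Fin 3 → ℂ → ℝ}
    (h : ∀ i k, ∀ z ∈ Op (ofSurf S) (i, k), f (i, k) (A z) = F (z + S.P i k)) :
    en (act (ofSurf S) A hA) x f = energy S A x F := by
  rw [act_en]
  unfold energy
  rw [integral_D (integrable_energy (cov A) x hF)]
  have key : ∀ i k, ∫ z in Op (ofSurf S) (i, k),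
      ‖cov A (omega (ofSurf S) x (i, k) + grad (fun z => f (i, k) (A z)) z)‖ ^ 2
      = ∫ z in tri (S.P i), ‖cov A (wform S x z + grad F z)‖ ^ 2 := by
    intro i k
    have hmp : MeasurePreserving (fun z : ℂ => z + S.P i k) volume volume :=
      measurePreserving_add_right volume (S.P i k)
    have h1 := hmp.setIntegral_preimage_emb (measurableEmbedding_addRight (S.P i k))
      (fun z => ‖cov A (wform S x z + grad F z)‖ ^ 2) (tri (S.P i))
    have h2 : (fun z : ℂ => z + S.P i k) ⁻¹' tri (S.P i) = Op (ofSurf S) (i, k) := by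
      ext z
      exact (mem_Op i k z).symm
    rw [h2] at h1
    rw [← h1]
    refine setIntegral_congr_fun (isOpen_Op _ _).measurableSet fun z hz => ?_
    have h3 : z + S.P i k ∈ tri (S.P i) := (mem_Op i k z).1 hz
    have h4 : (fun z => f (i, k) (A z)) =ᶠ[𝓝 z] fun z => F (z + S.P i k) := by
      filter_upwards [(isOpen_Op (ofSurf S) (i, k)).mem_nhds hz] with w hw
      exact h i k w hw
    change ‖cov A (omega (ofSurf S) x (i, k) + grad (fun z => f (i, k) (A z)) z)‖ ^ 2
      = ‖cov A (wform S x (z + S.P i k) + grad F (z + S.P i k))‖ ^ 2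
    rw [wform_of_mem h3, grad_congr h4, grad_add_right, omega_rot hx]
  rw [Fintype.sum_prod_type]
  simp_rw [key]
  simp only [Finset.sum_const, Finset.card_univ, Fintype.card_fin, nsmul_eq_mul]
  rw [← Finset.mul_sum]
  push_cast
  ring

theorem energy_nonneg (A : ℂ ≃ₗ[ℝ] ℂ) (x : Fin S.n × Fin 3 → ℝ) (F : ℂ → ℝ) :
    0 ≤ energy S A x F := integral_nonneg fun _ => by positivity

theorem lipS_zero (S : Surf) : LipS S 0 (fun _ : ℂ => (0 : ℝ)) := by
  intro v x y _
  simp

/-- The Hodge norm of `A S` in terms of Lipschitz functions on `S`. -/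
theorem hn2_act (A : ℂ ≃ₗ[ℝ] ℂ) (hA : LinearMap.det (A : ℂ →ₗ[ℝ] ℂ) = 1)
    {x : Fin S.n × Fin 3 → ℝ} (hx : x ∈ Coch (ofSurf S)) :
    hn2 (act (ofSurf S) A hA) x = ⨅ F : {F : ℂ → ℝ // ∃ L, LipS S L F}, energy S A x F.1 := by
  unfold hn2
  have hrange : range (fun f : {f : Fin S.n × Fin 3 → ℂ → ℝ // Fn (act (ofSurf S) A hA) f} =>
      en (act (ofSurf S) A hA) x f.1)
      = range (fun F : {F : ℂ → ℝ // ∃ L, LipS S L F} => energy S A x F.1) := by
    ext c
    constructor
    · rintro ⟨⟨f, hf⟩, rfl⟩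
      obtain ⟨F, L, hF, hFf⟩ := Fn.toLipS (act_Fn _ A hA hf)
      exact ⟨⟨F, L, hF⟩, (en_eq_energy A hA hx hF hFf).symm⟩
    · rintro ⟨⟨F, L, hF⟩, rfl⟩
      obtain ⟨f, hf, hfF⟩ := hF.toFn
      refine ⟨⟨_, act_Fn' _ A hA hf⟩, en_eq_energy A hA hx hF ?_⟩
      intro i k z hz
      change f (i, k) (A.symm (A z)) = _
      rw [LinearEquiv.symm_apply_apply]
      exact hfF i k z hz
  change sInf (range _) = sInf (range _)
  rw [hrange]

/-! ### Areas and the mean -/

/-- The standard triangle. -/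
def stri : Set ℂ := {z | 0 < z.re ∧ 0 < z.im ∧ z.re + z.im < 1}

theorem volume_stri : volume stri = ENNReal.ofReal (1 / 2) := by
  have h1 : stri = Complex.measurableEquivRealProd ⁻¹'
      (regionBetween (fun _ : ℝ => (0 : ℝ)) (fun x => 1 - x) (Ioo 0 1)) := by
    ext z
    simp only [stri, regionBetween, mem_preimage, mem_ofPred_eq, mem_Ioo,
      Complex.measurableEquivRealProd_apply]
    constructor
    · rintro ⟨h1, h2, h3⟩
      exact ⟨⟨h1, by linarith⟩, h2, by linarith⟩
    · rintro ⟨⟨h1, h2⟩, h3, h4⟩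
      exact ⟨h1, h3, by linarith⟩
  have hm : MeasurableSet (regionBetween (fun _ : ℝ => (0 : ℝ)) (fun x => 1 - x) (Ioo (0 : ℝ) 1)) :=
    measurableSet_regionBetween measurable_const (measurable_const.sub measurable_id)
      measurableSet_Ioo
  rw [h1, Complex.volume_preserving_equiv_real_prod.measure_preimage hm.nullMeasurableSet]
  have hi1 : IntegrableOn (fun _ : ℝ => (0 : ℝ)) (Ioo (0 : ℝ) 1) volume :=
    integrableOn_zero
  have hi2 : IntegrableOn (fun x : ℝ => 1 - x) (Ioo (0 : ℝ) 1) volume :=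
    ((continuous_const.sub continuous_id).integrableOn_Icc (a := 0) (b := 1)).mono_set
      Ioo_subset_Icc_self
  rw [Measure.volume_eq_prod, volume_regionBetween_eq_integral hi1 hi2 measurableSet_Ioo
    (fun x hx => by simpa using hx.2.le)]
  congr 1
  rw [← integral_Ioc_eq_integral_Ioo, ← intervalIntegral.integral_of_le zero_le_one]
  simp only [Pi.sub_apply, sub_zero]
  rw [intervalIntegral.integral_sub (by simp) (by simp)]
  simp
  norm_num

/-- The area of a triangle. -/
theorem volume_tri (i : Fin S.n) : volume (tri (S.P i)) = ENNReal.ofReal (S.area2 i / 2) := by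
  have harea := S.area2_pos i
  set a := S.P i 1 - S.P i 0 with ha
  set b := S.P i 2 - S.P i 0 with hb
  -- the linear map
  let B : ℂ →ₗ[ℝ] ℂ :=
    { toFun := fun z => (z.re : ℂ) * a + (z.im : ℂ) * b
      map_add' := by intro z w; simp only [Complex.add_re, Complex.add_im]; push_cast; ring
      map_smul' := by
        intro c z
        simp only [Complex.real_smul, Complex.re_ofReal_mul, Complex.im_ofReal_mul,
          RingHom.id_apply]
        push_cast; ring }
  have hB : ∀ z, B z = (z.re : ℂ) * a + (z.im : ℂ) * b := fun z => rfl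
  have hdet : LinearMap.det B = S.area2 i := by
    rw [det_eq_cr97, hB, hB]
    simp only [Complex.one_re, Complex.one_im, Complex.I_re, Complex.I_im, Complex.ofReal_zero,
      Complex.ofReal_one, one_mul, zero_mul, add_zero, zero_add]
    rfl
  have hset : tri (S.P i) = (fun z => z + S.P i 0) '' (B '' stri) := by
    have hell : ∀ z : ℂ, S.ell (i, 0) (B z + S.P i 0) = z.im * S.area2 i ∧
        S.ell (i, 2) (B z + S.P i 0) = z.re * S.area2 i := by
      intro z
      constructor
      · change cr (S.P i 1 - S.P i 0) (B z + S.P i 0 - S.P i 0) = _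
        rw [add_sub_cancel_right, hB]
        simp only [Surf.area2, cr, ha, hb, Complex.add_re, Complex.add_im, Complex.re_ofReal_mul,
          Complex.im_ofReal_mul]
        ring
      · change cr (S.P i 0 - S.P i 2) (B z + S.P i 0 - S.P i 2) = _
        rw [hB]
        simp only [Surf.area2, cr, ha, hb, Complex.add_re, Complex.add_im, Complex.sub_re,
          Complex.sub_im, Complex.re_ofReal_mul, Complex.im_ofReal_mul]
        ring
    have hmem : ∀ z : ℂ, B z + S.P i 0 ∈ tri (S.P i) ↔ z ∈ stri := by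
      intro z
      obtain ⟨h0, h2⟩ := hell z
      have hs := S.ell_sum i 0 (B z + S.P i 0)
      rw [S.mem_tri, forall_fin3 0 (fun l => 0 < S.ell (i, l) _)]
      have e1 : (0 : Fin 3) + 1 = 1 := rfl
      have e2 : (0 : Fin 3) + 2 = 2 := rfl
      rw [e1, e2] at hs ⊢
      have h1 : S.ell (i, 1) (B z + S.P i 0) = (1 - z.re - z.im) * S.area2 i := by
        rw [h0, h2] at hs
        linarith
      rw [h0, h1, h2]
      simp only [mul_pos_iff_of_pos_right harea, stri, mem_ofPred_eq]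
      constructor
      · rintro ⟨k1, k2, k3⟩; exact ⟨k3, k1, by linarith⟩
      · rintro ⟨k1, k2, k3⟩; exact ⟨k2, by linarith, k1⟩
    ext w
    constructor
    · intro hw
      -- preimage by Cramer
      refine ⟨w - S.P i 0, ⟨⟨cr (w - S.P i 0) b / S.area2 i, cr a (w - S.P i 0) / S.area2 i⟩, ?_, ?_⟩,
        by ring⟩
      · rw [← hmem]
        have e : B ⟨cr (w - S.P i 0) b / S.area2 i, cr a (w - S.P i 0) / S.area2 i⟩
            = w - S.P i 0 := by
          rw [hB]
          exact (cramer (u := a) (w := b) harea.ne' (w - S.P i 0)).symm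
        rw [e, sub_add_cancel]
        exact hw
      · rw [hB]
        exact (cramer (u := a) (w := b) harea.ne' (w - S.P i 0)).symm
    · rintro ⟨_, ⟨z, hz, rfl⟩, rfl⟩
      exact (hmem z).2 hz
  rw [hset, image_add_right, measure_preimage_add_right, Measure.addHaar_image_linearMap, hdet,
    volume_stri, ← ENNReal.ofReal_mul (abs_nonneg _), abs_of_pos harea]
  congr 1
  ring

theorem measureReal_tri (i : Fin S.n) : volume.real (tri (S.P i)) = S.area2 i / 2 := by
  rw [Measure.real, volume_tri, ENNReal.toReal_ofReal]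
  have := S.area2_pos i
  positivity

/-- The total area. -/
theorem measureReal_D (S : Surf) : S.μ.real univ = (∑ i, S.area2 i) / 2 := by
  have h1 := integral_D (S := S) (integrable_const (1 : ℝ))
  simp only [integral_const, smul_eq_mul, mul_one, measureReal_restrict_apply_univ,
    measureReal_tri] at h1
  rw [h1, Finset.sum_div]

theorem integral_wform (x : Fin S.n × Fin 3 → ℝ) :
    ∫ z, wform S x z ∂S.μ = ∑ i, ((S.area2 i / 2 : ℝ) : ℂ) * omega (ofSurf S) x (i, 0) := by
  have hi : ∀ i, Integrable (indicator (tri (S.P i)) (fun _ => omega (ofSurf S) x (i, 0))) S.μ :=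
    fun i => (integrable_const _).indicator (S.isOpen_tri i).measurableSet
  unfold wform
  rw [integral_finsetSum _ fun i _ => hi i]
  refine Finset.sum_congr rfl fun i _ => ?_
  rw [integral_indicator (S.isOpen_tri i).measurableSet, integral_const, Complex.real_smul]
  congr 2
  have hsub : tri (S.P i) ⊆ S.D := subset_iUnion (fun i => tri (S.P i)) i
  rw [measureReal_restrict_apply_univ, Surf.μ, measureReal_restrict_apply
    (S.isOpen_tri i).measurableSet, inter_eq_self_of_subset_left hsub, measureReal_tri]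

/-- The mean of a form on `A S`. -/
theorem qT_act (A : ℂ ≃ₗ[ℝ] ℂ) (hA : LinearMap.det (A : ℂ →ₗ[ℝ] ℂ) = 1)
    {x : Fin S.n × Fin 3 → ℝ} (hx : x ∈ Coch (ofSurf S)) :
    qT (act (ofSurf S) A hA) x = cov A (∫ z, wform S x z ∂S.μ) := by
  rw [integral_wform, map_sum]
  unfold qT
  rw [Fintype.sum_prod_type]
  have e1 : ∀ i k, ((ar (act (ofSurf S) A hA) (i, k) : ℝ) : ℂ) * omega (act (ofSurf S) A hA) x (i, k)
      = ((S.area2 i : ℝ) : ℂ) * cov A (omega (ofSurf S) x (i, 0)) := by
    intro i k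
    have h1 : ar (act (ofSurf S) A hA) (i, k) = S.area2 i := by
      change cr (A (S.vec (i, k))) (A (S.vec (i, k + 1))) = _
      rw [cr_linear A hA, S.cr_vec_succ]
    rw [h1, act_omega, omega_rot hx]
  simp_rw [e1]
  simp only [Finset.sum_const, Finset.card_univ, Fintype.card_fin, nsmul_eq_mul]
  rw [← Finset.mul_sum, Finset.mul_sum, Finset.sum_div]
  refine Finset.sum_congr rfl fun i _ => ?_
  have h2 : cov A (((S.area2 i / 2 : ℝ) : ℂ) * omega (ofSurf S) x (i, 0))
      = ((S.area2 i / 2 : ℝ) : ℂ) * cov A (omega (ofSurf S) x (i, 0)) := by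
    rw [← Complex.real_smul, map_smul, Complex.real_smul]
  rw [h2]
  push_cast
  ring

end Pool.Agent.Helper35.E98
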