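import Pool.Agent.Helper35.E98.PLForm

/-!
`Fn (ofSurf S)` (families of Lipschitz functions on the closed triangles which match) and `LipS S`
(Lipschitz along straight segments) are the same; the energy is an integral over the surface.
-/

open MeasureTheory Set Filter Topology

namespace Pool.Agent.Helper35.E98

open Pool.Agent.Helper87.LS Pool.Agent.Helper72.TF

variable {S : Surf}

theorem ofSurf_a0 (i : Fin S.n) (k : Fin 3) (z : ℂ) :
    (ofSurf S).a0 (i, k) z = S.ell (i, k) (z + S.P i k) := by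
  change cr (S.vec (i, k)) z = cr (S.vec (i, k)) (z + S.P i k - S.P i k)
  rw [add_sub_cancel_right]

theorem ofSurf_a1 (i : Fin S.n) (k : Fin 3) (z : ℂ) :
    (ofSurf S).a1 (i, k) z = S.ell (i, k + 1) (z + S.P i k) := by
  change cr (S.vec (i, k + 1)) (z - S.vec (i, k))
    = cr (S.vec (i, k + 1)) (z + S.P i k - S.P i (k + 1))
  congr 1
  simp only [Surf.vec]
  ring

theorem ofSurf_a2 (i : Fin S.n) (k : Fin 3) (z : ℂ) :
    (ofSurf S).a2 (i, k) z = S.ell (i, k + 2) (z + S.P i k) := by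
  have h : k + 1 + 1 = k + 2 := by revert k; decide
  have h2 : k + 2 + 1 = k := by revert k; decide
  have e1 : (ofSurf S).a2 (i, k) z = cr (S.vec (i, k + 1 + 1)) z := rfl
  rw [e1, h, Surf.ell_two46]
  have e2 : S.vec (i, k + 2) = S.P i k - S.P i (k + 2) := by
    simp only [Surf.vec, h2]
  rw [e2]
  simp only [cr, Complex.sub_re, Complex.sub_im, Complex.add_re, Complex.add_im]
  ring

theorem forall_fin3 (k : Fin 3) (p : Fin 3 → Prop) : (∀ l, p l) ↔ p k ∧ p (k + 1) ∧ p (k + 2) := by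
  constructor
  · intro h; exact ⟨h _, h _, h _⟩
  · rintro ⟨h0, h1, h2⟩ l
    have h3 : ∀ k l : Fin 3, l = k ∨ l = k + 1 ∨ l = k + 2 := by decide
    have := h3 k l
    rcases this with rfl | rfl | rfl <;> assumption

theorem mem_Op (i : Fin S.n) (k : Fin 3) (z : ℂ) :
    z ∈ Op (ofSurf S) (i, k) ↔ z + S.P i k ∈ tri (S.P i) := by
  rw [S.mem_tri, forall_fin3 k, ← ofSurf_a0, ← ofSurf_a1, ← ofSurf_a2]
  rfl

theorem mem_Cl (i : Fin S.n) (k : Fin 3) (z : ℂ) :
    z ∈ Cl (ofSurf S) (i, k) ↔ ∀ l, 0 ≤ S.ell (i, l) (z + S.P i k) := by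
  rw [forall_fin3 k, ← ofSurf_a0, ← ofSurf_a1, ← ofSurf_a2]
  rfl

/-- The closed triangle is the closure of the open triangle. -/
theorem closure_tri (i : Fin S.n) : closure (tri (S.P i)) = {z | ∀ l, 0 ≤ S.ell (i, l) z} := by
  apply Subset.antisymm
  · have hcl : IsClosed {z | ∀ l, 0 ≤ S.ell (i, l) z} := by
      have : {z | ∀ l, 0 ≤ S.ell (i, l) z} = ⋂ l, {z | 0 ≤ S.ell (i, l) z} := by
        ext z; simp
      rw [this]
      exact isClosed_iInter fun l => isClosed_le continuous_const (S.continuous_ell _)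
    exact closure_minimal (fun z hz l => (S.mem_tri.1 hz l).le) hcl
  · intro z hz
    obtain ⟨c, hc⟩ := S.tri_nonempty i
    -- the points `z + t (c - z)` are in the open triangle
    have hmem : ∀ t : ℝ, 0 < t → t ≤ 1 → z + t * (c - z) ∈ tri (S.P i) := by
      intro t h0 h1
      rw [S.mem_tri]
      intro l
      rw [S.ell_add_mul]
      have e1 : cr (S.vec (i, l)) (c - z) = S.ell (i, l) c - S.ell (i, l) z := by
        simp only [Surf.ell, cr, Complex.sub_re, Complex.sub_im]; ring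
      rw [e1]
      have h2 := S.mem_tri.1 hc l
      have h3 := hz l
      have h4 : 0 < t * S.ell (i, l) c := mul_pos h0 h2
      have h5 : 0 ≤ (1 - t) * S.ell (i, l) z := mul_nonneg (by linarith) h3
      linarith
    rw [mem_closure_iff_seq_limit]
    refine ⟨fun n : ℕ => z + (((n : ℝ) + 1)⁻¹ : ℝ) * (c - z), fun n => ?_, ?_⟩
    · exact hmem _ (by positivity) (inv_le_one_of_one_le₀ (by linarith [Nat.cast_nonneg (α := ℝ) n]))
    · have h4 : Tendsto (fun n : ℕ => ((n : ℝ) + 1)⁻¹) atTop (𝓝 0) :=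
        tendsto_inv_atTop_zero.comp
          (tendsto_atTop_add_const_right _ _ tendsto_natCast_atTop_atTop)
      have h5 : Tendsto (fun n : ℕ => z + (((n : ℝ) + 1)⁻¹ : ℝ) * (c - z)) atTop
          (𝓝 (z + ((0 : ℝ) : ℂ) * (c - z))) :=
        tendsto_const_nhds.add (((Complex.continuous_ofReal.tendsto 0).comp h4).mul_const _)
      simpa using h5

/-- From matching Lipschitz functions on the closed triangles to a function on the surface. -/
theorem Fn.toLipS {f : Fin S.n × Fin 3 → ℂ → ℝ} (hf : Fn (ofSurf S) f) :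
    ∃ (F : ℂ → ℝ) (L : ℝ), LipS S L F ∧
      ∀ i k, ∀ z ∈ Op (ofSurf S) (i, k), f (i, k) z = F (z + S.P i k) := by
  classical
  obtain ⟨C, hC⟩ := hf.lip
  set F : ℂ → ℝ := fun z => ∑ i, indicator (tri (S.P i)) (fun z => f (i, 0) (z - S.P i 0)) z
    with hF
  have hFi : ∀ i, ∀ z ∈ tri (S.P i), F z = f (i, 0) (z - S.P i 0) := fun i z hz =>
    sum_indicator_tri (fun i z => f (i, 0) (z - S.P i 0)) hz
  -- the values do not depend on the corner
  have hrot : ∀ i k, ∀ z, (∀ l, 0 ≤ S.ell (i, l) z) →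
      f (i, k) (z - S.P i k) = f (i, 0) (z - S.P i 0) := by
    intro i k z hz
    have step : ∀ k, f (i, k + 1) (z - S.P i (k + 1)) = f (i, k) (z - S.P i k) := by
      intro k
      have h1 := hf.rot (i, k) (z - S.P i k) (by
        rw [mem_Cl]; intro l; rw [sub_add_cancel]; exact hz l)
      rw [← h1]
      have e1 : z - S.P i k - (ofSurf S).vec (i, k) = z - S.P i (k + 1) := by
        change z - S.P i k - (S.P i (k + 1) - S.P i k) = _
        ring
      rw [e1]
      rfl
    have s0 := step 0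
    have s1 := step 1
    fin_cases k
    · rfl
    · exact s0
    · exact s1.trans s0
  have hlip : ∀ i, ∀ z w, (∀ l, 0 ≤ S.ell (i, l) z) → (∀ l, 0 ≤ S.ell (i, l) w) →
      |f (i, 0) (w - S.P i 0) - f (i, 0) (z - S.P i 0)| ≤ C * ‖w - z‖ := by
    intro i z w hz hw
    have h1 := (hC (i, 0)).dist_le_mul (w - S.P i 0) (by
      rw [mem_Cl]; intro l; rw [sub_add_cancel]; exact hw l) (z - S.P i 0) (by
      rw [mem_Cl]; intro l; rw [sub_add_cancel]; exact hz l)
    rw [Real.dist_eq, dist_eq_norm] at h1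
    have e1 : w - S.P i 0 - (z - S.P i 0) = w - z := by ring
    rwa [e1] at h1
  have hhop : ∀ v x y, S.Hop v x y → |F y - F x| ≤ C * ‖v‖ := by
    rintro v x y ⟨i, hx, ⟨hy, rfl⟩ | ⟨k, hy, rfl, s, hs, hseg⟩⟩
    · rw [hFi i _ hx, hFi i _ hy]
      have h1 := hlip i x (x + v) (fun l => (S.mem_tri.1 hx l).le) (fun l => (S.mem_tri.1 hy l).le)
      rwa [add_sub_cancel_left] at h1
    · set z := x + (s : ℂ) * v with hz
      set j := (S.glue (i, k)).1 with hj
      set m := (S.glue (i, k)).2 with hm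
      have hzi : ∀ l, 0 ≤ S.ell (i, l) z := by
        have h1 := (S.mem_openSegment_iff i k z).1 hseg
        rw [forall_fin3 k (fun l => 0 ≤ S.ell (i, l) z)]
        exact ⟨h1.1.ge, h1.2.1.le, h1.2.2.le⟩
      have hseg' := S.open_glue87 hseg
      have hzj : ∀ l, 0 ≤ S.ell (j, l) (z + S.shift (i, k)) := by
        have h1 := (S.mem_openSegment_iff j m _).1 hseg'
        rw [forall_fin3 m (fun l => 0 ≤ S.ell (j, l) (z + S.shift (i, k)))]
        exact ⟨h1.1.ge, h1.2.1.le, h1.2.2.le⟩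
      have h1 := hlip i x z (fun l => (S.mem_tri.1 hx l).le) hzi
      have h2 := hlip j (z + S.shift (i, k)) (x + v + S.shift (i, k)) hzj
        (fun l => (S.mem_tri.1 hy l).le)
      -- the values agree on the edge
      have h3 : f (j, 0) (z + S.shift (i, k) - S.P j 0) = f (i, 0) (z - S.P i 0) := by
        rw [← hrot i k z hzi, ← hrot j m _ hzj]
        obtain ⟨a, b, ha, hb, hab, hzab⟩ := hseg
        have hzt : z = S.P i k + (b : ℂ) * S.vec (i, k) := by
          rw [← hzab]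
          have ha' : (a : ℂ) = 1 - b := by
            have : a = 1 - b := by linarith
            rw [this]; push_cast; ring
          simp only [Complex.real_smul, Surf.vec]
          rw [ha']; ring
        have h4 := hf.edge (i, k) b ⟨hb.le, by linarith⟩
        have e1 : z - S.P i k = (b : ℂ) * (ofSurf S).vec (i, k) := by
          rw [hzt]
          change S.P i k + (b : ℂ) * S.vec (i, k) - S.P i k = (b : ℂ) * S.vec (i, k)
          ring
        have e2 : z + S.shift (i, k) - S.P j m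
            = (b : ℂ) * (ofSurf S).vec (i, k) - (ofSurf S).vec (i, k) := by
          rw [hzt]
          change S.P i k + (b : ℂ) * S.vec (i, k) + (S.P j m - S.P i (k + 1)) - S.P j m
            = (b : ℂ) * S.vec (i, k) - (S.P i (k + 1) - S.P i k)
          ring
        rw [e1, e2]
        exact h4
      rw [hFi i x hx, hFi j _ hy]
      have e3 : z - x = (s : ℂ) * v := by rw [hz]; ring
      have e4 : x + v + S.shift (i, k) - (z + S.shift (i, k)) = ((1 - s : ℝ) : ℂ) * v := by
        rw [hz]; push_cast; ring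
      rw [e3, norm_mul, Complex.norm_real, Real.norm_of_nonneg hs.1.le] at h1
      rw [e4, norm_mul, Complex.norm_real, Real.norm_of_nonneg (by linarith [hs.2])] at h2
      have e5 : f (j, 0) (x + v + S.shift (i, k) - S.P j 0) - f (i, 0) (x - S.P i 0)
          = (f (j, 0) (x + v + S.shift (i, k) - S.P j 0)
            - f (j, 0) (z + S.shift (i, k) - S.P j 0))
            + (f (i, 0) (z - S.P i 0) - f (i, 0) (x - S.P i 0)) := by
        rw [h3]; ring
      rw [e5]
      refine (abs_add_le _ _).trans ?_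
      calc _ ≤ C * ((1 - s) * ‖v‖) + C * (s * ‖v‖) := add_le_add h2 h1
        _ = C * ‖v‖ := by ring
  refine ⟨F, C, ?_, ?_⟩
  · intro v x y h
    rw [Real.norm_eq_abs]
    induction h with
    | hop h => exact hhop _ _ _ h
    | @trans r v x y z h0 h1 _ _ ih1 ih2 =>
      rw [norm_mul, Complex.norm_real, Real.norm_of_nonneg h0.le] at ih1
      rw [norm_mul, Complex.norm_real, Real.norm_of_nonneg (by linarith)] at ih2
      have e1 : F z - F x = (F z - F y) + (F y - F x) := by ring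
      rw [e1]
      refine (abs_add_le _ _).trans ?_
      calc _ ≤ C * ((1 - r) * ‖v‖) + C * (r * ‖v‖) := add_le_add ih2 ih1
        _ = C * ‖v‖ := by ring
  · intro i k z hz
    rw [mem_Op] at hz
    rw [hFi i _ hz, ← hrot i k (z + S.P i k) (fun l => (S.mem_tri.1 hz l).le),
      add_sub_cancel_right]

/-- From a function on the surface to matching Lipschitz functions on the closed triangles. -/
theorem LipS.toFn {L : ℝ} {F : ℂ → ℝ} (hF : LipS S L F) :
    ∃ f : Fin S.n × Fin 3 → ℂ → ℝ, Fn (ofSurf S) f ∧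
      ∀ i k, ∀ z ∈ Op (ofSurf S) (i, k), f (i, k) z = F (z + S.P i k) := by
  classical
  have hL := hF.nonneg
  choose g hg hgF using fun i => (hF.lipschitzOn i).extend_real
  refine ⟨fun h z => g h.1 (z + S.P h.1 h.2), ⟨⟨L.toNNReal, ?_⟩, ?_, ?_⟩, ?_⟩
  · intro h
    refine LipschitzWith.lipschitzOnWith ?_
    refine LipschitzWith.of_dist_le_mul fun x y => ?_
    have h1 := (hg h.1).dist_le_mul (x + S.P h.1 h.2) (y + S.P h.1 h.2)
    rwa [dist_add_right] at h1
  · rintro ⟨i, k⟩ z -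
    change g i (z - S.vec (i, k) + S.P i (k + 1)) = g i (z + S.P i k)
    congr 1
    simp only [Surf.vec]
    ring
  · rintro ⟨i, k⟩ t ht
    set j := (S.glue (i, k)).1 with hj
    set m := (S.glue (i, k)).2 with hm
    change g j (t * S.vec (i, k) - S.vec (i, k) + S.P j m) = g i (t * S.vec (i, k) + S.P i k)
    -- both sides are continuous in `t`
    have hc1 : Continuous fun t : ℝ => g j ((t : ℂ) * S.vec (i, k) - S.vec (i, k) + S.P j m) :=
      (hg j).continuous.comp (((Complex.continuous_ofReal.mul continuous_const).sub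
        continuous_const).add continuous_const)
    have hc2 : Continuous fun t : ℝ => g i ((t : ℂ) * S.vec (i, k) + S.P i k) :=
      (hg i).continuous.comp ((Complex.continuous_ofReal.mul continuous_const).add
        continuous_const)
    have hcl : IsClosed {t : ℝ | g j ((t : ℂ) * S.vec (i, k) - S.vec (i, k) + S.P j m)
        = g i ((t : ℂ) * S.vec (i, k) + S.P i k)} := isClosed_eq hc1 hc2
    suffices hopen : Ioo (0 : ℝ) 1 ⊆ {t : ℝ | g j ((t : ℂ) * S.vec (i, k) - S.vec (i, k) + S.P j m)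
        = g i ((t : ℂ) * S.vec (i, k) + S.P i k)} by
      have h1 := hcl.closure_subset_iff.2 hopen
      rw [closure_Ioo (by norm_num : (0 : ℝ) ≠ 1)] at h1
      exact h1 ht
    intro t ht
    set z : ℂ := (t : ℂ) * S.vec (i, k) + S.P i k with hz
    have hzs : (t : ℂ) * S.vec (i, k) - S.vec (i, k) + S.P j m = z + S.shift (i, k) := by
      change _ = (t : ℂ) * S.vec (i, k) + S.P i k + (S.P j m - S.P i (k + 1))
      simp only [Surf.vec]; ring
    change g j _ = g i z
    rw [hzs]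
    have hseg : z ∈ openSegment ℝ (S.P i k) (S.P i (k + 1)) := by
      refine ⟨1 - t, t, by linarith [ht.2], ht.1, by ring, ?_⟩
      rw [hz]
      simp only [Complex.real_smul, Surf.vec]
      push_cast; ring
    have hseg' := S.open_glue87 hseg
    -- approach `z` from both sides
    set ν : ℂ := Complex.I * S.vec (i, k) with hν
    have hcr : 0 < cr (S.vec (i, k)) ν := by
      have e : cr (S.vec (i, k)) ν = ‖S.vec (i, k)‖ ^ 2 := by
        rw [← Complex.normSq_eq_norm_sq, Complex.normSq_apply]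
        simp only [hν, cr, Complex.mul_re, Complex.mul_im, Complex.I_re, Complex.I_im]; ring
      rw [e]
      have := norm_pos_iff.2 (S.vec_ne_zero (i, k))
      positivity
    have hz0 := (S.mem_openSegment_iff i k z).1 hseg
    have hz1 := (S.mem_openSegment_iff j m _).1 hseg'
    have t0 : Tendsto (fun n : ℕ => (((n : ℝ) + 1)⁻¹ : ℝ)) atTop (𝓝 0) :=
      tendsto_inv_atTop_zero.comp
        (tendsto_atTop_add_const_right _ _ tendsto_natCast_atTop_atTop)
    have t1 : Tendsto (fun n : ℕ => z + ((((n : ℝ) + 1)⁻¹ : ℝ) : ℂ) * ν) atTop (𝓝 z) := by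
      have h5 : Tendsto (fun n : ℕ => z + ((((n : ℝ) + 1)⁻¹ : ℝ) : ℂ) * ν) atTop
          (𝓝 (z + ((0 : ℝ) : ℂ) * ν)) :=
        tendsto_const_nhds.add (((Complex.continuous_ofReal.tendsto 0).comp t0).mul_const _)
      simpa using h5
    have t2 : Tendsto (fun n : ℕ => z + S.shift (i, k) - ((((n : ℝ) + 1)⁻¹ : ℝ) : ℂ) * ν) atTop
        (𝓝 (z + S.shift (i, k))) := by
      have h5 : Tendsto (fun n : ℕ => z + S.shift (i, k) - ((((n : ℝ) + 1)⁻¹ : ℝ) : ℂ) * ν) atTop
          (𝓝 (z + S.shift (i, k) - ((0 : ℝ) : ℂ) * ν)) :=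
        tendsto_const_nhds.sub (((Complex.continuous_ofReal.tendsto 0).comp t0).mul_const _)
      simpa using h5
    have m1 : ∀ᶠ n : ℕ in atTop, z + ((((n : ℝ) + 1)⁻¹ : ℝ) : ℂ) * ν ∈ tri (S.P i) := by
      have e1 : ∀ᶠ n : ℕ in atTop, 0 < S.ell (i, k + 1) (z + ((((n : ℝ) + 1)⁻¹ : ℝ) : ℂ) * ν) :=
        (((S.continuous_ell (i, k + 1)).tendsto z).comp t1).eventually (lt_mem_nhds hz0.2.1)
      have e2 : ∀ᶠ n : ℕ in atTop, 0 < S.ell (i, k + 2) (z + ((((n : ℝ) + 1)⁻¹ : ℝ) : ℂ) * ν) :=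
        (((S.continuous_ell (i, k + 2)).tendsto z).comp t1).eventually (lt_mem_nhds hz0.2.2)
      filter_upwards [e1, e2] with n h1 h2
      rw [S.mem_tri, forall_fin3 k (fun l => 0 < S.ell (i, l) _)]
      refine ⟨?_, h1, h2⟩
      rw [S.ell_add_mul, hz0.1, zero_add]
      positivity
    have m2 : ∀ᶠ n : ℕ in atTop,
        z + S.shift (i, k) - ((((n : ℝ) + 1)⁻¹ : ℝ) : ℂ) * ν ∈ tri (S.P j) := by
      have e1 : ∀ᶠ n : ℕ in atTop,
          0 < S.ell (j, m + 1) (z + S.shift (i, k) - ((((n : ℝ) + 1)⁻¹ : ℝ) : ℂ) * ν) :=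
        (((S.continuous_ell (j, m + 1)).tendsto _).comp t2).eventually (lt_mem_nhds hz1.2.1)
      have e2 : ∀ᶠ n : ℕ in atTop,
          0 < S.ell (j, m + 2) (z + S.shift (i, k) - ((((n : ℝ) + 1)⁻¹ : ℝ) : ℂ) * ν) :=
        (((S.continuous_ell (j, m + 2)).tendsto _).comp t2).eventually (lt_mem_nhds hz1.2.2)
      filter_upwards [e1, e2] with n h1 h2
      rw [S.mem_tri, forall_fin3 m (fun l => 0 < S.ell (j, l) _)]
      refine ⟨?_, h1, h2⟩
      have e3 : z + S.shift (i, k) - ((((n : ℝ) + 1)⁻¹ : ℝ) : ℂ) * ν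
          = z + S.shift (i, k) + (((-((n : ℝ) + 1)⁻¹ : ℝ)) : ℂ) * ν := by push_cast; ring
      have e4 : S.vec (j, m) = -S.vec (i, k) := by
        have := S.vec_glue (i, k)
        rwa [← Prod.mk.eta (p := S.glue (i, k))] at this
      rw [e3, S.ell_add_mul, hz1.1, zero_add, e4]
      have e5 : cr (-S.vec (i, k)) ν = -cr (S.vec (i, k)) ν := by
        simp only [cr, Complex.neg_re, Complex.neg_im]; ring
      rw [e5]
      have : 0 < ((n : ℝ) + 1)⁻¹ * cr (S.vec (i, k)) ν := by positivity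
      linarith
    -- the values
    have l1 : Tendsto (fun n : ℕ => F (z + ((((n : ℝ) + 1)⁻¹ : ℝ) : ℂ) * ν)) atTop (𝓝 (g i z)) := by
      refine (((hg i).continuous.tendsto z).comp t1).congr' ?_
      filter_upwards [m1] with n hn
      exact (hgF i hn).symm
    have l2 : Tendsto (fun n : ℕ => F (z + S.shift (i, k) - ((((n : ℝ) + 1)⁻¹ : ℝ) : ℂ) * ν)) atTop
        (𝓝 (g j (z + S.shift (i, k)))) := by
      refine (((hg j).continuous.tendsto _).comp t2).congr' ?_
      filter_upwards [m2] with n hn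
      exact (hgF j hn).symm
    have l3 : Tendsto (fun n : ℕ => F (z + S.shift (i, k) - ((((n : ℝ) + 1)⁻¹ : ℝ) : ℂ) * ν)
        - F (z + ((((n : ℝ) + 1)⁻¹ : ℝ) : ℂ) * ν)) atTop (𝓝 0) := by
      rw [tendsto_zero_iff_norm_tendsto_zero]
      have hb : ∀ᶠ n : ℕ in atTop, ‖F (z + S.shift (i, k) - ((((n : ℝ) + 1)⁻¹ : ℝ) : ℂ) * ν)
          - F (z + ((((n : ℝ) + 1)⁻¹ : ℝ) : ℂ) * ν)‖ ≤ 2 * L * ‖ν‖ * ((n : ℝ) + 1)⁻¹ := by
        filter_upwards [m1, m2] with n hn1 hn2
        have hn : (0 : ℝ) < ((n : ℝ) + 1)⁻¹ := by positivity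
        have hhop : S.Hop (((-(2 * ((n : ℝ) + 1)⁻¹) : ℝ) : ℂ) * ν)
            (z + ((((n : ℝ) + 1)⁻¹ : ℝ) : ℂ) * ν)
            (z + S.shift (i, k) - ((((n : ℝ) + 1)⁻¹ : ℝ) : ℂ) * ν) := by
          refine ⟨i, hn1, Or.inr ⟨k, hn2, ?_, 1 / 2, ⟨by norm_num, by norm_num⟩, ?_⟩⟩
          · push_cast; ring
          · have : z + ((((n : ℝ) + 1)⁻¹ : ℝ) : ℂ) * ν
                + ((1 / 2 : ℝ) : ℂ) * ((((-(2 * ((n : ℝ) + 1)⁻¹)) : ℝ) : ℂ) * ν) = z := by
              push_cast; ring
            rw [this]; exact hseg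
        have h1 := hF _ _ _ (Surf.Straight.hop hhop)
        have e6 : ‖((((-(2 * ((n : ℝ) + 1)⁻¹)) : ℝ) : ℂ)) * ν‖ = 2 * ((n : ℝ) + 1)⁻¹ * ‖ν‖ := by
          rw [norm_mul, Complex.norm_real, norm_neg, Real.norm_of_nonneg (by positivity)]
        rw [e6] at h1
        refine h1.trans (le_of_eq (by ring))
      refine squeeze_zero' (Eventually.of_forall fun _ => norm_nonneg _) hb ?_
      have := t0.const_mul (2 * L * ‖ν‖)
      rwa [mul_zero] at this
    have h1 := tendsto_nhds_unique (l2.sub l1) l3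
    linarith
  · intro i k z hz
    rw [mem_Op] at hz
    exact (hgF i hz).symm

end Pool.Agent.Helper35.E98
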