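import Pool.Agent.Helper87.LS.Cont

/-!
Local charts of size `r` outside a set of measure `≤ C r²`; the cocycle property
`F u (F v x) = F (u + v) x` outside a set of measure `≤ C (‖u‖ + ‖v‖)²`.
-/

open MeasureTheory Set Filter Topology

namespace Pool.Agent.Helper35.E98

open Pool.Agent.Helper87.LS

variable (S : Surf)

/-- Near an edge (and far from the vertices) the two adjacent triangles form a chart. -/
theorem chart_hop {M r : ℝ} (hM : ∀ e, ‖S.vec e‖ ≤ M) (hr : 0 ≤ r) {i : Fin S.n} {k : Fin 3}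
    {x : ℂ} (hxk : 0 < S.ell (i, k) x)
    (hin : ∀ l, l ≠ k → M * r < S.ell (i, l) x)
    (hout : S.ell (i, k) x ≤ M * r → ∀ l, l ≠ (S.glue (i, k)).2 →
      M * r < S.ell ((S.glue (i, k)).1, l) (x + S.shift (i, k))) :
    ∃ ψ : ℂ → ℂ, ψ 0 = x ∧ (∀ w, ψ w = x + w ∨ ψ w = x + w + S.shift (i, k)) ∧
      (∀ w, 0 < S.ell (i, k) (x + w) → ψ w = x + w) ∧
      (∀ w, S.ell (i, k) (x + w) < 0 → ψ w = x + w + S.shift (i, k)) ∧
      (∀ w, ‖w‖ ≤ r → 0 < S.ell (i, k) (x + w) → x + w ∈ tri (S.P i)) ∧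
      (∀ w, ‖w‖ ≤ r → S.ell (i, k) (x + w) < 0 →
        x + w + S.shift (i, k) ∈ tri (S.P (S.glue (i, k)).1)) ∧
      ∀ w w', ‖w‖ ≤ r → ‖w'‖ ≤ r → S.ell (i, k) (x + w) ≠ 0 →
      S.ell (i, k) (x + w') ≠ 0 → S.Hop (w' - w) (ψ w) (ψ w') := by
  classical
  have hcr : ∀ e w, ‖w‖ ≤ r → |cr (S.vec e) w| ≤ M * r := fun e w hw =>
    (abs_cr_le _ _).trans (mul_le_mul (hM e) hw (norm_nonneg _) ((norm_nonneg _).trans (hM e)))
  have hinw : ∀ l, l ≠ k → ∀ w, ‖w‖ ≤ r → 0 < S.ell (i, l) (x + w) := by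
    intro l hl w hw
    rw [S.ell_add]
    have h1 := hin l hl
    have h2 := abs_le.1 (hcr (i, l) w hw)
    linarith [h2.1]
  have hpos : ∀ w, ‖w‖ ≤ r → 0 < S.ell (i, k) (x + w) → x + w ∈ tri (S.P i) := by
    intro w hw h
    rw [S.mem_tri]
    intro l
    by_cases hl : l = k
    · rw [hl]; exact h
    · exact hinw l hl w hw
  have hneg : ∀ w, ‖w‖ ≤ r → S.ell (i, k) (x + w) < 0 →
      x + w + S.shift (i, k) ∈ tri (S.P (S.glue (i, k)).1) := by
    intro w hw h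
    have h1 : S.ell (i, k) x ≤ M * r := by
      rw [S.ell_add] at h
      have h2 := abs_le.1 (hcr (i, k) w hw)
      linarith [h2.1]
    have h3 := hout h1
    rw [S.mem_tri]
    intro l
    by_cases hl : l = (S.glue (i, k)).2
    · subst hl
      rw [Prod.mk.eta, S.ell_glue]
      linarith
    · have h4 : x + w + S.shift (i, k) = (x + S.shift (i, k)) + w := by ring
      rw [h4, S.ell_add]
      have h2 := abs_le.1 (hcr ((S.glue (i, k)).1, l) w hw)
      linarith [h2.1, h3 l hl]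
  set ψ : ℂ → ℂ := fun w => if 0 < S.ell (i, k) (x + w) then x + w else x + w + S.shift (i, k)
    with hψ
  have hψp : ∀ w, 0 < S.ell (i, k) (x + w) → ψ w = x + w := fun w h => by
    simp only [hψ]; rw [if_pos h]
  have hψn : ∀ w, S.ell (i, k) (x + w) < 0 → ψ w = x + w + S.shift (i, k) := fun w h => by
    simp only [hψ]; rw [if_neg (not_lt.2 h.le)]
  have hpn : ∀ w w', ‖w‖ ≤ r → ‖w'‖ ≤ r → 0 < S.ell (i, k) (x + w) →
      S.ell (i, k) (x + w') < 0 → S.Hop (w' - w) (ψ w) (ψ w') := by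
    intro w w' hw hw' h h'
    rw [hψp w h, hψn w' h']
    refine ⟨i, hpos w hw h, Or.inr ⟨k, hneg w' hw' h', by ring, ?_⟩⟩
    set a := S.ell (i, k) (x + w) with ha
    set b := S.ell (i, k) (x + w') with hb
    have hab : 0 < a - b := by linarith
    refine ⟨a / (a - b), ⟨div_pos h hab, by rw [div_lt_one hab]; linarith⟩, ?_⟩
    have hab' : b = a + cr (S.vec (i, k)) (w' - w) := by
      rw [ha, hb, ← S.ell_add]; congr 1; ring
    set s := a / (a - b) with hs
    have hs0 : 0 < s := div_pos h hab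
    have hs1 : s < 1 := by rw [hs, div_lt_one hab]; linarith
    have hnorm : ‖w + s * (w' - w)‖ ≤ r := by
      have h1 : w + s * (w' - w) = ((1 - s : ℝ) : ℂ) * w + (s : ℂ) * w' := by push_cast; ring
      rw [h1]
      calc ‖((1 - s : ℝ) : ℂ) * w + (s : ℂ) * w'‖ ≤ ‖((1 - s : ℝ) : ℂ) * w‖ + ‖(s : ℂ) * w'‖ :=
            norm_add_le _ _
        _ = (1 - s) * ‖w‖ + s * ‖w'‖ := by
            rw [norm_mul, norm_mul, Complex.norm_real, Complex.norm_real,
              Real.norm_of_nonneg (by linarith), Real.norm_of_nonneg hs0.le]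
        _ ≤ (1 - s) * r + s * r := by
            gcongr
        _ = r := by ring
    rw [S.mem_openSegment_iff]
    have hadd : x + w + (s : ℂ) * (w' - w) = x + (w + s * (w' - w)) := by ring
    refine ⟨?_, ?_, ?_⟩
    · rw [S.ell_add_mul, ← ha]
      have h2 : cr (S.vec (i, k)) (w' - w) = -(a - b) := by rw [hab']; ring
      rw [h2, hs]
      field_simp
      ring
    · rw [hadd]
      exact hinw _ (by revert k; intro k; fin_cases k <;> simp) _ hnorm
    · rw [hadd]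
      exact hinw _ (by revert k; intro k; fin_cases k <;> simp) _ hnorm
  refine ⟨ψ, ?_, ?_, hψp, hψn, hpos, hneg, ?_⟩
  · rw [hψp 0 (by rw [add_zero]; exact hxk), add_zero]
  · intro w
    simp only [hψ]
    by_cases h : 0 < S.ell (i, k) (x + w)
    · left; rw [if_pos h]
    · right; rw [if_neg h]
  · intro w w' hw hw' h h'
    rcases lt_or_gt_of_ne h with h1 | h1 <;> rcases lt_or_gt_of_ne h' with h2 | h2
    · rw [hψn w h1, hψn w' h2]
      have h3 := hneg w hw h1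
      have h4 := hneg w' hw' h2
      have h5 : x + w' + S.shift (i, k) = (x + w + S.shift (i, k)) + (w' - w) := by ring
      rw [h5] at h4 ⊢
      exact S.hop_inside h3 h4
    · have h3 := (hpn w' w hw' hw h2 h1).symm
      rw [neg_sub] at h3
      exact h3
    · exact hpn w w' hw hw' h1 h2
    · rw [hψp w h1, hψp w' h2]
      have h3 := hpos w hw h1
      have h4 := hpos w' hw' h2
      have h5 : x + w' = (x + w) + (w' - w) := by ring
      rw [h5] at h4 ⊢
      exact S.hop_inside h3 h4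

/-- A point which is close to a vertex (through one of the two triangles at an edge). -/
def NearV (δ : ℝ) (x : ℂ) : Prop :=
  (∃ (e : Fin S.n × Fin 3) (l : Fin 3), l ≠ e.2 ∧ |S.ell (e.1, e.2) x| ≤ δ ∧
      |S.ell (e.1, l) x| ≤ δ) ∨
    (∃ (e : Fin S.n × Fin 3) (l : Fin 3), l ≠ (S.glue e).2 ∧
      |S.ell ((S.glue e).1, (S.glue e).2) (x + S.shift e)| ≤ δ ∧
      |S.ell ((S.glue e).1, l) (x + S.shift e)| ≤ δ)

theorem nearV_bound : ∃ C : ℝ, 0 ≤ C ∧ ∀ δ : ℝ, 0 ≤ δ →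
    volume {x | NearV S δ x} ≤ ENNReal.ofReal (C * δ ^ 2) := by
  choose C hC0 hC using fun (p : (Fin S.n × Fin 3) × Fin 3) => S.corner87 p.1.1 p.1.2 p.2
  set C1 : ℝ := ∑ p : (Fin S.n × Fin 3) × Fin 3, C p with hC1
  set C2 : ℝ := ∑ p : (Fin S.n × Fin 3) × Fin 3, C (S.glue p.1, p.2) with hC2
  have hC10 : 0 ≤ C1 := Finset.sum_nonneg fun p _ => hC0 p
  have hC20 : 0 ≤ C2 := Finset.sum_nonneg fun p _ => hC0 _
  refine ⟨C1 + C2, by positivity, fun δ hδ => ?_⟩
  let T : (Fin S.n × Fin 3) × Fin 3 → Set ℂ := fun p =>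
    {z : ℂ | p.2 ≠ p.1.2 ∧ |S.ell (p.1.1, p.1.2) z| ≤ δ ∧ |S.ell (p.1.1, p.2) z| ≤ δ}
  have hT : ∀ p, volume (T p) ≤ ENNReal.ofReal (C p * δ ^ 2) := fun p => hC p δ hδ
  have hsub : {x | NearV S δ x} ⊆ (⋃ p, T p) ∪
        ⋃ p : (Fin S.n × Fin 3) × Fin 3, (fun z => z + S.shift p.1) ⁻¹' T (S.glue p.1, p.2) := by
    rintro x (⟨e, l, h⟩ | ⟨e, l, h⟩)
    · exact Or.inl (mem_iUnion.2 ⟨(e, l), h⟩)
    · exact Or.inr (mem_iUnion.2 ⟨(e, l), h⟩)
  have h1 : volume (⋃ p, T p) ≤ ENNReal.ofReal (C1 * δ ^ 2) := by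
    calc volume (⋃ p, T p) ≤ ∑ p, volume (T p) := by
          simpa using measure_iUnion_le (μ := volume) T
      _ ≤ ∑ p, ENNReal.ofReal (C p * δ ^ 2) := Finset.sum_le_sum fun p _ => hT p
      _ = ENNReal.ofReal (C1 * δ ^ 2) := by
          rw [← ENNReal.ofReal_sum_of_nonneg fun p _ => mul_nonneg (hC0 p) (sq_nonneg _),
            hC1, Finset.sum_mul]
  have h3 : volume (⋃ p : (Fin S.n × Fin 3) × Fin 3,
      (fun z => z + S.shift p.1) ⁻¹' T (S.glue p.1, p.2)) ≤ ENNReal.ofReal (C2 * δ ^ 2) := by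
    calc volume (⋃ p : (Fin S.n × Fin 3) × Fin 3,
        (fun z => z + S.shift p.1) ⁻¹' T (S.glue p.1, p.2))
        ≤ ∑ p : (Fin S.n × Fin 3) × Fin 3,
          volume ((fun z => z + S.shift p.1) ⁻¹' T (S.glue p.1, p.2)) := by
          simpa using measure_iUnion_le (μ := volume) (fun p : (Fin S.n × Fin 3) × Fin 3 =>
            (fun z => z + S.shift p.1) ⁻¹' T (S.glue p.1, p.2))
      _ ≤ ∑ p : (Fin S.n × Fin 3) × Fin 3, ENNReal.ofReal (C (S.glue p.1, p.2) * δ ^ 2) := by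
          refine Finset.sum_le_sum fun p _ => ?_
          rw [measure_preimage_add_right]
          exact hT _
      _ = ENNReal.ofReal (C2 * δ ^ 2) := by
          rw [← ENNReal.ofReal_sum_of_nonneg fun p _ => mul_nonneg (hC0 _) (sq_nonneg _),
            hC2, Finset.sum_mul]
  calc volume {x | NearV S δ x} ≤ _ := measure_mono hsub
    _ ≤ _ := measure_union_le _ _
    _ ≤ ENNReal.ofReal (C1 * δ ^ 2) + ENNReal.ofReal (C2 * δ ^ 2) := add_le_add h1 h3
    _ = ENNReal.ofReal ((C1 + C2) * δ ^ 2) := by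
        rw [← ENNReal.ofReal_add (by positivity) (by positivity)]
        congr 1; ring

/-- Outside the neighbourhood of the vertices a point is close to at most one edge. -/
theorem exists_data : ∃ K M : ℝ, 0 < K ∧ 0 ≤ M ∧ (∀ e, ‖S.vec e‖ ≤ M) ∧
    ∀ r : ℝ, 0 ≤ r → ∀ x ∈ S.D, ¬ NearV S (K * r) x →
    ∃ (i : Fin S.n) (k : Fin 3), x ∈ tri (S.P i) ∧ (∀ l, l ≠ k → M * r < S.ell (i, l) x) ∧
      (S.ell (i, k) x ≤ M * r → ∀ l, l ≠ (S.glue (i, k)).2 →
        M * r < S.ell ((S.glue (i, k)).1, l) (x + S.shift (i, k))) := by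
  set M : ℝ := ∑ e, ‖S.vec e‖ with hM
  have hMe : ∀ e, ‖S.vec e‖ ≤ M := fun e =>
    Finset.single_le_sum (f := fun e => ‖S.vec e‖) (fun _ _ => norm_nonneg _) (Finset.mem_univ e)
  have hM0 : 0 ≤ M := Finset.sum_nonneg fun _ _ => norm_nonneg _
  set A : ℝ := ∑ i, (S.area2 i)⁻¹ with hA
  have hAi : ∀ i, (S.area2 i)⁻¹ ≤ A := fun i =>
    Finset.single_le_sum (f := fun i => (S.area2 i)⁻¹)
      (fun i _ => (inv_pos.2 (S.area2_pos i)).le) (Finset.mem_univ i)
  have hA0 : 0 ≤ A := Finset.sum_nonneg fun i _ => (inv_pos.2 (S.area2_pos i)).le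
  set K : ℝ := (1 + M ^ 2 * A) * (M + 1) with hK
  have hK0 : 0 < K := by positivity
  refine ⟨K, M, hK0, hM0, hMe, fun r hr x hx hb => ?_⟩
  have hKr : M * r ≤ K * r := by
    apply mul_le_mul_of_nonneg_right _ hr
    rw [hK]
    have : 0 ≤ M ^ 2 * A := by positivity
    nlinarith
  obtain ⟨i, hxi⟩ := mem_iUnion.1 hx
  rw [S.mem_tri] at hxi
  have hk : ∃ k : Fin 3, ∀ l, l ≠ k → M * r < S.ell (i, l) x := by
    by_cases h : ∃ k, S.ell (i, k) x ≤ M * r
    · obtain ⟨k, hk⟩ := h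
      refine ⟨k, fun l hl => ?_⟩
      by_contra hc
      exact hb (Or.inl ⟨(i, k), l, hl, by rw [abs_of_pos (hxi k)]; linarith,
        by rw [abs_of_pos (hxi l)]; linarith⟩)
    · refine ⟨0, fun l _ => ?_⟩
      by_contra hc
      exact h ⟨l, not_lt.1 hc⟩
  obtain ⟨k, hk⟩ := hk
  have hout : S.ell (i, k) x ≤ M * r → ∀ l, l ≠ (S.glue (i, k)).2 →
      M * r < S.ell ((S.glue (i, k)).1, l) (x + S.shift (i, k)) := by
    intro h1 l hl
    by_contra hc
    rw [not_lt] at hc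
    have hx0 := hxi k
    set t : ℝ := S.ell (i, k) x / S.area2 i with ht
    have ht0 : 0 ≤ t := (div_pos hx0 (S.area2_pos i)).le
    set w : ℂ := -((t : ℂ) * S.vec (i, k + 1)) with hw
    have hz : x + w ∈ openSegment ℝ (S.P i k) (S.P i (k + 1)) := by
      rw [S.mem_openSegment_iff]
      have e0 : S.ell (i, k) (x + w) = 0 := by
        rw [hw, S.ell_add, ← neg_mul, ← Complex.ofReal_neg, cr_mul_right, S.cr_vec_succ, ht]
        have := (S.area2_pos i).ne'
        field_simp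
        ring
      have e1 : S.ell (i, k + 1) (x + w) = S.ell (i, k + 1) x := by
        rw [hw, S.ell_add, ← neg_mul, ← Complex.ofReal_neg, cr_mul_right, cr_self]
        ring
      refine ⟨e0, by rw [e1]; exact hxi _, ?_⟩
      have h2 := S.ell_sum i k (x + w)
      have h3 := S.ell_sum i k x
      have h4 := hxi (k + 2)
      rw [e0, e1] at h2
      linarith
    have hz' := S.open_glue87 hz
    rw [S.mem_openSegment_iff] at hz'
    have hz'' : 0 < S.ell ((S.glue (i, k)).1, l) (x + w + S.shift (i, k)) := by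
      have h3 : l = (S.glue (i, k)).2 + 1 ∨ l = (S.glue (i, k)).2 + 2 := by
        have h4 : ∀ a b : Fin 3, b ≠ a → b = a + 1 ∨ b = a + 2 := by decide
        exact h4 _ _ hl
      rcases h3 with h | h
      · rw [h]; exact hz'.2.1
      · rw [h]; exact hz'.2.2
    have hxl : x + w + S.shift (i, k) = (x + S.shift (i, k)) + w := by ring
    rw [hxl, S.ell_add] at hz''
    have hwn : ‖w‖ ≤ M * r * A * M := by
      rw [hw, norm_neg, norm_mul, Complex.norm_real, Real.norm_of_nonneg ht0, ht]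
      apply mul_le_mul _ (hMe _) (norm_nonneg _) (by positivity)
      rw [div_eq_mul_inv]
      apply mul_le_mul h1 (hAi i) (inv_pos.2 (S.area2_pos i)).le (by positivity)
    have hcr : |cr (S.vec ((S.glue (i, k)).1, l)) w| ≤ M * (M * r * A * M) :=
      (abs_cr_le _ _).trans (mul_le_mul (hMe _) hwn (norm_nonneg _) hM0)
    have h5 := abs_le.1 hcr
    have hbig : M * (M * r * A * M) ≤ K * r := by
      have h6 : 0 ≤ (M ^ 2 * A) * r := by positivity
      have h7 : 0 ≤ r * (M + 1) := by positivity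
      rw [hK]
      nlinarith
    apply hb
    right
    refine ⟨(i, k), l, hl, ?_, ?_⟩
    · rw [Prod.mk.eta, S.ell_glue, abs_neg, abs_of_pos hx0]; linarith
    · rw [abs_le]
      constructor
      · linarith [h5.2]
      · linarith
  exact ⟨i, k, S.mem_tri.2 hxi, hk, hout⟩

/-- Outside the neighbourhood of the vertices there is a chart. -/
theorem exists_chart : ∃ K : ℝ, 0 < K ∧ ∀ r : ℝ, 0 ≤ r → ∀ x ∈ S.D, ¬ NearV S (K * r) x →
    ∃ (e : Fin S.n × Fin 3) (ψ : ℂ → ℂ), ψ 0 = x ∧ 0 < S.ell e x ∧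
      (∀ w, ψ w = x + w ∨ ψ w = x + w + S.shift e) ∧
      ∀ w w', ‖w‖ ≤ r → ‖w'‖ ≤ r → S.ell e (x + w) ≠ 0 →
      S.ell e (x + w') ≠ 0 → S.Hop (w' - w) (ψ w) (ψ w') := by
  obtain ⟨K, M, hK0, _, hMe, H⟩ := exists_data S
  refine ⟨K, hK0, fun r hr x hx hb => ?_⟩
  obtain ⟨i, k, hxi, hk, hout⟩ := H r hr x hx hb
  have hxk := S.mem_tri.1 hxi k
  obtain ⟨ψ, h0, h1, -, -, -, -, h2⟩ := chart_hop S hMe hr hxk hk hout
  exact ⟨(i, k), ψ, h0, hxk, h1, h2⟩

/-- The cocycle property up to a set of measure `C (‖u‖ + ‖v‖)²`. -/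
theorem cocycle_bound : ∃ C : ℝ, 0 ≤ C ∧ ∀ u v : ℂ,
    S.μ {x | S.F u (S.F v x) ≠ S.F (u + v) x} ≤ ENNReal.ofReal (C * (‖u‖ + ‖v‖) ^ 2) := by
  obtain ⟨K, hK, hch⟩ := exists_chart S
  obtain ⟨C, hC0, hC⟩ := nearV_bound S
  refine ⟨C * K ^ 2, by positivity, fun u v => ?_⟩
  set r := ‖u‖ + ‖v‖ with hr
  have hr0 : 0 ≤ r := by positivity
  have hnull : volume (⋃ e : Fin S.n × Fin 3, ({z | cr (S.vec e) (z - (S.P e.1 e.2 - v)) = 0} ∪
      {z | cr (S.vec e) (z - (S.P e.1 e.2 - (u + v))) = 0})) = 0 :=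
    measure_iUnion_null fun e => measure_union_null (line_null (S.vec_ne_zero e) _ _)
      (line_null (S.vec_ne_zero e) _ _)
  have hsub : {x | S.F u (S.F v x) ≠ S.F (u + v) x} ∩ S.D ⊆ {x | NearV S (K * r) x} ∪
      (⋃ e : Fin S.n × Fin 3, ({z | cr (S.vec e) (z - (S.P e.1 e.2 - v)) = 0} ∪
      {z | cr (S.vec e) (z - (S.P e.1 e.2 - (u + v))) = 0})) := by
    rintro x ⟨hne, hx⟩
    by_contra hc
    rw [mem_union, not_or] at hc
    obtain ⟨hc1, hc2⟩ := hc
    obtain ⟨e, ψ, h0, hpos, -, hψ⟩ := hch r hr0 x hx hc1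
    rw [mem_iUnion, not_exists] at hc2
    have hc3 := hc2 e
    rw [mem_union, not_or] at hc3
    obtain ⟨hc4, hc5⟩ := hc3
    have hv : S.ell e (x + v) ≠ 0 := by
      intro h
      apply hc4
      have : x - (S.P e.1 e.2 - v) = x + v - S.P e.1 e.2 := by ring
      change cr (S.vec e) (x - (S.P e.1 e.2 - v)) = 0
      rw [this]; exact h
    have huv : S.ell e (x + (u + v)) ≠ 0 := by
      intro h
      apply hc5
      have : x - (S.P e.1 e.2 - (u + v)) = x + (u + v) - S.P e.1 e.2 := by ring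
      change cr (S.vec e) (x - (S.P e.1 e.2 - (u + v))) = 0
      rw [this]; exact h
    have hx0 : S.ell e (x + 0) ≠ 0 := by rw [add_zero]; exact hpos.ne'
    have hnv : ‖v‖ ≤ r := by rw [hr]; linarith [norm_nonneg u]
    have hnuv : ‖u + v‖ ≤ r := norm_add_le _ _
    have hn0 : ‖(0 : ℂ)‖ ≤ r := by rw [norm_zero]; exact hr0
    have k1 := hψ 0 v hn0 hnv hx0 hv
    have k2 := hψ 0 (u + v) hn0 hnuv hx0 huv
    have k3 := hψ v (u + v) hnv hnuv hv huv
    rw [sub_zero, h0] at k1 k2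
    rw [add_sub_cancel_right] at k3
    apply hne
    rw [Surf.F_eq (Surf.Straight.hop k1), Surf.F_eq (Surf.Straight.hop k2),
      Surf.F_eq (Surf.Straight.hop k3)]
  calc S.μ {x | S.F u (S.F v x) ≠ S.F (u + v) x}
      = volume ({x | S.F u (S.F v x) ≠ S.F (u + v) x} ∩ S.D) := by
        rw [Surf.μ, Measure.restrict_apply' S.measurableSet_D]
    _ ≤ _ := measure_mono hsub
    _ ≤ _ := measure_union_le _ _
    _ ≤ ENNReal.ofReal (C * (K * r) ^ 2) + 0 := by
        rw [hnull]; gcongr; exact hC _ (by positivity)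
    _ = _ := by rw [add_zero]; congr 1; ring

end Pool.Agent.Helper35.E98
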