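import Pool.Agent.Helper35.E98.Iso
import Pool.Agent.Helper72.TF.Core

/-!
Closed forms are orthogonal to the star of exact forms: `∫ cr (W, grad g) = 0` for a closed
bounded form `W` (given by its increments `X v p` along the straight segment from `p` with
vector `v`) and a Lipschitz function `g`.

Proof: let `a, b` have length `≤ h`, `T = F`,
`I = ∫ X_a (g∘T_b - g) - X_b (g∘T_a - g)`, `II = ∫ X_b (g∘T_b - g∘T_b∘T_{-a} - g∘T_a + g)`.
Then `I - II = ∫ (X_a + X_b∘T_a - X_b - X_a∘T_b) g∘T_b` is `O(h³)` by the cocycle property.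
`I / h² → ∫ cr (W, grad g)` and `II / h² → 0` (second differences of `g` are `o(h)` almost
everywhere) by dominated convergence.
-/

open MeasureTheory Set Filter Topology

namespace Pool.Agent.Helper35.E98

open Pool.Agent.Helper87.LS Pool.Agent.Helper72.TF

/-- `X v p` is the increment along the straight segment from `p` with vector `v` of a closed bounded
form `W`. -/
structure Incr (S : Surf) (W : ℂ → ℂ) (X : ℂ → ℂ → ℝ) : Prop where
  bd : ∃ L : ℝ, 0 ≤ L ∧ ∀ v, ∀ p ∈ S.D, |X v p| ≤ L * ‖v‖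
  aesm : ∀ v, AEStronglyMeasurable (X v) S.μ
  small : ∀ p ∈ S.D, ∀ᶠ v in 𝓝 (0 : ℂ), X v p = dot (W p) v
  coc : ∃ C : ℝ, 0 ≤ C ∧ ∀ u v : ℂ,
    S.μ {p | ¬ (X (u + v) p = X v p + X u (S.F v p))} ≤ ENNReal.ofReal (C * (‖u‖ + ‖v‖) ^ 2)

section

variable {S : Surf} {W : ℂ → ℂ} {X : ℂ → ℂ → ℝ} {L : ℝ} {g : ℂ → ℝ}

theorem F_neg_comp_ae (S : Surf) (v : ℂ) : ∀ᵐ x ∂S.μ, S.F (-v) (S.F v x) = x := by
  filter_upwards [S.ae_straight v] with x hx
  exact Surf.F_eq (Surf.straight_symm hx)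

theorem F_comp_neg_ae (S : Surf) (v : ℂ) : ∀ᵐ x ∂S.μ, S.F v (S.F (-v) x) = x := by
  have h := F_neg_comp_ae S (-v)
  rwa [neg_neg] at h

/-- Change of variables. -/
theorem integral_comp_F (S : Surf) (v : ℂ) {φ : ℂ → ℝ} (hφ : AEStronglyMeasurable φ S.μ) :
    ∫ x, φ (S.F v x) ∂S.μ = ∫ x, φ x ∂S.μ := by
  have h1 := S.measurePreserving_F v
  have h2 : AEStronglyMeasurable φ (Measure.map (S.F v) S.μ) := by
    rw [h1.map_eq]; exact hφ
  have h3 := integral_map h1.measurable.aemeasurable h2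
  rw [h1.map_eq] at h3
  exact h3.symm

theorem Incr.aesm_comp (hX : Incr S W X) (u v : ℂ) :
    AEStronglyMeasurable (fun p => X u (S.F v p)) S.μ :=
  (hX.aesm u).comp_measurePreserving (S.measurePreserving_F v)

theorem integrable_of_ae_le {φ : ℂ → ℝ} (hφ : AEStronglyMeasurable φ S.μ) {B : ℝ}
    (h : ∀ᵐ x ∂S.μ, |φ x| ≤ B) : Integrable φ S.μ :=
  Integrable.of_bound hφ B h

/-- The comparison of the two integrals. -/
theorem closed_err (hX : Incr S W X) (hg : LipS S L g) : ∃ C : ℝ, 0 ≤ C ∧ ∀ a b : ℂ,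
    |(∫ p, (X a p * (g (S.F b p) - g p) - X b p * (g (S.F a p) - g p)) ∂S.μ) -
      ∫ p, X b p * (g (S.F b p) - g (S.F b (S.F (-a) p)) - g (S.F a p) + g p) ∂S.μ|
      ≤ C * (‖a‖ + ‖b‖) ^ 3 := by
  obtain ⟨C, hC0, hC⟩ := hX.coc
  obtain ⟨M, hM0, hM⟩ := hX.bd
  obtain ⟨B, hB0, hB⟩ := hg.bounded
  refine ⟨4 * M * B * (C + C), by positivity, fun a b => ?_⟩
  have hFm := fun v => S.measurePreserving_F v
  have aF : ∀ v, ∀ᵐ x ∂S.μ, S.F v x ∈ S.D := fun v => ae_F_mem S v
  have aD := ae_mem_D S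
  have gb : ∀ v, ∀ᵐ x ∂S.μ, |g (S.F v x)| ≤ B := fun v => by
    filter_upwards [aF v] with x hx using hB _ hx
  have gb0 : ∀ᵐ x ∂S.μ, |g x| ≤ B := by
    filter_upwards [aD] with x hx using hB _ hx
  have Xb : ∀ v, ∀ᵐ x ∂S.μ, |X v x| ≤ M * ‖v‖ := fun v => by
    filter_upwards [aD] with x hx using hM v _ hx
  have Xb' : ∀ u v, ∀ᵐ x ∂S.μ, |X u (S.F v x)| ≤ M * ‖u‖ := fun u v => by
    filter_upwards [aF v] with x hx using hM u _ hx
  have gba : ∀ᵐ x ∂S.μ, |g (S.F b (S.F (-a) x))| ≤ B :=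
    (hFm (-a)).quasiMeasurePreserving.ae (gb b)
  have mul_bd : ∀ {p q : ℂ → ℝ} {P Q : ℝ}, 0 ≤ P → (∀ᵐ x ∂S.μ, |p x| ≤ P) →
      (∀ᵐ x ∂S.μ, |q x| ≤ Q) → ∀ᵐ x ∂S.μ, |p x * q x| ≤ P * Q := by
    intro p q P Q hP hp hq
    filter_upwards [hp, hq] with x h1 h2
    rw [abs_mul]
    exact mul_le_mul h1 h2 (abs_nonneg _) hP
  have ga := hg.aesm
  have gav := fun v => hg.aesm_comp v
  have Xa := hX.aesm
  have Xav := hX.aesm_comp
  have gaba : AEStronglyMeasurable (fun p => g (S.F b (S.F (-a) p))) S.μ :=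
    (gav b).comp_measurePreserving (hFm (-a))
  have hMa : 0 ≤ M * ‖a‖ := by positivity
  have hMb : 0 ≤ M * ‖b‖ := by positivity
  -- integrability
  have j1 : Integrable (fun p => X a p * g (S.F b p)) S.μ :=
    integrable_of_ae_le ((Xa a).mul (gav b)) (mul_bd hMa (Xb a) (gb b))
  have j2 : Integrable (fun p => X a p * g p) S.μ :=
    integrable_of_ae_le ((Xa a).mul ga) (mul_bd hMa (Xb a) gb0)
  have j3 : Integrable (fun p => X b p * g (S.F a p)) S.μ :=
    integrable_of_ae_le ((Xa b).mul (gav a)) (mul_bd hMb (Xb b) (gb a))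
  have j4 : Integrable (fun p => X b p * g p) S.μ :=
    integrable_of_ae_le ((Xa b).mul ga) (mul_bd hMb (Xb b) gb0)
  have j5 : Integrable (fun p => X b p * g (S.F b p)) S.μ :=
    integrable_of_ae_le ((Xa b).mul (gav b)) (mul_bd hMb (Xb b) (gb b))
  have j6 : Integrable (fun p => X b p * g (S.F b (S.F (-a) p))) S.μ :=
    integrable_of_ae_le ((Xa b).mul gaba) (mul_bd hMb (Xb b) gba)
  have j7 : Integrable (fun p => X b (S.F a p) * g (S.F b p)) S.μ :=
    integrable_of_ae_le ((Xav b a).mul (gav b)) (mul_bd hMb (Xb' b a) (gb b))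
  have j8 : Integrable (fun p => X a (S.F b p) * g (S.F b p)) S.μ :=
    integrable_of_ae_le ((Xav a b).mul (gav b)) (mul_bd hMa (Xb' a b) (gb b))
  have s1 : ∫ p, X b p * g (S.F b (S.F (-a) p)) ∂S.μ = ∫ p, X b (S.F a p) * g (S.F b p) ∂S.μ := by
    rw [← integral_comp_F S a (φ := fun p => X b p * g (S.F b (S.F (-a) p))) ((Xa b).mul gaba)]
    refine integral_congr_ae ?_
    filter_upwards [F_neg_comp_ae S a] with p hp
    rw [hp]
  have s2 : ∫ p, X a (S.F b p) * g (S.F b p) ∂S.μ = ∫ p, X a p * g p ∂S.μ :=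
    integral_comp_F S b (φ := fun p => X a p * g p) ((Xa a).mul ga)
  have e1 : ∫ p, (X a p * (g (S.F b p) - g p) - X b p * (g (S.F a p) - g p)) ∂S.μ
      = (∫ p, X a p * g (S.F b p) ∂S.μ) - (∫ p, X a p * g p ∂S.μ)
        - ((∫ p, X b p * g (S.F a p) ∂S.μ) - ∫ p, X b p * g p ∂S.μ) := by
    rw [← integral_sub j1 j2, ← integral_sub j3 j4]
    have k1 : Integrable (fun p => X a p * g (S.F b p) - X a p * g p) S.μ := j1.sub j2
    have k2 : Integrable (fun p => X b p * g (S.F a p) - X b p * g p) S.μ := j3.sub j4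
    rw [← integral_sub k1 k2]
    congr 1
    funext p
    ring
  have e2 : ∫ p, X b p * (g (S.F b p) - g (S.F b (S.F (-a) p)) - g (S.F a p) + g p) ∂S.μ
      = (∫ p, X b p * g (S.F b p) ∂S.μ) - (∫ p, X b p * g (S.F b (S.F (-a) p)) ∂S.μ)
        - ((∫ p, X b p * g (S.F a p) ∂S.μ) - ∫ p, X b p * g p ∂S.μ) := by
    rw [← integral_sub j5 j6, ← integral_sub j3 j4]
    have k1 : Integrable (fun p => X b p * g (S.F b p) - X b p * g (S.F b (S.F (-a) p))) S.μ :=
      j5.sub j6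
    have k2 : Integrable (fun p => X b p * g (S.F a p) - X b p * g p) S.μ := j3.sub j4
    rw [← integral_sub k1 k2]
    congr 1
    funext p
    ring
  set E : ℂ → ℝ := fun p => X a p + X b (S.F a p) - X b p - X a (S.F b p) with hE
  have e3 : (∫ p, (X a p * (g (S.F b p) - g p) - X b p * (g (S.F a p) - g p)) ∂S.μ) -
      ∫ p, X b p * (g (S.F b p) - g (S.F b (S.F (-a) p)) - g (S.F a p) + g p) ∂S.μ
      = ∫ p, E p * g (S.F b p) ∂S.μ := by
    rw [e1, e2, s1, ← s2]
    have k1 : Integrable (fun p => X a p * g (S.F b p) - X a (S.F b p) * g (S.F b p)) S.μ :=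
      j1.sub j8
    have k2 : Integrable (fun p => X b p * g (S.F b p) - X b (S.F a p) * g (S.F b p)) S.μ :=
      j5.sub j7
    have k3 : (∫ p, X a p * g (S.F b p) ∂S.μ) - (∫ p, X a (S.F b p) * g (S.F b p) ∂S.μ)
        - ((∫ p, X b p * g (S.F a p) ∂S.μ) - ∫ p, X b p * g p ∂S.μ)
        - ((∫ p, X b p * g (S.F b p) ∂S.μ) - (∫ p, X b (S.F a p) * g (S.F b p) ∂S.μ)
        - ((∫ p, X b p * g (S.F a p) ∂S.μ) - ∫ p, X b p * g p ∂S.μ))
        = ((∫ p, X a p * g (S.F b p) ∂S.μ) - (∫ p, X a (S.F b p) * g (S.F b p) ∂S.μ))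
        - ((∫ p, X b p * g (S.F b p) ∂S.μ) - (∫ p, X b (S.F a p) * g (S.F b p) ∂S.μ)) := by ring
    rw [k3, ← integral_sub j1 j8, ← integral_sub j5 j7, ← integral_sub k1 k2]
    congr 1
    funext p
    simp only [hE]
    ring
  rw [e3]
  set Bad0 : Set ℂ := {p | ¬ (X (b + a) p = X a p + X b (S.F a p))} ∪
    {p | ¬ (X (a + b) p = X b p + X a (S.F b p))} with hBad0
  set Bad := toMeasurable S.μ Bad0 with hBad
  have hBm : MeasurableSet Bad := measurableSet_toMeasurable _ _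
  have hBμ : S.μ Bad ≤ ENNReal.ofReal ((C + C) * (‖a‖ + ‖b‖) ^ 2) := by
    rw [hBad, measure_toMeasurable]
    refine (measure_union_le _ _).trans ((add_le_add (hC b a) (hC a b)).trans (le_of_eq ?_))
    rw [← ENNReal.ofReal_add (by positivity) (by positivity)]
    congr 1; ring
  have hE0 : ∀ p, p ∉ Bad → E p * g (S.F b p) = 0 := by
    intro p hp
    have hp0 : p ∉ Bad0 := fun h => hp (subset_toMeasurable _ _ h)
    rw [hBad0, mem_union, not_or, mem_ofPred_eq, mem_ofPred_eq, not_not, not_not] at hp0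
    have : E p = 0 := by
      simp only [hE]
      have h1 := hp0.1
      have h2 := hp0.2
      rw [add_comm b a] at h1
      linarith
    rw [this, zero_mul]
  rw [← setIntegral_eq_integral_of_forall_compl_eq_zero hE0, ← Real.norm_eq_abs]
  have hr : 0 ≤ ‖a‖ + ‖b‖ := by positivity
  have hbound : ∀ᵐ p ∂(S.μ.restrict Bad), ‖E p * g (S.F b p)‖ ≤ 4 * M * B * (‖a‖ + ‖b‖) := by
    apply ae_restrict_of_ae
    filter_upwards [Xb a, Xb b, Xb' a b, Xb' b a, gb b] with p h1 h2 h3 h4 h5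
    rw [norm_mul, Real.norm_eq_abs, Real.norm_eq_abs]
    have hEb : |E p| ≤ M * ‖a‖ + M * ‖b‖ + M * ‖b‖ + M * ‖a‖ := by
      simp only [hE]
      refine (abs_sub _ _).trans (add_le_add ((abs_sub _ _).trans (add_le_add
        ((abs_add_le _ _).trans (add_le_add h1 h4)) h2)) h3)
    calc |E p| * |g (S.F b p)| ≤ (M * ‖a‖ + M * ‖b‖ + M * ‖b‖ + M * ‖a‖) * B :=
          mul_le_mul hEb h5 (abs_nonneg _) (by positivity)
      _ = 2 * M * B * (‖a‖ + ‖b‖) := by ring
      _ ≤ 4 * M * B * (‖a‖ + ‖b‖) := by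
          have : 0 ≤ M * B * (‖a‖ + ‖b‖) := by positivity
          nlinarith
  have hmeas : S.μ.real Bad ≤ (C + C) * (‖a‖ + ‖b‖) ^ 2 :=
    ENNReal.toReal_le_of_le_ofReal (by positivity) hBμ
  calc ‖∫ p in Bad, E p * g (S.F b p) ∂S.μ‖
      ≤ 4 * M * B * (‖a‖ + ‖b‖) * S.μ.real Bad :=
        norm_setIntegral_le_of_norm_le_const_ae' (measure_lt_top _ _) (by
          rw [ae_restrict_iff' hBm] at hbound; exact hbound)
    _ ≤ 4 * M * B * (‖a‖ + ‖b‖) * ((C + C) * (‖a‖ + ‖b‖) ^ 2) := by gcongr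
    _ = _ := by ring

theorem tendsto_inv_smul (v : ℂ) : Tendsto (fun n : ℕ => ((n : ℝ) + 1)⁻¹ • v) atTop (𝓝 0) := by
  have h4 : Tendsto (fun n : ℕ => ((n : ℝ) + 1)⁻¹) atTop (𝓝 0) :=
    tendsto_inv_atTop_zero.comp
      (tendsto_atTop_add_const_right _ _ tendsto_natCast_atTop_atTop)
  have h5 := h4.smul_const v
  rwa [zero_smul] at h5

/-- Closed forms are orthogonal to the star of exact forms. -/
theorem closed_exact (hX : Incr S W X) (hg : LipS S L g) :
    ∫ p, cr (W p) (grad g p) ∂S.μ = 0 := by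
  obtain ⟨C, hC0, hC⟩ := closed_err hX hg
  obtain ⟨M, hM0, hM⟩ := hX.bd
  have hL := hg.nonneg
  set a : ℕ → ℂ := fun n => ((n : ℝ) + 1)⁻¹ • (1 : ℂ) with ha
  set b : ℕ → ℂ := fun n => ((n : ℝ) + 1)⁻¹ • Complex.I with hb
  have hnpos : ∀ n : ℕ, (0 : ℝ) < (n : ℝ) + 1 := fun n => by positivity
  have hna : ∀ n : ℕ, ((n : ℝ) + 1) * ‖a n‖ = 1 := fun n => by
    simp only [ha]
    rw [norm_smul, Real.norm_of_nonneg (inv_pos.2 (hnpos n)).le, norm_one]
    have := (hnpos n).ne'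
    field_simp
  have hnb : ∀ n : ℕ, ((n : ℝ) + 1) * ‖b n‖ = 1 := fun n => by
    simp only [hb]
    rw [norm_smul, Real.norm_of_nonneg (inv_pos.2 (hnpos n)).le, Complex.norm_I]
    have := (hnpos n).ne'
    field_simp
  have ta : Tendsto a atTop (𝓝 0) := tendsto_inv_smul 1
  have tb : Tendsto b atTop (𝓝 0) := tendsto_inv_smul Complex.I
  -- first integral
  set H : ℕ → ℂ → ℝ := fun n p => ((n : ℝ) + 1) ^ 2 *
    (X (a n) p * (g (S.F (b n) p) - g p) - X (b n) p * (g (S.F (a n) p) - g p)) with hH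
  set K : ℕ → ℂ → ℝ := fun n p => ((n : ℝ) + 1) ^ 2 * (X (b n) p *
    (g (S.F (b n) p) - g (S.F (b n) (S.F (-(a n)) p)) - g (S.F (a n) p) + g p)) with hK
  have Xlim : ∀ v : ℂ, ∀ p ∈ S.D, Tendsto
      (fun n : ℕ => ((n : ℝ) + 1) * X (((n : ℝ) + 1)⁻¹ • v) p) atTop (𝓝 (dot (W p) v)) := by
    intro v p hp
    have h1 := (tendsto_inv_smul v).eventually (hX.small p hp)
    refine tendsto_const_nhds.congr' ?_
    filter_upwards [h1] with n hn
    rw [hn]
    have := (hnpos n).ne'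
    simp only [dot, Complex.smul_re, Complex.smul_im, smul_eq_mul]
    field_simp
  have hlimH : Tendsto (fun n => ∫ p, H n p ∂S.μ) atTop
      (𝓝 (∫ p, cr (W p) (grad g p) ∂S.μ)) := by
    refine tendsto_integral_of_dominated_convergence (fun _ => M * L + M * L) ?_ ?_ ?_ ?_
    · intro n
      exact ((((hX.aesm (a n)).mul ((hg.aesm_comp (b n)).sub hg.aesm))).sub
        ((hX.aesm (b n)).mul ((hg.aesm_comp (a n)).sub hg.aesm))).const_mul _
    · exact integrable_const _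
    · intro n
      filter_upwards [ae_mem_D S, hg.ae_le (a n), hg.ae_le (b n)] with p hp h1 h2
      rw [Real.norm_eq_abs] at h1 h2 ⊢
      simp only [hH]
      rw [abs_mul, abs_of_pos (by positivity)]
      have k1 : |X (a n) p * (g (S.F (b n) p) - g p)| ≤ (M * ‖a n‖) * (L * ‖b n‖) := by
        rw [abs_mul]
        exact mul_le_mul (hM _ _ hp) h2 (abs_nonneg _) (by positivity)
      have k2 : |X (b n) p * (g (S.F (a n) p) - g p)| ≤ (M * ‖b n‖) * (L * ‖a n‖) := by
        rw [abs_mul]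
        exact mul_le_mul (hM _ _ hp) h1 (abs_nonneg _) (by positivity)
      calc ((n : ℝ) + 1) ^ 2 * |X (a n) p * (g (S.F (b n) p) - g p)
            - X (b n) p * (g (S.F (a n) p) - g p)|
          ≤ ((n : ℝ) + 1) ^ 2 * ((M * ‖a n‖) * (L * ‖b n‖) + (M * ‖b n‖) * (L * ‖a n‖)) := by
            gcongr
            exact (abs_sub _ _).trans (add_le_add k1 k2)
        _ = M * L * (((n : ℝ) + 1) * ‖a n‖) * (((n : ℝ) + 1) * ‖b n‖)
            + M * L * (((n : ℝ) + 1) * ‖b n‖) * (((n : ℝ) + 1) * ‖a n‖) := by ring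
        _ = M * L + M * L := by rw [hna, hnb]; ring
    · filter_upwards [ae_mem_D S, hg.tendsto_quot 1, hg.tendsto_quot Complex.I] with p hp h1 h2
      have h3 := ((Xlim 1 p hp).mul h2).sub ((Xlim Complex.I p hp).mul h1)
      have h4 : dot (W p) 1 * fderiv ℝ g p Complex.I - dot (W p) Complex.I * fderiv ℝ g p 1
          = cr (W p) (grad g p) := by
        simp only [dot, cr, grad, Complex.one_re, Complex.one_im, Complex.I_re, Complex.I_im]
        ring
      rw [h4] at h3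
      refine h3.congr fun n => ?_
      simp only [hH, ha, hb]
      ring
  have hlimK : Tendsto (fun n => ∫ p, K n p ∂S.μ) atTop (𝓝 0) := by
    have h0 : ∫ p, (0 : ℝ) ∂S.μ = 0 := integral_zero _ _
    rw [← h0]
    refine tendsto_integral_of_dominated_convergence (fun _ => M * (4 * L)) ?_ ?_ ?_ ?_
    · intro n
      have h1 : AEStronglyMeasurable (fun p => g (S.F (b n) (S.F (-(a n)) p))) S.μ :=
        (hg.aesm_comp (b n)).comp_measurePreserving (S.measurePreserving_F (-(a n)))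
      exact (((hX.aesm (b n)).mul ((((hg.aesm_comp (b n)).sub h1).sub
        (hg.aesm_comp (a n))).add hg.aesm))).const_mul _
    · exact integrable_const _
    · intro n
      have h5 : ∀ᵐ p ∂S.μ, ‖g (S.F (b n) (S.F (-(a n)) p)) - g (S.F (-(a n)) p)‖ ≤ L * ‖b n‖ :=
        (S.measurePreserving_F (-(a n))).quasiMeasurePreserving.ae (hg.ae_le (b n))
      filter_upwards [ae_mem_D S, hg.ae_le (a n), hg.ae_le (b n), hg.ae_le (-(a n)), h5]
        with p hp h1 h2 h3 h4
      rw [Real.norm_eq_abs] at h1 h2 h3 h4 ⊢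
      rw [norm_neg] at h3
      simp only [hK]
      rw [abs_mul, abs_of_pos (by positivity), abs_mul]
      have k1 : |g (S.F (b n) p) - g (S.F (b n) (S.F (-(a n)) p)) - g (S.F (a n) p) + g p|
          ≤ L * ‖b n‖ + L * ‖b n‖ + L * ‖a n‖ + L * ‖a n‖ := by
        have e : g (S.F (b n) p) - g (S.F (b n) (S.F (-(a n)) p)) - g (S.F (a n) p) + g p
            = (g (S.F (b n) p) - g p) - (g (S.F (b n) (S.F (-(a n)) p)) - g (S.F (-(a n)) p))
              - (g (S.F (-(a n)) p) - g p) - (g (S.F (a n) p) - g p) := by ring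
        rw [e]
        refine (abs_sub _ _).trans (add_le_add ((abs_sub _ _).trans (add_le_add
          ((abs_sub _ _).trans (add_le_add h2 h4)) h3)) h1)
      calc ((n : ℝ) + 1) ^ 2 * (|X (b n) p| *
            |g (S.F (b n) p) - g (S.F (b n) (S.F (-(a n)) p)) - g (S.F (a n) p) + g p|)
          ≤ ((n : ℝ) + 1) ^ 2 * ((M * ‖b n‖) *
            (L * ‖b n‖ + L * ‖b n‖ + L * ‖a n‖ + L * ‖a n‖)) := by
            gcongr
            exact hM _ _ hp
        _ = M * (((n : ℝ) + 1) * ‖b n‖) * (2 * L * (((n : ℝ) + 1) * ‖b n‖)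
            + 2 * L * (((n : ℝ) + 1) * ‖a n‖)) := by ring
        _ = M * (4 * L) := by rw [hna, hnb]; ring
    · filter_upwards [ae_mem_D S, hg.ae_differentiableAt, hg.tendsto_quot 1,
        hg.tendsto_quot Complex.I] with p hp hd h1 h2
      -- the combined displacement
      have h3 : Tendsto (fun n : ℕ => ((n : ℝ) + 1) *
          (g (S.F (b n) (S.F (-(a n)) p)) - g p)) atTop
          (𝓝 (fderiv ℝ g p (Complex.I - 1))) := by
        have k1 : Tendsto (fun n : ℕ => ‖((n : ℝ) + 1)‖) atTop atTop := by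
          refine tendsto_norm_atTop_atTop.comp ?_
          exact tendsto_atTop_add_const_right _ _ tendsto_natCast_atTop_atTop
        have k2 := hd.hasFDerivAt.lim (Complex.I - 1) k1
        obtain ⟨i, hi⟩ := mem_iUnion.1 hp
        have k3 : ∀ᶠ n in atTop, p + -(a n) ∈ tri (S.P i) := by
          have : Tendsto (fun n => p + -(a n)) atTop (𝓝 (p + -0)) :=
            tendsto_const_nhds.add ta.neg
          rw [neg_zero, add_zero] at this
          exact this.eventually ((S.isOpen_tri i).mem_nhds hi)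
        have k4 : ∀ᶠ n in atTop, p + -(a n) + b n ∈ tri (S.P i) := by
          have : Tendsto (fun n => p + -(a n) + b n) atTop (𝓝 (p + -0 + 0)) :=
            (tendsto_const_nhds.add ta.neg).add tb
          rw [neg_zero, add_zero, add_zero] at this
          exact this.eventually ((S.isOpen_tri i).mem_nhds hi)
        refine k2.congr' ?_
        filter_upwards [k3, k4] with n hn1 hn2
        rw [Surf.F_eq (Surf.Straight.hop (S.hop_inside hi hn1)),
          Surf.F_eq (Surf.Straight.hop (S.hop_inside hn1 hn2)), smul_eq_mul]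
        congr 3
        simp only [ha, hb, smul_sub]
        ring
      have h4 := (h2.sub h3).sub h1
      have h5 : fderiv ℝ g p Complex.I - fderiv ℝ g p (Complex.I - 1) - fderiv ℝ g p 1 = 0 := by
        rw [map_sub]; ring
      rw [h5] at h4
      have h6 := (Xlim Complex.I p hp).mul h4
      rw [mul_zero] at h6
      refine h6.congr fun n => ?_
      simp only [hK, ha, hb]
      ring
  have hdiff : Tendsto (fun n => (∫ p, H n p ∂S.μ) - ∫ p, K n p ∂S.μ) atTop (𝓝 0) := by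
    rw [tendsto_zero_iff_norm_tendsto_zero]
    have hbd : ∀ n : ℕ, ‖(∫ p, H n p ∂S.μ) - ∫ p, K n p ∂S.μ‖ ≤ C * 8 * ((n : ℝ) + 1)⁻¹ := by
      intro n
      have h1 := hC (a n) (b n)
      simp only [hH, hK]
      rw [integral_const_mul, integral_const_mul, ← mul_sub, norm_mul, Real.norm_eq_abs,
        Real.norm_eq_abs, abs_of_pos (by positivity : (0 : ℝ) < ((n : ℝ) + 1) ^ 2)]
      calc ((n : ℝ) + 1) ^ 2 * _ ≤ ((n : ℝ) + 1) ^ 2 * (C * (‖a n‖ + ‖b n‖) ^ 3) := by gcongr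
        _ = C * (((n : ℝ) + 1) * ‖a n‖ + ((n : ℝ) + 1) * ‖b n‖) ^ 3 * ((n : ℝ) + 1)⁻¹ := by
            have := (hnpos n).ne'
            field_simp
        _ = C * 8 * ((n : ℝ) + 1)⁻¹ := by rw [hna, hnb]; ring
    refine squeeze_zero (fun _ => norm_nonneg _) hbd ?_
    have h4 : Tendsto (fun n : ℕ => ((n : ℝ) + 1)⁻¹) atTop (𝓝 0) :=
      tendsto_inv_atTop_zero.comp
        (tendsto_atTop_add_const_right _ _ tendsto_natCast_atTop_atTop)
    have := h4.const_mul (C * 8)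
    rwa [mul_zero] at this
  have h1 := hlimH.sub hlimK
  have h2 := tendsto_nhds_unique h1 hdiff
  rwa [sub_zero] at h2

/-- Exact forms have mean zero. -/
theorem exact_mean (hg : LipS S L g) (v : ℂ) : ∫ p, fderiv ℝ g p v ∂S.μ = 0 := by
  have hL := hg.nonneg
  have hlim : Tendsto (fun n : ℕ => ∫ p, ((n : ℝ) + 1) *
      (g (S.F (((n : ℝ) + 1)⁻¹ • v) p) - g p) ∂S.μ) atTop (𝓝 (∫ p, fderiv ℝ g p v ∂S.μ)) := by
    refine tendsto_integral_of_dominated_convergence (fun _ => L * ‖v‖) ?_ ?_ ?_ ?_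
    · intro n
      exact ((hg.aesm_comp _).sub hg.aesm).const_mul _
    · exact integrable_const _
    · intro n
      filter_upwards [hg.ae_quot_le v n] with p hp using hp
    · exact hg.tendsto_quot v
  have hz : ∀ n : ℕ, ∫ p, ((n : ℝ) + 1) * (g (S.F (((n : ℝ) + 1)⁻¹ • v) p) - g p) ∂S.μ = 0 := by
    intro n
    obtain ⟨B, hB0, hB⟩ := hg.bounded
    have i1 : Integrable (fun p => g (S.F (((n : ℝ) + 1)⁻¹ • v) p)) S.μ := by
      refine integrable_of_ae_le (hg.aesm_comp _) (B := B) ?_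
      filter_upwards [ae_F_mem S (((n : ℝ) + 1)⁻¹ • v)] with p hp using hB _ hp
    have i2 : Integrable g S.μ := by
      refine integrable_of_ae_le hg.aesm (B := B) ?_
      filter_upwards [ae_mem_D S] with p hp using hB _ hp
    rw [integral_const_mul, integral_sub i1 i2, integral_comp_F S _ hg.aesm, sub_self, mul_zero]
  simp_rw [hz] at hlim
  exact (tendsto_nhds_unique hlim tendsto_const_nhds)

end

end Pool.Agent.Helper35.E98
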