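import Pool.Agent.Helper35.E98.Chart

/-!
Lipschitz functions on a translation surface: almost everywhere differentiability, boundedness, and
isotropy of exact forms: `∫ det (grad f, grad g) = 0`.

Proof of the isotropy: with `f_v = f ∘ F v`, `b = a + c`,
`∫ (f_a - f_c) (g_b - g) - (f_b - f) (g_a - g_c)` is `O(h³)` for `‖a‖, ‖c‖ ≤ h`, because
`∫ f_a g_{a+c} = ∫ f g_c + O(h³)`; divided by `h²` the integrand tends to
`2 det (grad f, grad g)` for `a = h`, `c = i h`.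
-/

open MeasureTheory Set Filter Topology

namespace Pool.Agent.Helper35.E98

open Pool.Agent.Helper87.LS

/-- `f` is Lipschitz along the straight segments of the surface. -/
def LipS (S : Surf) {E : Type*} [NormedAddCommGroup E] (L : ℝ) (f : ℂ → E) : Prop :=
  ∀ v x y, S.Straight v x y → ‖f y - f x‖ ≤ L * ‖v‖

section Basic

variable {S : Surf} {E : Type*} [NormedAddCommGroup E] {L : ℝ} {f : ℂ → E}

theorem LipS.tri_le (hf : LipS S L f) {i : Fin S.n} {x y : ℂ} (hx : x ∈ tri (S.P i))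
    (hy : y ∈ tri (S.P i)) : ‖f y - f x‖ ≤ L * ‖y - x‖ := by
  apply hf
  have h := S.hop_inside (v := y - x) hx (by rw [add_sub_cancel]; exact hy)
  rw [add_sub_cancel] at h
  exact Surf.Straight.hop h

theorem exists_ne_tri (S : Surf) (i : Fin S.n) : ∃ x ∈ tri (S.P i), ∃ y ∈ tri (S.P i), x ≠ y := by
  obtain ⟨x, hx⟩ := S.tri_nonempty i
  obtain ⟨ε, hε, hball⟩ := Metric.isOpen_iff.1 (S.isOpen_tri i) x hx
  refine ⟨x, hx, x + (ε / 2 : ℝ), hball ?_, ?_⟩
  · rw [Metric.mem_ball, dist_eq_norm, add_sub_cancel_left, Complex.norm_real,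
      Real.norm_of_nonneg (by positivity)]
    linarith
  · intro h
    have h1 : ((ε / 2 : ℝ) : ℂ) = 0 := by
      have := congrArg (fun z => z - x) h
      simpa using this.symm
    rw [Complex.ofReal_eq_zero] at h1
    linarith

theorem LipS.nonneg (hf : LipS S L f) : 0 ≤ L := by
  obtain ⟨x, hx, y, hy, hxy⟩ := exists_ne_tri S ⟨0, S.pos⟩
  have h1 := (norm_nonneg _).trans (hf.tri_le hx hy)
  have h2 : 0 < ‖y - x‖ := norm_pos_iff.2 (sub_ne_zero.2 hxy.symm)
  by_contra hc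
  rw [not_le] at hc
  nlinarith

theorem LipS.lipschitzOn (hf : LipS S L f) (i : Fin S.n) :
    LipschitzOnWith L.toNNReal f (tri (S.P i)) := by
  refine LipschitzOnWith.of_dist_le_mul fun x hx y hy => ?_
  rw [dist_eq_norm, dist_eq_norm, Real.coe_toNNReal _ hf.nonneg]
  exact hf.tri_le hy hx

theorem LipS.continuousOn (hf : LipS S L f) : ContinuousOn f S.D := by
  intro x hx
  obtain ⟨i, hi⟩ := mem_iUnion.1 hx
  exact ((hf.lipschitzOn i).continuousOn.continuousAt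
    ((S.isOpen_tri i).mem_nhds hi)).continuousWithinAt

theorem LipS.aesm (hf : LipS S L f) : AEStronglyMeasurable f S.μ :=
  hf.continuousOn.aestronglyMeasurable S.measurableSet_D

theorem LipS.bounded (hf : LipS S L f) : ∃ B : ℝ, 0 ≤ B ∧ ∀ x ∈ S.D, ‖f x‖ ≤ B := by
  obtain ⟨R, hR⟩ := S.isBounded_D.exists_norm_le
  choose p hp using fun i => S.tri_nonempty i
  refine ⟨∑ i, ‖f (p i)‖ + L * (R + R), ?_, fun x hx => ?_⟩
  · have h1 : 0 ≤ R := (norm_nonneg _).trans (hR (p ⟨0, S.pos⟩) (mem_iUnion.2 ⟨_, hp _⟩))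
    have := hf.nonneg
    have h2 : 0 ≤ ∑ i, ‖f (p i)‖ := Finset.sum_nonneg fun _ _ => norm_nonneg _
    positivity
  · obtain ⟨i, hi⟩ := mem_iUnion.1 hx
    have h1 := hf.tri_le (hp i) hi
    have h2 : ‖x - p i‖ ≤ R + R :=
      (norm_sub_le _ _).trans (add_le_add (hR _ hx) (hR _ (mem_iUnion.2 ⟨i, hp i⟩)))
    have h3 : ‖f x‖ ≤ ‖f (p i)‖ + ‖f x - f (p i)‖ := by
      have := norm_add_le (f (p i)) (f x - f (p i))
      rwa [add_sub_cancel] at this
    have h4 : ‖f (p i)‖ ≤ ∑ i, ‖f (p i)‖ :=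
      Finset.single_le_sum (f := fun i => ‖f (p i)‖) (fun _ _ => norm_nonneg _)
        (Finset.mem_univ i)
    have h5 : L * ‖x - p i‖ ≤ L * (R + R) := mul_le_mul_of_nonneg_left h2 hf.nonneg
    linarith

theorem ae_mem_D (S : Surf) : ∀ᵐ x ∂S.μ, x ∈ S.D := ae_restrict_mem S.measurableSet_D

theorem ae_F_mem (S : Surf) (v : ℂ) : ∀ᵐ x ∂S.μ, S.F v x ∈ S.D := by
  filter_upwards [S.ae_straight v] with x hx using Surf.straight_right hx

theorem LipS.aesm_comp (hf : LipS S L f) (v : ℂ) :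
    AEStronglyMeasurable (fun x => f (S.F v x)) S.μ :=
  hf.aesm.comp_measurePreserving (S.measurePreserving_F v)

theorem LipS.ae_le (hf : LipS S L f) (v : ℂ) : ∀ᵐ x ∂S.μ, ‖f (S.F v x) - f x‖ ≤ L * ‖v‖ := by
  filter_upwards [S.ae_straight v] with x hx using hf _ _ _ hx

theorem F_small (S : Surf) {x : ℂ} (hx : x ∈ S.D) : ∀ᶠ w in 𝓝 (0 : ℂ), S.F w x = x + w := by
  obtain ⟨i, hi⟩ := mem_iUnion.1 hx
  have h1 : Tendsto (fun w : ℂ => x + w) (𝓝 0) (𝓝 x) := by
    have : Tendsto (fun w : ℂ => x + w) (𝓝 0) (𝓝 (x + 0)) := by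
      exact (continuous_const.add continuous_id).tendsto 0
    rwa [add_zero] at this
  filter_upwards [h1.eventually ((S.isOpen_tri i).mem_nhds hi)] with w hw
  exact Surf.F_eq (Surf.Straight.hop (S.hop_inside hi hw))

variable [NormedSpace ℝ E]

theorem LipS.norm_fderiv_le (hf : LipS S L f) {x : ℂ} (hx : x ∈ S.D) : ‖fderiv ℝ f x‖ ≤ L := by
  obtain ⟨i, hi⟩ := mem_iUnion.1 hx
  have := norm_fderiv_le_of_lipschitzOn ℝ ((S.isOpen_tri i).mem_nhds hi) (hf.lipschitzOn i)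
  rwa [Real.coe_toNNReal _ hf.nonneg] at this

theorem LipS.ae_differentiableAt [FiniteDimensional ℝ E] (hf : LipS S L f) :
    ∀ᵐ x ∂S.μ, DifferentiableAt ℝ f x := by
  have h : ∀ i, ∀ᵐ x ∂(volume.restrict (tri (S.P i))),
      DifferentiableAt ℝ f x := by
    intro i
    filter_upwards [(hf.lipschitzOn i).ae_differentiableWithinAt (S.isOpen_tri i).measurableSet,
      ae_restrict_mem (S.isOpen_tri i).measurableSet] with x hx hxi
    exact hx.differentiableAt ((S.isOpen_tri i).mem_nhds hxi)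
  rw [Surf.μ, Surf.D]
  exact (ae_restrict_iUnion_iff _ _).2 h

end Basic

section Real

variable {S : Surf} {L : ℝ} {f g : ℂ → ℝ}

/-- The difference quotients converge to the derivative almost everywhere. -/
theorem LipS.tendsto_quot (hf : LipS S L f) (v : ℂ) : ∀ᵐ x ∂S.μ,
    Tendsto (fun n : ℕ => ((n : ℝ) + 1) * (f (S.F (((n : ℝ) + 1)⁻¹ • v) x) - f x)) atTop
      (𝓝 (fderiv ℝ f x v)) := by
  filter_upwards [hf.ae_differentiableAt, ae_mem_D S] with x hx hxD
  have h1 : Tendsto (fun n : ℕ => ‖((n : ℝ) + 1)‖) atTop atTop := by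
    refine tendsto_norm_atTop_atTop.comp ?_
    exact tendsto_atTop_add_const_right _ _ tendsto_natCast_atTop_atTop
  have h2 := hx.hasFDerivAt.lim v h1
  have h3 : Tendsto (fun n : ℕ => ((n : ℝ) + 1)⁻¹ • v) atTop (𝓝 0) := by
    have h4 : Tendsto (fun n : ℕ => ((n : ℝ) + 1)⁻¹) atTop (𝓝 0) :=
      tendsto_inv_atTop_zero.comp
        (tendsto_atTop_add_const_right _ _ tendsto_natCast_atTop_atTop)
    have h5 := h4.smul_const v
    rwa [zero_smul] at h5
  refine h2.congr' ?_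
  filter_upwards [h3.eventually (F_small S hxD)] with n hn
  rw [hn, smul_eq_mul]

theorem LipS.ae_quot_le (hf : LipS S L f) (v : ℂ) (n : ℕ) : ∀ᵐ x ∂S.μ,
    |((n : ℝ) + 1) * (f (S.F (((n : ℝ) + 1)⁻¹ • v) x) - f x)| ≤ L * ‖v‖ := by
  filter_upwards [hf.ae_le (((n : ℝ) + 1)⁻¹ • v)] with x hx
  have hn : (0 : ℝ) < (n : ℝ) + 1 := by positivity
  rw [norm_smul, Real.norm_eq_abs, Real.norm_eq_abs, abs_of_pos (inv_pos.2 hn)] at hx
  rw [abs_mul, abs_of_pos hn]
  calc ((n : ℝ) + 1) * |f (S.F (((n : ℝ) + 1)⁻¹ • v) x) - f x|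
      ≤ ((n : ℝ) + 1) * (L * (((n : ℝ) + 1)⁻¹ * ‖v‖)) := by gcongr
    _ = L * ‖v‖ := by field_simp

/-- The basic error estimate. -/
theorem shift_err (hf : LipS S L f) (hg : LipS S L g) : ∃ C : ℝ, 0 ≤ C ∧ ∀ a c : ℂ,
    |(∫ x, f (S.F a x) * g (S.F (a + c) x) ∂S.μ) - ∫ x, f x * g (S.F c x) ∂S.μ|
      ≤ C * (‖a‖ + ‖c‖) ^ 3 := by
  obtain ⟨C, hC0, hC⟩ := cocycle_bound S
  obtain ⟨B, hB0, hB⟩ := hf.bounded
  obtain ⟨B', hB'0, hB'⟩ := hg.bounded
  have hL := hf.nonneg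
  refine ⟨B * (2 * L) * C, by positivity, fun a c => ?_⟩
  have e1 : ∫ x, f x * g (S.F c x) ∂S.μ = ∫ x, f (S.F a x) * g (S.F c (S.F a x)) ∂S.μ := by
    have h1 := (S.measurePreserving_F a)
    have h2 : AEStronglyMeasurable (fun x => f x * g (S.F c x)) (Measure.map (S.F a) S.μ) := by
      rw [h1.map_eq]
      exact hf.aesm.mul (hg.aesm_comp c)
    have h3 := integral_map h1.measurable.aemeasurable h2
    rw [h1.map_eq] at h3
    exact h3
  have haf := hf.aesm_comp a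
  have hag := hg.aesm_comp (a + c)
  have hag2 : AEStronglyMeasurable (fun x => g (S.F c (S.F a x))) S.μ :=
    (hg.aesm_comp c).comp_measurePreserving (S.measurePreserving_F a)
  have hF2 : ∀ᵐ x ∂S.μ, S.F c (S.F a x) ∈ S.D :=
    (S.measurePreserving_F a).quasiMeasurePreserving.ae (ae_F_mem S c)
  have i1 : Integrable (fun x => f (S.F a x) * g (S.F (a + c) x)) S.μ := by
    refine Integrable.of_bound (haf.mul hag) (B * B') ?_
    filter_upwards [ae_F_mem S a, ae_F_mem S (a + c)] with x h1 h2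
    rw [norm_mul]
    exact mul_le_mul (hB _ h1) (hB' _ h2) (norm_nonneg _) hB0
  have i2 : Integrable (fun x => f (S.F a x) * g (S.F c (S.F a x))) S.μ := by
    refine Integrable.of_bound (haf.mul hag2) (B * B') ?_
    filter_upwards [ae_F_mem S a, hF2] with x h1 h2
    rw [norm_mul]
    exact mul_le_mul (hB _ h1) (hB' _ h2) (norm_nonneg _) hB0
  rw [e1, ← integral_sub i1 i2]
  set Bad : Set ℂ := {x | S.F c (S.F a x) ≠ S.F (c + a) x} with hBad
  have hBm : MeasurableSet Bad :=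
    (measurableSet_eq_fun ((S.measurable_F c).comp (S.measurable_F a))
      (S.measurable_F (c + a))).compl
  have e2 : ∫ x, (f (S.F a x) * g (S.F (a + c) x) - f (S.F a x) * g (S.F c (S.F a x))) ∂S.μ
      = ∫ x in Bad, (f (S.F a x) * g (S.F (a + c) x) - f (S.F a x) * g (S.F c (S.F a x))) ∂S.μ := by
    symm
    apply setIntegral_eq_integral_of_forall_compl_eq_zero
    intro x hx
    rw [hBad, mem_ofPred_eq, not_not] at hx
    rw [add_comm a c, ← hx, sub_self]
  rw [e2, ← Real.norm_eq_abs]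
  have hr : 0 ≤ ‖a‖ + ‖c‖ := by positivity
  have hbound : ∀ᵐ x ∂(S.μ.restrict Bad),
      ‖f (S.F a x) * g (S.F (a + c) x) - f (S.F a x) * g (S.F c (S.F a x))‖
        ≤ B * (2 * L) * (‖a‖ + ‖c‖) := by
    apply ae_restrict_of_ae
    have h3 : ∀ᵐ x ∂S.μ, ‖g (S.F c (S.F a x)) - g (S.F a x)‖ ≤ L * ‖c‖ :=
      (S.measurePreserving_F a).quasiMeasurePreserving.ae (hg.ae_le c)
    filter_upwards [ae_F_mem S a, hg.ae_le (a + c), hg.ae_le a, h3] with x h1 h2 h4 h5
    rw [← mul_sub, norm_mul]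
    have h6 : ‖g (S.F (a + c) x) - g (S.F c (S.F a x))‖ ≤ L * ‖a + c‖ + L * ‖a‖ + L * ‖c‖ := by
      have : g (S.F (a + c) x) - g (S.F c (S.F a x)) = (g (S.F (a + c) x) - g x)
          - (g (S.F a x) - g x) - (g (S.F c (S.F a x)) - g (S.F a x)) := by ring
      rw [this]
      refine (norm_sub_le _ _).trans (add_le_add ((norm_sub_le _ _).trans (add_le_add h2 h4)) h5)
    have h7 : L * ‖a + c‖ ≤ L * (‖a‖ + ‖c‖) := mul_le_mul_of_nonneg_left (norm_add_le _ _) hL
    calc ‖f (S.F a x)‖ * ‖g (S.F (a + c) x) - g (S.F c (S.F a x))‖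
        ≤ B * (2 * L * (‖a‖ + ‖c‖)) := by
          apply mul_le_mul (hB _ h1) _ (norm_nonneg _) hB0
          linarith
      _ = _ := by ring
  have hmeas : S.μ.real Bad ≤ C * (‖c‖ + ‖a‖) ^ 2 :=
    ENNReal.toReal_le_of_le_ofReal (by positivity) (hC c a)
  calc ‖∫ x in Bad, (f (S.F a x) * g (S.F (a + c) x) - f (S.F a x) * g (S.F c (S.F a x))) ∂S.μ‖
      ≤ B * (2 * L) * (‖a‖ + ‖c‖) * S.μ.real Bad :=
        norm_setIntegral_le_of_norm_le_const_ae' (measure_lt_top _ _) (by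
          rw [ae_restrict_iff' hBm] at hbound; exact hbound)
    _ ≤ B * (2 * L) * (‖a‖ + ‖c‖) * (C * (‖c‖ + ‖a‖) ^ 2) := by gcongr
    _ = _ := by ring

theorem integrable_mul (hf : LipS S L f) (hg : LipS S L g) (a c : ℂ) :
    Integrable (fun x => f (S.F a x) * g (S.F c x)) S.μ := by
  obtain ⟨B, hB0, hB⟩ := hf.bounded
  obtain ⟨B', hB'0, hB'⟩ := hg.bounded
  refine Integrable.of_bound ((hf.aesm_comp a).mul (hg.aesm_comp c)) (B * B') ?_
  filter_upwards [ae_F_mem S a, ae_F_mem S c] with x h1 h2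
  rw [norm_mul]
  exact mul_le_mul (hB _ h1) (hB' _ h2) (norm_nonneg _) hB0

theorem integrable_mul_left (hf : LipS S L f) (hg : LipS S L g) (c : ℂ) :
    Integrable (fun x => f x * g (S.F c x)) S.μ := by
  obtain ⟨B, hB0, hB⟩ := hf.bounded
  obtain ⟨B', hB'0, hB'⟩ := hg.bounded
  refine Integrable.of_bound (hf.aesm.mul (hg.aesm_comp c)) (B * B') ?_
  filter_upwards [ae_mem_D S, ae_F_mem S c] with x h1 h2
  rw [norm_mul]
  exact mul_le_mul (hB _ h1) (hB' _ h2) (norm_nonneg _) hB0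

theorem int_G_bound (hf : LipS S L f) (hg : LipS S L g) : ∃ C : ℝ, 0 ≤ C ∧ ∀ a c : ℂ,
    |∫ x, ((f (S.F a x) - f (S.F c x)) * (g (S.F (a + c) x) - g x) -
      (f (S.F (a + c) x) - f x) * (g (S.F a x) - g (S.F c x))) ∂S.μ|
      ≤ C * (‖a‖ + ‖c‖) ^ 3 := by
  obtain ⟨C, hC0, hC⟩ := shift_err hf hg
  obtain ⟨C', hC'0, hC'⟩ := shift_err hg hf
  refine ⟨2 * (C + C'), by positivity, fun a c => ?_⟩
  have e : ∫ x, ((f (S.F a x) - f (S.F c x)) * (g (S.F (a + c) x) - g x) -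
      (f (S.F (a + c) x) - f x) * (g (S.F a x) - g (S.F c x))) ∂S.μ
      = ((∫ x, f (S.F a x) * g (S.F (a + c) x) ∂S.μ) - ∫ x, f x * g (S.F c x) ∂S.μ)
        - ((∫ x, f (S.F c x) * g (S.F (a + c) x) ∂S.μ) - ∫ x, f x * g (S.F a x) ∂S.μ)
        - ((∫ x, g (S.F a x) * f (S.F (a + c) x) ∂S.μ) - ∫ x, g x * f (S.F c x) ∂S.μ)
        + ((∫ x, g (S.F c x) * f (S.F (a + c) x) ∂S.μ) - ∫ x, g x * f (S.F a x) ∂S.μ) := by
    have j1 := integrable_mul hf hg a (a + c)
    have j2 := integrable_mul_left hf hg c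
    have j3 := integrable_mul hf hg c (a + c)
    have j4 := integrable_mul_left hf hg a
    have j5 := integrable_mul hg hf a (a + c)
    have j6 := integrable_mul_left hg hf c
    have j7 := integrable_mul hg hf c (a + c)
    have j8 := integrable_mul_left hg hf a
    have k1 : Integrable (fun x => f (S.F a x) * g (S.F (a + c) x) - f x * g (S.F c x)) S.μ :=
      j1.sub j2
    have k2 : Integrable (fun x => f (S.F c x) * g (S.F (a + c) x) - f x * g (S.F a x)) S.μ :=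
      j3.sub j4
    have k3 : Integrable (fun x => g (S.F a x) * f (S.F (a + c) x) - g x * f (S.F c x)) S.μ :=
      j5.sub j6
    have k4 : Integrable (fun x => g (S.F c x) * f (S.F (a + c) x) - g x * f (S.F a x)) S.μ :=
      j7.sub j8
    rw [← integral_sub j1 j2, ← integral_sub j3 j4, ← integral_sub j5 j6, ← integral_sub j7 j8,
      ← integral_sub k1 k2]
    have k12 : Integrable (fun x => (f (S.F a x) * g (S.F (a + c) x) - f x * g (S.F c x))
      - (f (S.F c x) * g (S.F (a + c) x) - f x * g (S.F a x))) S.μ := k1.sub k2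
    rw [← integral_sub k12 k3]
    have k123 : Integrable (fun x => (f (S.F a x) * g (S.F (a + c) x) - f x * g (S.F c x))
      - (f (S.F c x) * g (S.F (a + c) x) - f x * g (S.F a x))
      - (g (S.F a x) * f (S.F (a + c) x) - g x * f (S.F c x))) S.μ := k12.sub k3
    rw [← integral_add k123 k4]
    congr 1
    funext x
    ring
  rw [e]
  have h1 := abs_le.1 (hC a c)
  have h2 := abs_le.1 (hC c a)
  have h3 := abs_le.1 (hC' a c)
  have h4 := abs_le.1 (hC' c a)
  rw [add_comm c a, add_comm ‖c‖ ‖a‖] at h2 h4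
  rw [abs_le]
  constructor <;> nlinarith [h1.1, h1.2, h2.1, h2.2, h3.1, h3.2, h4.1, h4.2]

/-- Exact forms are isotropic. -/
theorem isotropy (hf : LipS S L f) (hg : LipS S L g) :
    ∫ x, (fderiv ℝ f x 1 * fderiv ℝ g x Complex.I - fderiv ℝ f x Complex.I * fderiv ℝ g x 1) ∂S.μ
      = 0 := by
  obtain ⟨C, hC0, hC⟩ := int_G_bound hf hg
  have hL := hf.nonneg
  set a : ℂ := 1 with ha
  set c : ℂ := Complex.I with hc
  set b : ℂ := a + c with hb
  set U : (ℂ → ℝ) → ℂ → ℕ → ℂ → ℝ := fun p v n x =>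
    ((n : ℝ) + 1) * (p (S.F (((n : ℝ) + 1)⁻¹ • v) x) - p x) with hU
  set H : ℕ → ℂ → ℝ := fun n x => (U f a n x - U f c n x) * U g b n x
    - U f b n x * (U g a n x - U g c n x) with hH
  set G : ℂ → ℝ := fun x => (fderiv ℝ f x a - fderiv ℝ f x c) * fderiv ℝ g x b
    - fderiv ℝ f x b * (fderiv ℝ g x a - fderiv ℝ g x c) with hG
  have hlim : Tendsto (fun n => ∫ x, H n x ∂S.μ) atTop (𝓝 (∫ x, G x ∂S.μ)) := by
    have hUm : ∀ p, LipS S L p → ∀ v n, AEStronglyMeasurable (U p v n) S.μ := by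
      intro p hp v n
      exact ((hp.aesm_comp _).sub hp.aesm).const_mul _
    refine tendsto_integral_of_dominated_convergence
      (fun _ => (L * ‖a‖ + L * ‖c‖) * (L * ‖b‖) + (L * ‖b‖) * (L * ‖a‖ + L * ‖c‖)) ?_ ?_ ?_ ?_
    · intro n
      exact ((((hUm f hf a n).sub (hUm f hf c n)).mul (hUm g hg b n))).sub
        ((hUm f hf b n).mul ((hUm g hg a n).sub (hUm g hg c n)))
    · exact integrable_const _
    · intro n
      filter_upwards [hf.ae_quot_le a n, hf.ae_quot_le c n, hf.ae_quot_le b n,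
        hg.ae_quot_le a n, hg.ae_quot_le c n, hg.ae_quot_le b n] with x h1 h2 h3 h4 h5 h6
      have k1 : |U f a n x - U f c n x| ≤ L * ‖a‖ + L * ‖c‖ := (abs_sub _ _).trans (add_le_add h1 h2)
      have k2 : |U g a n x - U g c n x| ≤ L * ‖a‖ + L * ‖c‖ := (abs_sub _ _).trans (add_le_add h4 h5)
      rw [Real.norm_eq_abs]
      refine (abs_sub _ _).trans (add_le_add ?_ ?_)
      · rw [abs_mul]
        exact mul_le_mul k1 h6 (abs_nonneg _) (by positivity)
      · rw [abs_mul]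
        exact mul_le_mul h3 k2 (abs_nonneg _) (by positivity)
    · filter_upwards [hf.tendsto_quot a, hf.tendsto_quot c, hf.tendsto_quot b,
        hg.tendsto_quot a, hg.tendsto_quot c, hg.tendsto_quot b] with x h1 h2 h3 h4 h5 h6
      exact ((h1.sub h2).mul h6).sub (h3.mul (h4.sub h5))
  have hzero : Tendsto (fun n => ∫ x, H n x ∂S.μ) atTop (𝓝 0) := by
    rw [tendsto_zero_iff_norm_tendsto_zero]
    have hbd : ∀ n : ℕ, ‖∫ x, H n x ∂S.μ‖ ≤ C * 8 * ((n : ℝ) + 1)⁻¹ := by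
      intro n
      have hn : (0 : ℝ) < (n : ℝ) + 1 := by positivity
      have e1 : ∀ x, H n x = ((n : ℝ) + 1) ^ 2 *
          ((f (S.F (((n : ℝ) + 1)⁻¹ • a) x) - f (S.F (((n : ℝ) + 1)⁻¹ • c) x)) *
            (g (S.F (((n : ℝ) + 1)⁻¹ • a + ((n : ℝ) + 1)⁻¹ • c) x) - g x) -
          (f (S.F (((n : ℝ) + 1)⁻¹ • a + ((n : ℝ) + 1)⁻¹ • c) x) - f x) *
            (g (S.F (((n : ℝ) + 1)⁻¹ • a) x) - g (S.F (((n : ℝ) + 1)⁻¹ • c) x))) := by
        intro x
        simp only [hH, hU, hb, smul_add]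
        ring
      have e2 := hC (((n : ℝ) + 1)⁻¹ • a) (((n : ℝ) + 1)⁻¹ • c)
      rw [norm_smul, norm_smul, ha, hc, norm_one, Complex.norm_I, Real.norm_of_nonneg
        (inv_pos.2 hn).le] at e2
      rw [Real.norm_eq_abs]
      simp_rw [e1]
      rw [integral_const_mul, abs_mul, abs_of_pos (by positivity)]
      calc ((n : ℝ) + 1) ^ 2 * _ ≤ ((n : ℝ) + 1) ^ 2 *
            (C * (((n : ℝ) + 1)⁻¹ * 1 + ((n : ℝ) + 1)⁻¹ * 1) ^ 3) := by gcongr
        _ = C * 8 * ((n : ℝ) + 1)⁻¹ := by field_simp; ring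
    refine squeeze_zero (fun _ => norm_nonneg _) hbd ?_
    have h4 : Tendsto (fun n : ℕ => ((n : ℝ) + 1)⁻¹) atTop (𝓝 0) :=
      tendsto_inv_atTop_zero.comp
        (tendsto_atTop_add_const_right _ _ tendsto_natCast_atTop_atTop)
    have := h4.const_mul (C * 8)
    rwa [mul_zero] at this
  have h0 := tendsto_nhds_unique hlim hzero
  have e3 : ∀ x, G x = 2 * (fderiv ℝ f x a * fderiv ℝ g x c
      - fderiv ℝ f x c * fderiv ℝ g x a) := by
    intro x
    simp only [hG, hb, map_add]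
    ring
  simp_rw [e3] at h0
  rw [integral_const_mul] at h0
  linarith

end Real

end Pool.Agent.Helper35.E98
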