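import Pool.Agent.Helper35.E98.Energy
import Pool.Agent.Helper83.NS.Arc

/-!
The Hilbert space version: `LL S = L²(S.μ; ℂ)` as a real Hilbert space, the rotation `J` and the
reflection `S₀` (`refl S : Refl (LL S)`), the closed subspace `EX S` of exact forms, the classes
`wL S x` of cochains, and `hn2 (act (ofSurf S) A hA) x = gm (EX S) (code A) (wL x) (wL x)`.
-/

open MeasureTheory Set Filter Topology
open scoped ComplexConjugate InnerProductSpace ENNReal

namespace Pool.Agent.Helper35.E98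

open Pool.Agent.Helper87.LS Pool.Agent.Helper72.TF Pool.Agent.Helper83.NS

noncomputable section

/-- The real Hilbert space of square integrable forms. -/
abbrev LL (S : Surf) : Type := Lp ℂ 2 S.μ

/-- Multiplication by `I`. -/
def J0 : ℂ →L[ℝ] ℂ := (ContinuousLinearMap.mul ℝ ℂ) Complex.I

theorem J0_apply (z : ℂ) : J0 z = Complex.I * z := rfl

/-- Conjugation. -/
def S0 : ℂ →L[ℝ] ℂ := Complex.conjCLE

theorem S0_apply (z : ℂ) : S0 z = conj z := rfl

theorem inner_dot (z w : ℂ) : ⟪z, w⟫_ℝ = dot z w := by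
  rw [Complex.inner]
  simp only [dot, Complex.mul_re, Complex.conj_re, Complex.conj_im]
  ring

variable (S : Surf)

theorem inner_eq (f g : LL S) : ⟪f, g⟫_ℝ = ∫ z, dot (f z) (g z) ∂S.μ := by
  rw [L2.inner_def]
  simp_rw [inner_dot]

/-- The rotation and the reflection on `LL S`. -/
def refl : Refl (LL S) where
  J := J0.compLpL 2 S.μ
  S := S0.compLpL 2 S.μ
  Jskew f g := by
    rw [inner_eq, inner_eq, ← integral_neg]
    refine integral_congr_ae ?_
    filter_upwards [J0.coeFn_compLpL f, J0.coeFn_compLpL g] with z h1 h2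
    rw [h1, h2, J0_apply, J0_apply]
    simp only [dot, Complex.mul_re, Complex.mul_im, Complex.I_re, Complex.I_im]
    ring
  JJ f := by
    refine Lp.ext ?_
    filter_upwards [J0.coeFn_compLpL (J0.compLpL 2 S.μ f), J0.coeFn_compLpL f, Lp.coeFn_neg f]
      with z h1 h2 h3
    rw [h1, h2, h3, J0_apply, J0_apply, ← mul_assoc, Complex.I_mul_I]
    simp
  Ssymm f g := by
    rw [inner_eq, inner_eq]
    refine integral_congr_ae ?_
    filter_upwards [S0.coeFn_compLpL f, S0.coeFn_compLpL g] with z h1 h2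
    rw [h1, h2, S0_apply, S0_apply]
    simp only [dot, Complex.conj_re, Complex.conj_im]
    ring
  SS f := by
    refine Lp.ext ?_
    filter_upwards [S0.coeFn_compLpL (S0.compLpL 2 S.μ f), S0.coeFn_compLpL f] with z h1 h2
    rw [h1, h2, S0_apply, S0_apply, Complex.conj_conj]
  SJ f := by
    refine Lp.ext ?_
    filter_upwards [S0.coeFn_compLpL (J0.compLpL 2 S.μ f), J0.coeFn_compLpL f,
      Lp.coeFn_neg (J0.compLpL 2 S.μ (S0.compLpL 2 S.μ f)),
      J0.coeFn_compLpL (S0.compLpL 2 S.μ f), S0.coeFn_compLpL f] with z h1 h2 h3 h4 h5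
    rw [h1, h2, h3, Pi.neg_apply, h4, h5, S0_apply, J0_apply, J0_apply, S0_apply, map_mul,
      Complex.conj_I]
    ring

theorem refl_J (f : LL S) : (refl S).J f =ᵐ[S.μ] fun z => Complex.I * f z :=
  J0.coeFn_compLpL f

theorem refl_S (f : LL S) : (refl S).S f =ᵐ[S.μ] fun z => conj (f z) :=
  S0.coeFn_compLpL f

theorem act_ae (g : ℂ × ℂ) (f : LL S) :
    (refl S).act g f =ᵐ[S.μ] fun z => g.1 * f z + g.2 * conj (f z) := by
  rw [Refl.act_apply]
  filter_upwards [refl_J S f, refl_S S f, refl_J S ((refl S).S f),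
    Lp.coeFn_add (g.1.re • f + g.1.im • (refl S).J f + g.2.re • (refl S).S f)
      (g.2.im • (refl S).J ((refl S).S f)),
    Lp.coeFn_add (g.1.re • f + g.1.im • (refl S).J f) (g.2.re • (refl S).S f),
    Lp.coeFn_add (g.1.re • f) (g.1.im • (refl S).J f),
    Lp.coeFn_smul g.1.re f, Lp.coeFn_smul g.1.im ((refl S).J f),
    Lp.coeFn_smul g.2.re ((refl S).S f), Lp.coeFn_smul g.2.im ((refl S).J ((refl S).S f))]
    with z h1 h2 h3 h4 h5 h6 h7 h8 h9 h10
  rw [h4, Pi.add_apply, h5, Pi.add_apply, h6, Pi.add_apply, h7, h8, h9, h10]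
  simp only [Pi.smul_apply, Complex.real_smul]
  rw [h3, h1, h2]
  apply Complex.ext
  · simp only [Complex.add_re, Complex.mul_re, Complex.mul_im, Complex.ofReal_re,
      Complex.ofReal_im, Complex.I_re, Complex.I_im, Complex.conj_re, Complex.conj_im]
    ring
  · simp only [Complex.add_im, Complex.mul_re, Complex.mul_im, Complex.ofReal_re,
      Complex.ofReal_im, Complex.I_re, Complex.I_im, Complex.conj_re, Complex.conj_im]
    ring

/-! ### Bounded forms -/

variable {S}

theorem memLp_of_bound {f : ℂ → ℂ} (hf : AEStronglyMeasurable f S.μ) {B : ℝ}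
    (h : ∀ᵐ z ∂S.μ, ‖f z‖ ≤ B) : MemLp f 2 S.μ :=
  MemLp.of_bound hf B h

theorem memLp_wform (x : Fin S.n × Fin 3 → ℝ) : MemLp (wform S x) 2 S.μ :=
  memLp_of_bound (measurable_wform x).aestronglyMeasurable
    (Eventually.of_forall fun z => wform_bound x z)

theorem memLp_grad {L : ℝ} {F : ℂ → ℝ} (hF : LipS S L F) : MemLp (grad F) 2 S.μ := by
  refine memLp_of_bound (measurable_grad F).aestronglyMeasurable (B := 2 * L) ?_
  filter_upwards [ae_mem_D S] with z hz using hF.grad_le hz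

variable (S)

/-- The class of a cochain. -/
def wL : (Fin S.n × Fin 3 → ℝ) →ₗ[ℝ] LL S where
  toFun x := (memLp_wform x).toLp
  map_add' x y := by
    rw [← MemLp.toLp_add]
    refine (MemLp.toLp_eq_toLp_iff _ _).2 ?_
    exact Eventually.of_forall fun z => wform_add x y z
  map_smul' c x := by
    rw [RingHom.id_apply, ← MemLp.toLp_const_smul]
    refine (MemLp.toLp_eq_toLp_iff _ _).2 ?_
    refine Eventually.of_forall fun z => ?_
    rw [wform_smul, Pi.smul_apply, Complex.real_smul]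

theorem wL_ae (x : Fin S.n × Fin 3 → ℝ) : wL S x =ᵐ[S.μ] wform S x :=
  (memLp_wform x).coeFn_toLp

variable {S}

theorem LipS.add {L L' : ℝ} {F G : ℂ → ℝ} (hF : LipS S L F) (hG : LipS S L' G) :
    LipS S (L + L') (fun z => F z + G z) := by
  intro v x y h
  have h1 := hF v x y h
  have h2 := hG v x y h
  have e : F y + G y - (F x + G x) = (F y - F x) + (G y - G x) := by ring
  rw [e]
  refine (norm_add_le _ _).trans ?_
  linarith

theorem LipS.smul {L : ℝ} {F : ℂ → ℝ} (hF : LipS S L F) (c : ℝ) :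
    LipS S (|c| * L) (fun z => c * F z) := by
  intro v x y h
  have h1 := hF v x y h
  have e : c * F y - c * F x = c * (F y - F x) := by ring
  rw [e, norm_mul, Real.norm_eq_abs, mul_assoc]
  exact mul_le_mul_of_nonneg_left h1 (abs_nonneg _)

theorem grad_add_ae {L L' : ℝ} {F G : ℂ → ℝ} (hF : LipS S L F) (hG : LipS S L' G) :
    grad (fun z => F z + G z) =ᵐ[S.μ] fun z => grad F z + grad G z := by
  filter_upwards [hF.ae_differentiableAt, hG.ae_differentiableAt] with z h1 h2
  unfold grad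
  rw [fderiv_fun_add h1 h2]
  apply Complex.ext <;> simp

theorem grad_smul_ae {L : ℝ} {F : ℂ → ℝ} (hF : LipS S L F) (c : ℝ) :
    grad (fun z => c * F z) =ᵐ[S.μ] fun z => (c : ℂ) * grad F z := by
  filter_upwards [hF.ae_differentiableAt] with z h1
  unfold grad
  rw [fderiv_const_mul h1]
  apply Complex.ext <;> simp

variable (S)

/-- The exact forms. -/
def EX0 : Submodule ℝ (LL S) where
  carrier := {f | ∃ (F : ℂ → ℝ) (L : ℝ), LipS S L F ∧ f =ᵐ[S.μ] grad F}
  add_mem' := by
    rintro f g ⟨F, L, hF, hf⟩ ⟨G, L', hG, hg⟩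
    refine ⟨_, _, hF.add hG, ?_⟩
    filter_upwards [Lp.coeFn_add f g, hf, hg, grad_add_ae hF hG] with z h1 h2 h3 h4
    rw [h1, Pi.add_apply, h2, h3, h4]
  zero_mem' := by
    refine ⟨_, _, lipS_zero S, ?_⟩
    filter_upwards [Lp.coeFn_zero (E := ℂ) (p := 2) (μ := S.μ)] with z h1
    rw [h1]
    apply Complex.ext <;> simp [grad]
  smul_mem' := by
    rintro c f ⟨F, L, hF, hf⟩
    refine ⟨_, _, hF.smul c, ?_⟩
    filter_upwards [Lp.coeFn_smul c f, hf, grad_smul_ae hF c] with z h1 h2 h3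
    rw [h1, Pi.smul_apply, h2, h3, Complex.real_smul]

/-- The closure of the exact forms. -/
def EX : Submodule ℝ (LL S) := (EX0 S).topologicalClosure

theorem EX_closed : IsClosed ((EX S : Submodule ℝ (LL S)) : Set (LL S)) :=
  (EX0 S).isClosed_topologicalClosure

theorem EX0_le : EX0 S ≤ EX S := (EX0 S).le_topologicalClosure

variable {S}

theorem toLp_grad_mem {L : ℝ} {F : ℂ → ℝ} (hF : LipS S L F) :
    ((memLp_grad hF).toLp : LL S) ∈ EX0 S := ⟨F, L, hF, (memLp_grad hF).coeFn_toLp⟩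

/-- A closed condition on `EX0` extends to `EX`. -/
theorem EX_induction {p : LL S → Prop} (hcl : IsClosed {f | p f}) (h : ∀ f ∈ EX0 S, p f) :
    ∀ f ∈ EX S, p f := by
  intro f hf
  exact closure_minimal (fun g hg => h g hg) hcl hf

variable (S)

theorem inner_J_ae (f g : LL S) : ⟪(refl S).J f, g⟫_ℝ = ∫ z, cr (f z) (g z) ∂S.μ := by
  rw [inner_eq]
  refine integral_congr_ae ?_
  filter_upwards [refl_J S f] with z h1
  rw [h1]
  simp only [dot, cr, Complex.mul_re, Complex.mul_im, Complex.I_re, Complex.I_im]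
  ring

/-- Exact forms are isotropic. -/
theorem EX_iso : Iso (refl S) (EX S) := by
  have h0 : ∀ f ∈ EX0 S, ∀ g ∈ EX0 S, ⟪(refl S).J f, g⟫_ℝ = 0 := by
    rintro f ⟨F, L, hF, hf⟩ g ⟨G, L', hG, hg⟩
    rw [inner_J_ae]
    have hL := hF.nonneg
    have hL' := hG.nonneg
    have hF' : LipS S (L + L') F := fun v x y h => (hF v x y h).trans
      (mul_le_mul_of_nonneg_right (by linarith) (norm_nonneg _))
    have hG' : LipS S (L + L') G := fun v x y h => (hG v x y h).trans
      (mul_le_mul_of_nonneg_right (by linarith) (norm_nonneg _))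
    have h1 := isotropy hF' hG'
    refine Eq.trans (integral_congr_ae ?_) h1
    filter_upwards [hf, hg] with z h2 h3
    rw [h2, h3]
    simp only [cr, grad]
  intro f hf
  refine EX_induction (p := fun g => ⟪(refl S).J f, g⟫_ℝ = 0) ?_ ?_
  · exact isClosed_eq (continuous_const.inner continuous_id) continuous_const
  · intro g hg
    refine EX_induction (p := fun f => ⟪(refl S).J f, g⟫_ℝ = 0) ?_ (fun f hf => h0 f hf g hg) f hf
    exact isClosed_eq (((refl S).J.continuous).inner continuous_const) continuous_const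

/-- Cocycles are closed. -/
theorem wL_cl {x : Fin S.n × Fin 3 → ℝ} (hx : x ∈ Coch (ofSurf S)) : Cl (refl S) (EX S) (wL S x) := by
  refine EX_induction (p := fun g => ⟪(refl S).J (wL S x), g⟫_ℝ = 0) ?_ ?_
  · exact isClosed_eq (continuous_const.inner continuous_id) continuous_const
  · rintro g ⟨G, L, hG, hg⟩
    rw [inner_J_ae]
    refine Eq.trans (integral_congr_ae ?_) (wform_exact hx hG)
    filter_upwards [wL_ae S x, hg] with z h1 h2
    rw [h1, h2]

/-! ### Codes of matrices -/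

/-- The real linear map `B` is `z ↦ a z + b conj z`, `(a, b) = code B`. -/
def code (B : ℂ →ₗ[ℝ] ℂ) : ℂ × ℂ :=
  ((B 1 - Complex.I * B Complex.I) / 2, (B 1 + Complex.I * B Complex.I) / 2)

theorem code_spec (B : ℂ →ₗ[ℝ] ℂ) (z : ℂ) : (code B).1 * z + (code B).2 * conj z = B z := by
  have h1 : z = z.re • (1 : ℂ) + z.im • Complex.I := by
    apply Complex.ext <;> simp
  have h2 : B z = (z.re : ℂ) * B 1 + (z.im : ℂ) * B Complex.I := by
    conv_lhs => rw [h1]
    rw [map_add, map_smul, map_smul, Complex.real_smul, Complex.real_smul]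
  have h3 : conj z = (z.re : ℂ) - (z.im : ℂ) * Complex.I := by
    apply Complex.ext <;> simp
  have h4 : z = (z.re : ℂ) + (z.im : ℂ) * Complex.I := by
    apply Complex.ext <;> simp
  rw [h2, h3]
  unfold code
  simp only
  conv_lhs => enter [1, 2]; rw [h4]
  linear_combination (-(z.im : ℂ) * B Complex.I) * Complex.I_sq

theorem code_mem {B : ℂ →ₗ[ℝ] ℂ} (hB : LinearMap.det B = 1) : code B ∈ SL := by
  rw [det_eq_cr97] at hB
  simp only [SL, mem_ofPred_eq]
  rw [← hB]
  simp only [code, cr, Complex.normSq_apply, Complex.div_ofNat_re, Complex.div_ofNat_im,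
    Complex.sub_re, Complex.sub_im, Complex.add_re, Complex.add_im, Complex.mul_re, Complex.mul_im,
    Complex.I_re, Complex.I_im]
  ring

theorem code_inj {B : ℂ →ₗ[ℝ] ℂ} {g : ℂ × ℂ} (h : ∀ z, g.1 * z + g.2 * conj z = B z) :
    g = code B := by
  have h1 := h 1
  have h2 := h Complex.I
  rw [map_one, mul_one, mul_one] at h1
  rw [Complex.conj_I] at h2
  unfold code
  rw [← h1, ← h2]
  ext1
  · simp only
    linear_combination (1 / 2 : ℂ) * (g.1 - g.2) * Complex.I_sq
  · simp only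
    linear_combination (1 / 2 : ℂ) * (g.2 - g.1) * Complex.I_sq

theorem det_cov (A : ℂ ≃ₗ[ℝ] ℂ) (hA : LinearMap.det (A : ℂ →ₗ[ℝ] ℂ) = 1) :
    LinearMap.det (cov A) = 1 := by
  rw [det_eq_cr97]
  have h1 : LinearMap.det (A.symm : ℂ →ₗ[ℝ] ℂ) = 1 := by
    have h2 := LinearEquiv.det_symm_mul_det (f := A)
    rw [hA, mul_one] at h2
    exact h2
  rw [det_eq_cr97] at h1
  simp only [cov, LinearMap.coe_mk, AddHom.coe_mk, cr, dot, Complex.one_re, Complex.one_im,
    Complex.I_re, Complex.I_im, LinearEquiv.coe_coe] at h1 ⊢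
  linarith

/-! ### The Hodge norm -/

theorem norm_sq_eq (f : LL S) : ‖f‖ ^ 2 = ∫ z, ‖f z‖ ^ 2 ∂S.μ := by
  rw [← real_inner_self_eq_norm_sq, inner_eq]
  refine integral_congr_ae (Eventually.of_forall fun z => ?_)
  simp only [dot]
  rw [← Complex.normSq_eq_norm_sq, Complex.normSq_apply]

theorem energy_eq (A : ℂ ≃ₗ[ℝ] ℂ) (x : Fin S.n × Fin 3 → ℝ) {L : ℝ} {F : ℂ → ℝ}
    (hF : LipS S L F) {e : LL S} (he : e =ᵐ[S.μ] grad F) :
    energy S A x F = ‖(refl S).act (code (cov A)) (wL S x + e)‖ ^ 2 := by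
  rw [norm_sq_eq]
  unfold energy
  refine integral_congr_ae ?_
  filter_upwards [act_ae S (code (cov A)) (wL S x + e), Lp.coeFn_add (wL S x) e, wL_ae S x, he]
    with z h1 h2 h3 h4
  rw [h1, h2, Pi.add_apply, h3, h4, code_spec]

/-- The Hodge norm is the norm of the quotient by the exact forms. -/
theorem hn2_eq_gm (A : ℂ ≃ₗ[ℝ] ℂ) (hA : LinearMap.det (A : ℂ →ₗ[ℝ] ℂ) = 1)
    {x : Fin S.n × Fin 3 → ℝ} (hx : x ∈ Coch (ofSurf S)) :
    hn2 (act (ofSurf S) A hA) x = (refl S).gm (EX S) (code (cov A)) (wL S x) (wL S x) := by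
  set g := code (cov A) with hg
  have hgm : g ∈ SL := code_mem (det_cov A hA)
  rw [hn2_act A hA hx]
  haveI : Nonempty {F : ℂ → ℝ // ∃ L, LipS S L F} := ⟨⟨_, _, lipS_zero S⟩⟩
  apply le_antisymm
  · obtain ⟨e, he, hgme⟩ := (refl S).exists_gm (EX_closed S) hgm (wL S x)
    rw [hgme]
    refine EX_induction (p := fun e => (⨅ F : {F : ℂ → ℝ // ∃ L, LipS S L F}, energy S A x F.1)
      ≤ ‖(refl S).act g (wL S x + e)‖ ^ 2) ?_ ?_ e he
    · refine isClosed_le continuous_const ?_
      exact (((refl S).act g).continuous.comp (continuous_const.add continuous_id)).norm.pow 2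
    · rintro e ⟨F, L, hF, heF⟩
      rw [← energy_eq S A x hF heF]
      exact ciInf_le (f := fun F : {F : ℂ → ℝ // ∃ L, LipS S L F} => energy S A x F.1)
        ⟨0, by rintro _ ⟨G, rfl⟩; exact energy_nonneg A x G.1⟩ ⟨F, L, hF⟩
  · refine le_ciInf fun ⟨F, L, hF⟩ => ?_
    change _ ≤ energy S A x F
    rw [energy_eq S A x hF (memLp_grad hF).coeFn_toLp]
    exact (refl S).gm_le g (wL S x) (EX0_le S (toLp_grad_mem hF))

end

end Pool.Agent.Helper35.E98
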