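import Pool.Agent.Helper35.E98.Sys

/-!
`mod_L` of `Helper72/TF/Skel.lean` from `tail`, `ld`, `gap` and `periods_le` (each in the form of
`Skel.lean`, for the fixed surface `S`).
-/

set_option autoImplicit false

open MeasureTheory Set Pool.Agent.Helper87.LS Pool.Agent.Helper79.G Pool.Agent.Helper72.TF

namespace Pool.Agent.Helper35.E98

theorem mod_L_of_modules (S : Surf)
    (htail : ∃ C β : ℝ, 0 < C ∧ 0 < β ∧ ∀ a b : ℝ, a < b →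
      ∃ s₀ : ℝ, ∀ s K : ℝ, s₀ ≤ s → 1 ≤ K →
        volume ({u | ¬ TameAt S K s u} ∩ Icc a b) ≤
          ENNReal.ofReal (C * K ^ (-β) * (b - a)))
    (hld : ∃ K ε₁ C c : ℝ, 1 ≤ K ∧ 0 < ε₁ ∧ 0 < C ∧ 0 < c ∧
      ∀ a b : ℝ, a < b → ∃ s₀ : ℝ, ∀ s : ℝ, s₀ ≤ s → ∀ N : ℕ,
        volume ({u | ({j : ℕ | j < N ∧ TameAt S K (s + j) u}.ncard : ℝ) < ε₁ * N} ∩ Icc a b) ≤
          ENNReal.ofReal (C * Real.exp (-(c * N)) * (b - a)))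
    (hgap : ∀ (n : ℕ) (K : ℝ), ∃ lam : ℝ, 0 ≤ lam ∧ lam < 1 ∧ ∀ Y : Surf, Y.n = n → Connected Y →
      (∀ e, ‖Y.vec e‖ ≤ K) → (∀ i, 1 / K ≤ Y.area2 i) →
        ∀ x ∈ Coch (ofSurf Y), qT (ofSurf Y) x = 0 → ∀ t : ℝ, 0 ≤ t → t ≤ 1 →
          hn2 (lev (ofSurf Y) t 0) x ≤
            (Real.cosh (2 * t) + lam * Real.sinh (2 * t)) * hn2 (ofSurf Y) x)
    (hper : ∀ n : ℕ, ∃ C : ℝ, 0 < C ∧ ∀ K : ℝ, 1 ≤ K → ∀ Y : Surf, Y.n = n →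
      (∀ e, ‖Y.vec e‖ ≤ K) → (∀ i, 1 / K ≤ Y.area2 i) →
        ∀ x ∈ Coch (ofSurf Y), ∃ b ∈ Vert (ofSurf Y), ∀ h,
          |x h - dv (ofSurf Y) b h| ≤ C * K ^ C * Real.sqrt (hn2 (ofSurf Y) x))
    (b₁ b₂ U : ℝ) (hb : 0 < b₁) :
    ∃ C c : ℝ, 0 < C ∧ 0 < c ∧ ∀ δ : ℝ, 0 < δ → δ < 1 → ∀ a b : ℝ, -U ≤ a → a < b → b ≤ U →
      ∀ ξ ∈ Icc b₁ b₂, ∃ s₀ : ℝ, ∀ s : ℝ, s₀ ≤ s →
        volume {u ∈ Icc a b | Close S s u (ξ / (2 * Real.pi) * Real.sqrt (1 + u ^ 2)) δ} ≤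
          ENNReal.ofReal (C * δ ^ c * (b - a)) := by
  have hM := model_sysOf (pos_of_periods S (hper S.n))
  obtain ⟨K, ε₁, C₁, c₁, -, hε₁, hC₁, hc₁, hld⟩ := hld
  obtain ⟨lam, hlam0, hlam1, hgap⟩ := hgap S.n K
  obtain ⟨C₂, β, hC₂, hβ, htail⟩ := htail
  obtain ⟨Cp, hCp, hper⟩ := hper S.n
  exact Pool.Agent.Helper45.ModL.mod_L_of hM (NS_sysOf S)
    (Pool.Agent.Helper45.ModL.gr hM hlam0 hlam1 hε₁ hC₁ hc₁ hgap hld)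
    (Pool.Agent.Helper45.ModL.sys hM hC₂ hβ hCp hper htail) b₁ b₂ U hb

end Pool.Agent.Helper35.E98
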