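import Pool.Agent.Helper35.E98.Closed

/-!
The piecewise constant form `wform S x` of a cocycle `x`; it is closed: its increments satisfy
`Incr`, hence `∫ cr (wform x) (grad g) = 0` for all Lipschitz functions `g`.
-/

open MeasureTheory Set Filter Topology

namespace Pool.Agent.Helper35.E98

open Pool.Agent.Helper87.LS Pool.Agent.Helper72.TF

section Alg

variable {H : Type} (T : Pool.Agent.Helper79.G.Tri H)

theorem dot_add_right (a z w : ℂ) : dot a (z + w) = dot a z + dot a w := by
  simp only [dot, Complex.add_re, Complex.add_im]; ring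

theorem dot_sub_left (a b z : ℂ) : dot (a - b) z = dot a z - dot b z := by
  simp only [dot, Complex.sub_re, Complex.sub_im]; ring

theorem dot_sub_right (a z w : ℂ) : dot a (z - w) = dot a z - dot a w := by
  simp only [dot, Complex.sub_re, Complex.sub_im]; ring

theorem dot_neg_right (a z : ℂ) : dot a (-z) = -dot a z := by
  simp only [dot, Complex.neg_re, Complex.neg_im]; ring

theorem abs_dot_le (a z : ℂ) : |dot a z| ≤ ‖a‖ * ‖z‖ := by
  have h : dot a z = ((starRingEnd ℂ) a * z).re := by
    simp only [dot, Complex.mul_re, Complex.conj_re, Complex.conj_im]; ring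
  rw [h]
  calc |((starRingEnd ℂ) a * z).re| ≤ ‖(starRingEnd ℂ) a * z‖ := Complex.abs_re_le_norm _
    _ = ‖a‖ * ‖z‖ := by rw [norm_mul, Complex.norm_conj]

theorem continuous_dot (a : ℂ) : Continuous (dot a) := by
  unfold dot; fun_prop

theorem ar_ne_zero (h : H) : ar T h ≠ 0 := (T.pos h).ne'

theorem omega_re (x : H → ℝ) (h : H) : (omega T x h).re =
    (x h * (T.vec (T.next h)).im - x (T.next h) * (T.vec h).im) / ar T h := by
  unfold omega
  rw [Complex.div_ofReal_re]
  simp only [Complex.sub_re, Complex.mul_re, Complex.ofReal_re, Complex.ofReal_im, Complex.I_re,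
    Complex.I_im, zero_mul, one_mul, zero_sub, sub_zero]
  ring

theorem omega_im (x : H → ℝ) (h : H) : (omega T x h).im =
    (x (T.next h) * (T.vec h).re - x h * (T.vec (T.next h)).re) / ar T h := by
  unfold omega
  rw [Complex.div_ofReal_im]
  simp only [Complex.sub_im, Complex.mul_im, Complex.ofReal_re, Complex.ofReal_im, Complex.I_re,
    Complex.I_im, zero_mul, one_mul, add_zero, zero_add]

theorem dot_omega_vec (x : H → ℝ) (h : H) : dot (omega T x h) (T.vec h) = x h := by
  have h1 := ar_ne_zero T h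
  rw [dot, omega_re, omega_im]
  field_simp
  simp only [ar, cr]
  ring

theorem dot_omega_next (x : H → ℝ) (h : H) :
    dot (omega T x h) (T.vec (T.next h)) = x (T.next h) := by
  have h1 := ar_ne_zero T h
  rw [dot, omega_re, omega_im]
  field_simp
  simp only [ar, cr]
  ring

/-- A covector is determined by its values on two independent vectors. -/
theorem dot_ext {a b u v : ℂ} (huv : cr u v ≠ 0) (h1 : dot a u = dot b u)
    (h2 : dot a v = dot b v) : a = b := by
  have e1 : (a.re - b.re) * cr u v = 0 := by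
    simp only [dot] at h1 h2
    simp only [cr]
    linear_combination v.im * h1 - u.im * h2
  have e2 : (a.im - b.im) * cr u v = 0 := by
    simp only [dot] at h1 h2
    simp only [cr]
    linear_combination u.re * h2 - v.re * h1
  have e3 := (mul_eq_zero.1 e1).resolve_right huv
  have e4 := (mul_eq_zero.1 e2).resolve_right huv
  exact Complex.ext (by linarith) (by linarith)

theorem omega_eq_of {x : H → ℝ} {h : H} {w : ℂ} (h1 : dot w (T.vec h) = x h)
    (h2 : dot w (T.vec (T.next h)) = x (T.next h)) : omega T x h = w :=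
  dot_ext (T.pos h).ne' (by rw [dot_omega_vec, h1]) (by rw [dot_omega_next, h2])

theorem omega_next {x : H → ℝ} (hx : x ∈ Coch T) (h : H) :
    omega T x (T.next h) = omega T x h := by
  refine omega_eq_of T (dot_omega_next T x h) ?_
  have h1 := hx.2 h
  have h2 := T.closed h
  have h3 : T.vec (T.next (T.next h)) = -(T.vec h) - T.vec (T.next h) := by
    linear_combination h2
  rw [h3, dot_sub_right, dot_neg_right, dot_omega_vec, dot_omega_next]
  linarith

/-- A covector which vanishes on `v` is a multiple of `cr v`. -/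
theorem dot_eq_cr {a v : ℂ} (hv : v ≠ 0) (h : dot a v = 0) (w : ℂ) :
    dot a w = dot a (Complex.I * v) / ‖v‖ ^ 2 * cr v w := by
  have hn : ‖v‖ ^ 2 = v.re ^ 2 + v.im ^ 2 := by
    rw [← Complex.normSq_eq_norm_sq, Complex.normSq_apply]; ring
  have hn0 : ‖v‖ ^ 2 ≠ 0 := by positivity
  rw [div_mul_eq_mul_div, eq_div_iff hn0, hn]
  simp only [dot, cr, Complex.mul_re, Complex.mul_im, Complex.I_re, Complex.I_im] at h ⊢
  linear_combination (v.re * w.re + v.im * w.im) * h

end Alg

variable (S : Surf)

/-- The piecewise constant form of a cochain. -/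
noncomputable def wform (x : Fin S.n × Fin 3 → ℝ) (z : ℂ) : ℂ :=
  ∑ i, indicator (tri (S.P i)) (fun _ => omega (ofSurf S) x (i, 0)) z

variable {S}

theorem sum_indicator_tri {E : Type*} [AddCommMonoid E] (f : Fin S.n → ℂ → E) {i : Fin S.n} {z : ℂ}
    (hz : z ∈ tri (S.P i)) : ∑ j, indicator (tri (S.P j)) (f j) z = f i z := by
  rw [Finset.sum_eq_single i]
  · rw [indicator_of_mem hz]
  · intro j _ hj
    rw [indicator_of_notMem]
    intro hz'
    exact hj (Surf.tri_unique hz' hz)
  · intro h; exact absurd (Finset.mem_univ i) h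

theorem wform_of_mem {x : Fin S.n × Fin 3 → ℝ} {i : Fin S.n} {z : ℂ} (hz : z ∈ tri (S.P i)) :
    wform S x z = omega (ofSurf S) x (i, 0) :=
  sum_indicator_tri (fun i _ => omega (ofSurf S) x (i, 0)) hz

theorem wform_off {x : Fin S.n × Fin 3 → ℝ} {z : ℂ} (hz : z ∉ S.D) : wform S x z = 0 := by
  unfold wform
  refine Finset.sum_eq_zero fun i _ => ?_
  rw [indicator_of_notMem]
  intro h
  exact hz (mem_iUnion.2 ⟨i, h⟩)

theorem measurable_wform (x : Fin S.n × Fin 3 → ℝ) : Measurable (wform S x) := by
  unfold wform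
  exact Finset.measurable_fun_sum _ fun i _ =>
    measurable_const.indicator (S.isOpen_tri i).measurableSet

theorem wform_add (x y : Fin S.n × Fin 3 → ℝ) (z : ℂ) :
    wform S (x + y) z = wform S x z + wform S y z := by
  by_cases hz : z ∈ S.D
  · obtain ⟨i, hi⟩ := mem_iUnion.1 hz
    rw [wform_of_mem hi, wform_of_mem hi, wform_of_mem hi]
    simp only [omega, Pi.add_apply]
    push_cast
    ring
  · rw [wform_off hz, wform_off hz, wform_off hz, add_zero]

theorem wform_smul (c : ℝ) (x : Fin S.n × Fin 3 → ℝ) (z : ℂ) :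
    wform S (c • x) z = (c : ℂ) * wform S x z := by
  by_cases hz : z ∈ S.D
  · obtain ⟨i, hi⟩ := mem_iUnion.1 hz
    rw [wform_of_mem hi, wform_of_mem hi]
    simp only [omega, Pi.smul_apply, smul_eq_mul]
    push_cast
    ring
  · rw [wform_off hz, wform_off hz, mul_zero]

theorem wform_bound (x : Fin S.n × Fin 3 → ℝ) (z : ℂ) :
    ‖wform S x z‖ ≤ ∑ i, ‖omega (ofSurf S) x (i, 0)‖ := by
  unfold wform
  refine (norm_sum_le _ _).trans (Finset.sum_le_sum fun i _ => ?_)
  exact norm_indicator_le_norm_self _ _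

theorem omega_rot {x : Fin S.n × Fin 3 → ℝ} (hx : x ∈ Coch (ofSurf S)) (i : Fin S.n) (k : Fin 3) :
    omega (ofSurf S) x (i, k) = omega (ofSurf S) x (i, 0) := by
  have h0 : omega (ofSurf S) x (i, 1) = omega (ofSurf S) x (i, 0) := by
    have := omega_next (ofSurf S) hx (i, 0)
    exact this
  have h1 : omega (ofSurf S) x (i, 2) = omega (ofSurf S) x (i, 1) := by
    have := omega_next (ofSurf S) hx (i, 1)
    exact this
  fin_cases k
  · rfl
  · exact h0
  · exact h1.trans h0

/-- On the triangle `i` the form has the increments `x (i, k)` along the edges. -/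
theorem dot_omega_edge {x : Fin S.n × Fin 3 → ℝ} (hx : x ∈ Coch (ofSurf S)) (i : Fin S.n)
    (k : Fin 3) : dot (omega (ofSurf S) x (i, 0)) (S.vec (i, k)) = x (i, k) := by
  rw [← omega_rot hx i k]
  exact dot_omega_vec (ofSurf S) x (i, k)

variable (S)

/-- The coefficient of the jump of the form across an edge. -/
noncomputable def kap (x : Fin S.n × Fin 3 → ℝ) (e : Fin S.n × Fin 3) : ℝ :=
  dot (omega (ofSurf S) x ((S.glue e).1, 0) - omega (ofSurf S) x (e.1, 0))
    (Complex.I * S.vec e) / ‖S.vec e‖ ^ 2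

/-- The increments of the piecewise constant form. -/
noncomputable def incr (x : Fin S.n × Fin 3 → ℝ) (v p : ℂ) : ℝ :=
  ∑ i, indicator (tri (S.P i)) (fun p => dot (omega (ofSurf S) x (i, 0)) v
    + ∑ k, kap S x (i, k) * min 0 (S.ell (i, k) (p + v))) p

variable {S}

theorem kap_spec {x : Fin S.n × Fin 3 → ℝ} (hx : x ∈ Coch (ofSurf S)) (e : Fin S.n × Fin 3)
    (w : ℂ) : dot (omega (ofSurf S) x ((S.glue e).1, 0)) w
      = dot (omega (ofSurf S) x (e.1, 0)) w + kap S x e * cr (S.vec e) w := by
  have h1 : dot (omega (ofSurf S) x ((S.glue e).1, 0) - omega (ofSurf S) x (e.1, 0)) (S.vec e)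
      = 0 := by
    have k1 : dot (omega (ofSurf S) x ((S.glue e).1, 0)) (S.vec e) = x e := by
      have k2 := dot_omega_edge hx (S.glue e).1 (S.glue e).2
      rw [Prod.mk.eta, S.vec_glue, dot_neg_right] at k2
      have k3 : x (S.glue e) = -x e := hx.1 e
      rw [k3] at k2
      linarith
    have k4 : dot (omega (ofSurf S) x (e.1, 0)) (S.vec e) = x e := by
      have := dot_omega_edge hx e.1 e.2
      rwa [Prod.mk.eta] at this
    rw [dot_sub_left, k1, k4, sub_self]
  have h2 := dot_eq_cr (S.vec_ne_zero e) h1 w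
  rw [dot_sub_left] at h2
  unfold kap
  linarith

theorem kap_glue {x : Fin S.n × Fin 3 → ℝ} (hx : x ∈ Coch (ofSurf S)) (e : Fin S.n × Fin 3) :
    kap S x (S.glue e) = kap S x e := by
  have h1 := kap_spec hx e (Complex.I * S.vec e)
  have h2 := kap_spec hx (S.glue e) (Complex.I * S.vec e)
  rw [S.invol, S.vec_glue] at h2
  have h3 : cr (-S.vec e) (Complex.I * S.vec e) = -cr (S.vec e) (Complex.I * S.vec e) := by
    simp only [cr, Complex.neg_re, Complex.neg_im]; ring
  have h4 : cr (S.vec e) (Complex.I * S.vec e) = ‖S.vec e‖ ^ 2 := by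
    rw [← Complex.normSq_eq_norm_sq, Complex.normSq_apply]
    simp only [cr, Complex.mul_re, Complex.mul_im, Complex.I_re, Complex.I_im]; ring
  have h5 : ‖S.vec e‖ ^ 2 ≠ 0 := by
    have := norm_ne_zero_iff.2 (S.vec_ne_zero e)
    positivity
  rw [h3, h4] at h2
  rw [h4] at h1
  have h6 : (kap S x (S.glue e) - kap S x e) * ‖S.vec e‖ ^ 2 = 0 := by linarith
  have h7 := (mul_eq_zero.1 h6).resolve_right h5
  linarith

theorem incr_of_mem {x : Fin S.n × Fin 3 → ℝ} {v p : ℂ} {i : Fin S.n} (hp : p ∈ tri (S.P i)) :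
    incr S x v p = dot (omega (ofSurf S) x (i, 0)) v
      + ∑ k, kap S x (i, k) * min 0 (S.ell (i, k) (p + v)) := by
  unfold incr
  exact sum_indicator_tri (fun i p => dot (omega (ofSurf S) x (i, 0)) v
    + ∑ k, kap S x (i, k) * min 0 (S.ell (i, k) (p + v))) hp

/-- If only the edge `k` can be crossed. -/
theorem incr_one {x : Fin S.n × Fin 3 → ℝ} {v p : ℂ} {i : Fin S.n} {k : Fin 3}
    (hp : p ∈ tri (S.P i)) (h : ∀ l, l ≠ k → 0 < S.ell (i, l) (p + v)) :
    incr S x v p = dot (omega (ofSurf S) x (i, 0)) v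
      + kap S x (i, k) * min 0 (S.ell (i, k) (p + v)) := by
  rw [incr_of_mem hp, Finset.sum_eq_single k]
  · intro l _ hl
    rw [min_eq_left (h l hl).le, mul_zero]
  · intro h; exact absurd (Finset.mem_univ k) h

/-- The increments of a cocycle. -/
theorem incr_isIncr {x : Fin S.n × Fin 3 → ℝ} (hx : x ∈ Coch (ofSurf S)) :
    Incr S (wform S x) (incr S x) := by
  refine ⟨?_, ?_, ?_, ?_⟩
  · refine ⟨∑ i, (‖omega (ofSurf S) x (i, 0)‖ + ∑ k, |kap S x (i, k)| * ‖S.vec (i, k)‖),
      by positivity, fun v p hp => ?_⟩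
    obtain ⟨i, hi⟩ := mem_iUnion.1 hp
    rw [incr_of_mem hi]
    have h1 : ∀ k, |kap S x (i, k) * min 0 (S.ell (i, k) (p + v))|
        ≤ |kap S x (i, k)| * ‖S.vec (i, k)‖ * ‖v‖ := by
      intro k
      rw [abs_mul, mul_assoc]
      refine mul_le_mul_of_nonneg_left ?_ (abs_nonneg _)
      rw [S.ell_add]
      have h2 := S.mem_tri.1 hi k
      have h3 := abs_cr_le (S.vec (i, k)) v
      have h4 := abs_le.1 h3
      rw [abs_le]
      refine ⟨le_min ?_ ?_, ?_⟩
      · have : 0 ≤ ‖S.vec (i, k)‖ * ‖v‖ := by positivity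
        linarith
      · linarith [h4.1]
      · exact (min_le_left _ _).trans (by positivity)
    have h5 : |dot (omega (ofSurf S) x (i, 0)) v + ∑ k, kap S x (i, k) * min 0 (S.ell (i, k) (p + v))|
        ≤ (‖omega (ofSurf S) x (i, 0)‖ + ∑ k, |kap S x (i, k)| * ‖S.vec (i, k)‖) * ‖v‖ := by
      refine (abs_add_le _ _).trans ?_
      rw [add_mul, Finset.sum_mul]
      refine add_le_add (abs_dot_le _ _) ((Finset.abs_sum_le_sum_abs _ _).trans
        (Finset.sum_le_sum fun k _ => h1 k))
    refine h5.trans (mul_le_mul_of_nonneg_right ?_ (norm_nonneg _))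
    exact Finset.single_le_sum (f := fun i => ‖omega (ofSurf S) x (i, 0)‖
      + ∑ k, |kap S x (i, k)| * ‖S.vec (i, k)‖) (fun i _ => by positivity) (Finset.mem_univ i)
  · intro v
    apply Measurable.aestronglyMeasurable
    unfold incr
    refine Finset.measurable_fun_sum _ fun i _ => ?_
    refine Measurable.indicator ?_ (S.isOpen_tri i).measurableSet
    apply Continuous.measurable
    have h1 : ∀ k, Continuous fun p : ℂ => S.ell (i, k) (p + v) := fun k =>
      (S.continuous_ell (i, k)).comp (continuous_id.add continuous_const)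
    exact continuous_const.add (continuous_finsetSum _ fun k _ =>
      continuous_const.mul (continuous_const.min (h1 k)))
  · intro p hp
    obtain ⟨i, hi⟩ := mem_iUnion.1 hp
    have h1 : Tendsto (fun w : ℂ => p + w) (𝓝 0) (𝓝 p) := by
      have : Tendsto (fun w : ℂ => p + w) (𝓝 0) (𝓝 (p + 0)) := by
        exact (continuous_const.add continuous_id).tendsto 0
      rwa [add_zero] at this
    filter_upwards [h1.eventually ((S.isOpen_tri i).mem_nhds hi)] with v hv
    rw [incr_of_mem hi, wform_of_mem hi]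
    rw [Finset.sum_eq_zero, add_zero]
    intro k _
    rw [min_eq_left (S.mem_tri.1 hv k).le, mul_zero]
  · obtain ⟨K, M, hK, hM0, hM, hdata⟩ := exists_data S
    obtain ⟨C, hC0, hC⟩ := nearV_bound S
    refine ⟨C * K ^ 2, by positivity, fun u v => ?_⟩
    set r := ‖u‖ + ‖v‖ with hr
    have hr0 : 0 ≤ r := by positivity
    have hnull : volume (⋃ e : Fin S.n × Fin 3, ({z | cr (S.vec e) (z - (S.P e.1 e.2 - v)) = 0} ∪
        {z | cr (S.vec e) (z - (S.P e.1 e.2 - (u + v))) = 0})) = 0 :=
      measure_iUnion_null fun e => measure_union_null (line_null (S.vec_ne_zero e) _ _)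
        (line_null (S.vec_ne_zero e) _ _)
    have hsub : {p | ¬ (incr S x (u + v) p = incr S x v p + incr S x u (S.F v p))} ∩ S.D ⊆
        {x | NearV S (K * r) x} ∪
        (⋃ e : Fin S.n × Fin 3, ({z | cr (S.vec e) (z - (S.P e.1 e.2 - v)) = 0} ∪
        {z | cr (S.vec e) (z - (S.P e.1 e.2 - (u + v))) = 0})) := by
      rintro p ⟨hne, hp⟩
      by_contra hc
      rw [mem_union, not_or] at hc
      obtain ⟨hc1, hc2⟩ := hc
      obtain ⟨i, k, hpi, hin, hout⟩ := hdata r hr0 p hp hc1
      obtain ⟨ψ, h0, -, hψp, hψn, hmp, hmn, hψ⟩ := chart_hop S hM hr0 (S.mem_tri.1 hpi k) hin hout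
      rw [mem_iUnion, not_exists] at hc2
      have hc3 := hc2 (i, k)
      rw [mem_union, not_or] at hc3
      obtain ⟨hc4, hc5⟩ := hc3
      have hv : S.ell (i, k) (p + v) ≠ 0 := by
        intro h
        apply hc4
        have : p - (S.P i k - v) = p + v - S.P i k := by ring
        change cr (S.vec (i, k)) (p - (S.P i k - v)) = 0
        rw [this]; exact h
      have huv : S.ell (i, k) (p + (u + v)) ≠ 0 := by
        intro h
        apply hc5
        have : p - (S.P i k - (u + v)) = p + (u + v) - S.P i k := by ring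
        change cr (S.vec (i, k)) (p - (S.P i k - (u + v))) = 0
        rw [this]; exact h
      have hp0 : S.ell (i, k) (p + 0) ≠ 0 := by
        rw [add_zero]; exact (S.mem_tri.1 hpi k).ne'
      have hnv : ‖v‖ ≤ r := by rw [hr]; linarith [norm_nonneg u]
      have hnuv : ‖u + v‖ ≤ r := norm_add_le _ _
      have hn0 : ‖(0 : ℂ)‖ ≤ r := by rw [norm_zero]; exact hr0
      have hcr : ∀ e w, ‖w‖ ≤ r → |cr (S.vec e) w| ≤ M * r := fun e w hw =>
        (abs_cr_le _ _).trans (mul_le_mul (hM e) hw (norm_nonneg _) ((norm_nonneg _).trans (hM e)))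
      -- the primitive in the chart
      set lam : ℂ → ℝ := fun w => dot (omega (ofSurf S) x (i, 0)) w
        + kap S x (i, k) * min 0 (S.ell (i, k) (p + w)) with hlam
      have key : ∀ w w', ‖w‖ ≤ r → ‖w'‖ ≤ r → S.ell (i, k) (p + w) ≠ 0 →
          incr S x (w' - w) (ψ w) = lam w' - lam w := by
        intro w w' hw hw' hA
        rcases lt_or_gt_of_ne hA with hA | hA
        · rw [hψn w hA]
          have hmem := hmn w hw hA
          have hout' := hout (by
            rw [S.ell_add] at hA
            have h2 := abs_le.1 (hcr (i, k) w hw)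
            linarith [h2.1])
          rw [incr_one (k := (S.glue (i, k)).2) hmem ?_]
          · rw [Prod.mk.eta, kap_glue hx, kap_spec hx]
            have e1 : p + w + S.shift (i, k) + (w' - w) = p + w' + S.shift (i, k) := by ring
            rw [e1, S.ell_glue]
            simp only [hlam]
            rw [min_eq_right hA.le, dot_sub_right]
            have e2 : cr (S.vec (i, k)) (w' - w) = S.ell (i, k) (p + w') - S.ell (i, k) (p + w) := by
              rw [S.ell_add, S.ell_add, cr_sub_right]; ring
            rw [e2]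
            have e3 : min 0 (-S.ell (i, k) (p + w'))
                = min 0 (S.ell (i, k) (p + w')) - S.ell (i, k) (p + w') := by
              rcases le_total 0 (S.ell (i, k) (p + w')) with h | h
              · rw [min_eq_right (by linarith), min_eq_left h]; ring
              · rw [min_eq_left (by linarith), min_eq_right h]; ring
            rw [e3]; ring
          · intro l hl
            have e1 : p + w + S.shift (i, k) + (w' - w) = (p + S.shift (i, k)) + w' := by ring
            rw [e1, S.ell_add]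
            have h2 := abs_le.1 (hcr ((S.glue (i, k)).1, l) w' hw')
            linarith [h2.1, hout' l hl]
        · rw [hψp w hA]
          have hmem := hmp w hw hA
          rw [incr_one (k := k) hmem ?_]
          · have e1 : p + w + (w' - w) = p + w' := by ring
            rw [e1]
            simp only [hlam]
            rw [min_eq_left hA.le, dot_sub_right]
            ring
          · intro l hl
            have e1 : p + w + (w' - w) = p + w' := by ring
            rw [e1, S.ell_add]
            have h2 := abs_le.1 (hcr (i, l) w' hw')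
            linarith [h2.1, hin l hl]
      have k1 := hψ 0 v hn0 hnv hp0 hv
      rw [sub_zero, h0] at k1
      have hFv : S.F v p = ψ v := Surf.F_eq (Surf.Straight.hop k1)
      apply hne
      have q1 := key 0 (u + v) hn0 hnuv hp0
      have q2 := key 0 v hn0 hnv hp0
      have q3 := key v (u + v) hnv hnuv hv
      rw [sub_zero, h0] at q1 q2
      rw [add_sub_cancel_right] at q3
      rw [hFv, q1, q2, q3]
      ring
    calc S.μ {p | ¬ (incr S x (u + v) p = incr S x v p + incr S x u (S.F v p))}
        = volume ({p | ¬ (incr S x (u + v) p = incr S x v p + incr S x u (S.F v p))} ∩ S.D) := by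
          rw [Surf.μ, Measure.restrict_apply' S.measurableSet_D]
      _ ≤ _ := measure_mono hsub
      _ ≤ _ := measure_union_le _ _
      _ ≤ ENNReal.ofReal (C * (K * r) ^ 2) + 0 := by
          rw [hnull]; gcongr; exact hC _ (by positivity)
      _ = _ := by rw [add_zero]; congr 1; ring

/-- Cocycles are orthogonal to the star of exact forms. -/
theorem wform_exact {x : Fin S.n × Fin 3 → ℝ} (hx : x ∈ Coch (ofSurf S)) {L : ℝ} {g : ℂ → ℝ}
    (hg : LipS S L g) : ∫ p, cr (wform S x p) (grad g p) ∂S.μ = 0 :=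
  closed_exact (incr_isIncr hx) hg

/-- Exact forms have mean zero. -/
theorem grad_mean {L : ℝ} {g : ℂ → ℝ} (hg : LipS S L g) : ∫ p, grad g p ∂S.μ = 0 := by
  have hL := hg.nonneg
  have hb : ∀ v : ℂ, ∀ᵐ p ∂S.μ, ‖fderiv ℝ g p v‖ ≤ L * ‖v‖ := by
    intro v
    filter_upwards [ae_mem_D S] with p hp
    exact (ContinuousLinearMap.le_opNorm _ _).trans
      (mul_le_mul_of_nonneg_right (hg.norm_fderiv_le hp) (norm_nonneg _))
  have hm : ∀ v : ℂ, AEStronglyMeasurable (fun p => fderiv ℝ g p v) S.μ := by
    intro v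
    exact (measurable_fderiv_apply_const ℝ g v).aestronglyMeasurable
  have hi : ∀ v : ℂ, Integrable (fun p => fderiv ℝ g p v) S.μ := fun v =>
    Integrable.of_bound (hm v) _ (hb v)
  have h1 : Integrable (grad g) S.μ := by
    have h2 : grad g = fun p => ((fderiv ℝ g p 1 : ℝ) : ℂ)
        + ((fderiv ℝ g p Complex.I : ℝ) : ℂ) * Complex.I := by
      funext p
      apply Complex.ext <;> simp [grad]
    rw [h2]
    exact ((hi 1).ofReal).add (((hi Complex.I).ofReal).mul_const _)
  apply Complex.ext
  · have h3 := integral_re (𝕜 := ℂ) h1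
    have h4 : ∫ p, RCLike.re (grad g p) ∂S.μ = ∫ p, fderiv ℝ g p 1 ∂S.μ := rfl
    rw [h4, exact_mean hg] at h3
    simpa using h3.symm
  · have h3 := integral_im (𝕜 := ℂ) h1
    have h4 : ∫ p, RCLike.im (grad g p) ∂S.μ = ∫ p, fderiv ℝ g p Complex.I ∂S.μ := rfl
    rw [h4, exact_mean hg] at h3
    simpa using h3.symm

end Pool.Agent.Helper35.E98
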