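import Pool.Agent.Helper35.E98.Energy

/-!
`sum_grad` (for helper21's gap lemma): the sum of the integrals of the gradients of a Lipschitz
function on the surface is zero.  Also the volumes of the open triangles `Op`.
-/

open MeasureTheory Set Filter Topology

namespace Pool.Agent.Helper35.E98

open Pool.Agent.Helper87.LS Pool.Agent.Helper72.TF

variable {S : Surf}

theorem integral_D' {E : Type*} [NormedAddCommGroup E] [NormedSpace ℝ E] {g : ℂ → E}
    (hg : Integrable g S.μ) : ∫ z, g z ∂S.μ = ∑ i, ∫ z in tri (S.P i), g z := by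
  unfold Surf.μ Surf.D
  refine integral_iUnion_fintype (fun i => (S.isOpen_tri i).measurableSet) ?_ ?_
  · intro i j hij
    exact S.disj i j hij
  · intro i
    refine IntegrableOn.mono_set (t := S.D) hg ?_
    exact subset_iUnion (fun i => tri (S.P i)) i

theorem sum_grad (Y : Surf) (F : Fin Y.n × Fin 3 → ℂ → ℝ) (hF : Fn (ofSurf Y) F) :
    ∑ h, ∫ z in Op (ofSurf Y) h, grad (F h) z = 0 := by
  obtain ⟨G, L, hG, hFG⟩ := Fn.toLipS hF
  have hi : Integrable (grad G) Y.μ := by
    refine Integrable.of_bound (measurable_grad G).aestronglyMeasurable (2 * L) ?_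
    filter_upwards [ae_mem_D Y] with z hz using hG.grad_le hz
  have key : ∀ i k, ∫ z in Op (ofSurf Y) (i, k), grad (F (i, k)) z
      = ∫ z in tri (Y.P i), grad G z := by
    intro i k
    have hmp : MeasurePreserving (fun z : ℂ => z + Y.P i k) volume volume :=
      measurePreserving_add_right volume (Y.P i k)
    have h1 := hmp.setIntegral_preimage_emb (measurableEmbedding_addRight (Y.P i k))
      (fun z => grad G z) (tri (Y.P i))
    have h2 : (fun z : ℂ => z + Y.P i k) ⁻¹' tri (Y.P i) = Op (ofSurf Y) (i, k) := by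
      ext z
      exact (mem_Op i k z).symm
    rw [h2] at h1
    rw [← h1]
    refine setIntegral_congr_fun (isOpen_Op _ _).measurableSet fun z hz => ?_
    have h4 : F (i, k) =ᶠ[𝓝 z] fun z => G (z + Y.P i k) := by
      filter_upwards [(isOpen_Op (ofSurf Y) (i, k)).mem_nhds hz] with w hw
      exact hFG i k w hw
    change grad (F (i, k)) z = grad G (z + Y.P i k)
    rw [grad_congr h4, grad_add_right]
  rw [Fintype.sum_prod_type]
  simp_rw [key]
  simp only [Finset.sum_const, Finset.card_univ, Fintype.card_fin]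
  rw [← Finset.smul_sum, ← integral_D' hi, grad_mean hG, smul_zero]

/-- The area of `Op`. -/
theorem volume_Op' (Y : Surf) (h : Fin Y.n × Fin 3) :
    volume (Op (ofSurf Y) h) = ENNReal.ofReal (ar (ofSurf Y) h / 2) := by
  obtain ⟨i, k⟩ := h
  have h2 : (fun z : ℂ => z + Y.P i k) ⁻¹' tri (Y.P i) = Op (ofSurf Y) (i, k) := by
    ext z
    exact (mem_Op i k z).symm
  have h3 : ar (ofSurf Y) (i, k) = Y.area2 i := Y.cr_vec_succ i k
  rw [← h2, measure_preimage_add_right, volume_tri, h3]

end Pool.Agent.Helper35.E98
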