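import Pool.Agent.Helper35.E98.L2
import Pool.Agent.Helper83.NS.Sys
import Pool.Agent.Helper45.TFL.ModL
import Pool.Agent.Helper72.TF.BA1
import Pool.Agent.Helper72.TF.BE3

/-!
The system `sysOf S : TFL.Sys (VV S)` of helper45 for the surface `S`: `VV S` is the space of the
forms `wL x` projected to the orthogonal complement of the exact forms.  It models `S` in the sense
of helper45's `Model` and satisfies (NS).
-/

open MeasureTheory Set Filter Topology
open scoped ComplexConjugate InnerProductSpace ENNReal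

namespace Pool.Agent.Helper35.E98

open Pool.Agent.Helper87.LS Pool.Agent.Helper72.TF Pool.Agent.Helper83.NS

noncomputable section

variable (S : Surf)

/-! ### The projection -/

/-- The projection to the orthogonal complement of the exact forms. -/
def PX : LL S →ₗ[ℝ] LL S := (((EX S)ᗮ).starProjection : LL S →L[ℝ] LL S)

theorem PX_eq (f : LL S) : PX S f = ((EX S)ᗮ).starProjection f := rfl

theorem PX_sub (f : LL S) : ∃ e ∈ EX S, PX S f = f + e := by
  have : CompleteSpace (EX S) := (EX_closed S).completeSpace_coe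
  refine ⟨-((EX S).starProjection f), (EX S).neg_mem (Submodule.starProjection_apply_mem _ _), ?_⟩
  rw [PX_eq, Submodule.starProjection_orthogonal_val (K := EX S) f, sub_eq_add_neg]

theorem PX_mem (f : LL S) : PX S f ∈ (EX S)ᗮ := by
  rw [PX_eq]
  exact Submodule.starProjection_apply_mem _ _

theorem PX_of_mem {f : LL S} (h : f ∈ EX S) : PX S f = 0 := by
  rw [PX_eq]
  exact Submodule.starProjection_orthogonal_apply_eq_zero h

theorem PX_of_orth {f : LL S} (h : f ∈ (EX S)ᗮ) : PX S f = f := by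
  rw [PX_eq]
  exact Submodule.starProjection_eq_self_iff.2 h

theorem eq_zero_of_mem {f : LL S} (h : f ∈ EX S) (h' : f ∈ (EX S)ᗮ) : f = 0 := by
  rw [← PX_of_orth S h']
  exact PX_of_mem S h

/-! ### The mean -/

theorem integrable_LL (f : LL S) : Integrable f S.μ :=
  (Lp.memLp f).integrable one_le_two

/-- The integral of a form. -/
def mn : LL S →ₗ[ℝ] ℂ where
  toFun f := ∫ z, f z ∂S.μ
  map_add' f g := by
    rw [← integral_add (integrable_LL S f) (integrable_LL S g)]
    exact integral_congr_ae (Lp.coeFn_add f g)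
  map_smul' c f := by
    rw [RingHom.id_apply, ← integral_smul]
    exact integral_congr_ae (Lp.coeFn_smul c f)

theorem mn_apply (f : LL S) : mn S f = ∫ z, f z ∂S.μ := rfl

/-- Constant forms. -/
def cL : ℂ →ₗ[ℝ] LL S := Lp.constₗ 2 S.μ ℝ

theorem cL_ae (c : ℂ) : cL S c =ᵐ[S.μ] fun _ => c := Lp.coeFn_const 2 S.μ c

theorem area_pos : 0 < S.μ.real univ := by
  rw [measureReal_D]
  have h1 : 0 < ∑ i, S.area2 i := by
    have : Nonempty (Fin S.n) := ⟨⟨0, S.pos⟩⟩
    exact Finset.sum_pos (fun i _ => S.area2_pos i) Finset.univ_nonempty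
  positivity

theorem mn_cL (c : ℂ) : mn S (cL S c) = ((S.μ.real univ : ℝ) : ℂ) * c := by
  rw [mn_apply, integral_congr_ae (cL_ae S c), integral_const, Complex.real_smul]

theorem integral_dot {f : ℂ → ℂ} (hf : Integrable f S.μ) (c : ℂ) :
    ∫ z, dot c (f z) ∂S.μ = dot c (∫ z, f z ∂S.μ) := by
  let T : ℂ →L[ℝ] ℝ := LinearMap.toContinuousLinearMap
    { toFun := fun z => dot c z
      map_add' := fun z w => dot_add_right c z w
      map_smul' := fun r z => by
        simp only [dot, Complex.real_smul, Complex.re_ofReal_mul, Complex.im_ofReal_mul,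
          RingHom.id_apply, smul_eq_mul]
        ring }
  exact T.integral_comp_comm hf

theorem inner_cL (c : ℂ) (f : LL S) : ⟪cL S c, f⟫_ℝ = dot c (mn S f) := by
  rw [inner_eq, mn_apply, ← integral_dot S (integrable_LL S f)]
  refine integral_congr_ae ?_
  filter_upwards [cL_ae S c] with z hz
  rw [hz]

theorem mn_EX {e : LL S} (he : e ∈ EX S) : mn S e = 0 := by
  have h0 : ∀ c : ℂ, ∀ e ∈ EX S, ⟪cL S c, e⟫_ℝ = 0 := by
    intro c
    refine EX_induction (p := fun e => ⟪cL S c, e⟫_ℝ = 0)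
      (isClosed_eq (continuous_const.inner continuous_id) continuous_const) ?_
    rintro e ⟨F, L, hF, hf⟩
    rw [inner_cL, mn_apply, integral_congr_ae hf, grad_mean hF]
    simp [dot]
  refine eq_of_dot fun v => ?_
  have h1 := h0 v e he
  rw [inner_cL] at h1
  have h2 : dot (mn S e) v = dot v (mn S e) := by simp only [dot]; ring
  rw [h2, h1]
  simp [dot]

theorem cL_orth (c : ℂ) : cL S c ∈ (EX S)ᗮ := by
  rw [Submodule.mem_orthogonal']
  intro e he
  rw [inner_cL, mn_EX S he]
  simp [dot]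

theorem mn_act (g : ℂ × ℂ) (f : LL S) :
    mn S ((refl S).act g f) = g.1 * mn S f + g.2 * conj (mn S f) := by
  rw [mn_apply, integral_congr_ae (act_ae S g f), mn_apply, ← integral_conj,
    ← integral_const_mul, ← integral_const_mul]
  have hi := integrable_LL S f
  have hc : Integrable (fun z => conj (f z)) S.μ := by
    have := (Complex.conjCLE : ℂ →L[ℝ] ℂ).integrable_comp hi
    exact this
  exact integral_add (hi.const_mul _) (hc.const_mul _)

theorem act_cL (g : ℂ × ℂ) (c : ℂ) : (refl S).act g (cL S c) = cL S (g.1 * c + g.2 * conj c) := by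
  refine Lp.ext ?_
  filter_upwards [act_ae S g (cL S c), cL_ae S c, cL_ae S (g.1 * c + g.2 * conj c)]
    with z h1 h2 h3
  rw [h1, h2, h3]

/-- The mean zero part of a form. -/
def zr : LL S →ₗ[ℝ] LL S := LinearMap.id - (cL S).comp ((S.μ.real univ)⁻¹ • mn S)

theorem zr_apply (f : LL S) : zr S f = f - cL S ((S.μ.real univ)⁻¹ • mn S f) := rfl

theorem mn_zr (f : LL S) : mn S (zr S f) = 0 := by
  have h := area_pos S
  rw [zr_apply, map_sub, mn_cL, Complex.real_smul, ← mul_assoc, ← Complex.ofReal_mul,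
    mul_inv_cancel₀ h.ne']
  simp

theorem zr_cL (c : ℂ) : zr S (cL S c) = 0 := by
  have h := area_pos S
  have e : (S.μ.real univ)⁻¹ • mn S (cL S c) = c := by
    rw [mn_cL, Complex.real_smul, ← mul_assoc, ← Complex.ofReal_mul, inv_mul_cancel₀ h.ne']
    simp
  rw [zr_apply, e, sub_self]

/-- **Pythagoras**. -/
theorem gm_pyth (g : ℂ × ℂ) (hg : g ∈ SL) (f : LL S) {c : ℂ}
    (hc : c = (S.μ.real univ)⁻¹ • mn S f) :
    (refl S).gm (EX S) g f f = S.μ.real univ * ‖g.1 * c + g.2 * conj c‖ ^ 2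
      + (refl S).gm (EX S) g (zr S f) (zr S f) := by
  have hfz : f = cL S c + zr S f := by rw [zr_apply, hc]; abel
  have hQc : (refl S).Q (EX S) g (cL S c) = cL S (g.1 * c + g.2 * conj c) := by
    obtain ⟨e, he, h⟩ := (refl S).Q_sub (EX_closed S) hg (cL S c)
    have h1 : cL S (g.1 * c + g.2 * conj c) ∈ ((refl S).im (EX S) g)ᗮ := by
      rw [Submodule.mem_orthogonal']
      intro y hy
      obtain ⟨e, he, rfl⟩ := (refl S).mem_im.1 hy
      rw [inner_cL, mn_act, mn_EX S he]
      simp [dot]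
    have h2 := (refl S).Q_mem (EX S) g (cL S c)
    have h3 : (refl S).Q (EX S) g (cL S c) - cL S (g.1 * c + g.2 * conj c)
        ∈ ((refl S).im (EX S) g)ᗮ := Submodule.sub_mem _ h2 h1
    have h4 : (refl S).Q (EX S) g (cL S c) - cL S (g.1 * c + g.2 * conj c)
        ∈ (refl S).im (EX S) g := by
      rw [h, map_add, act_cL, add_sub_cancel_left]
      exact (refl S).act_mem_im he
    have h5 := Submodule.inner_left_of_mem_orthogonal h4 h3
    rw [real_inner_self_eq_norm_sq] at h5
    have h6 : ‖(refl S).Q (EX S) g (cL S c) - cL S (g.1 * c + g.2 * conj c)‖ = 0 := by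
      simpa using h5
    exact sub_eq_zero.1 (norm_eq_zero.1 h6)
  have hcross : (refl S).gm (EX S) g (cL S c) (zr S f) = 0 := by
    unfold Refl.gm
    rw [hQc]
    obtain ⟨e, he, h⟩ := (refl S).Q_sub (EX_closed S) hg (zr S f)
    rw [h, inner_cL, mn_act, map_add, mn_zr, mn_EX S he]
    simp [dot]
  have hcc : (refl S).gm (EX S) g (cL S c) (cL S c)
      = S.μ.real univ * ‖g.1 * c + g.2 * conj c‖ ^ 2 := by
    unfold Refl.gm
    rw [hQc, inner_cL, mn_cL, ← Complex.normSq_eq_norm_sq, Complex.normSq_apply]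
    simp only [dot, Complex.re_ofReal_mul, Complex.im_ofReal_mul]
    ring
  conv_lhs => rw [hfz]
  rw [(refl S).gm_add_left, (refl S).gm_add_right, (refl S).gm_add_right, hcross,
    (refl S).gm_symm _ _ (zr S f) (cL S c), hcross, hcc]
  ring

/-- The Gram form does not see exact forms. -/
theorem gm_PX (g : ℂ × ℂ) (f : LL S) :
    (refl S).gm (EX S) g (PX S f) (PX S f) = (refl S).gm (EX S) g f f := by
  obtain ⟨e, he, h⟩ := PX_sub S f
  unfold Refl.gm
  rw [h, map_add, (refl S).Q_of_mem g he, add_zero]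

/-! ### The levels -/

theorem lv_eq_code (s u : ℝ) : lv s u = code (cov (gsu s u)) := by
  apply code_inj
  intro z
  have hs : (gsu s u).symm 1 = ⟨Real.exp (-s), 0⟩ := by
    rw [LinearEquiv.symm_apply_eq]
    apply Complex.ext
    · rw [gsu_re]
      simp [← Real.exp_add]
    · rw [gsu_im]
      simp
  have hI : (gsu s u).symm Complex.I = ⟨u * Real.exp s, Real.exp s⟩ := by
    rw [LinearEquiv.symm_apply_eq]
    apply Complex.ext
    · rw [gsu_re]
      simp
    · rw [gsu_im]
      simp [← Real.exp_add]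
  have hcov : cov (gsu s u) z = ⟨Real.exp (-s) * z.re, Real.exp s * (z.im + u * z.re)⟩ := by
    simp only [cov, LinearMap.coe_mk, AddHom.coe_mk, hs, hI, dot]
    apply Complex.ext
    · simp only; ring
    · simp only; ring
  rw [hcov]
  have h1 : Real.cosh s - Real.sinh s = Real.exp (-s) := Real.cosh_sub_sinh s
  have h2 : Real.cosh s + Real.sinh s = Real.exp s := Real.cosh_add_sinh s
  rw [← h1, ← h2]
  unfold lv mul dil low
  apply Complex.ext
  · simp only [Complex.add_re, Complex.mul_re, Complex.mul_im, Complex.add_im, Complex.ofReal_re,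
      Complex.ofReal_im, Complex.neg_re, Complex.neg_im, Complex.I_re, Complex.I_im,
      Complex.conj_re, Complex.conj_im, Complex.one_re, Complex.one_im]
    ring
  · simp only [Complex.add_re, Complex.mul_re, Complex.mul_im, Complex.add_im, Complex.ofReal_re,
      Complex.ofReal_im, Complex.neg_re, Complex.neg_im, Complex.I_re, Complex.I_im,
      Complex.conj_re, Complex.conj_im, Complex.one_re, Complex.one_im]
    ring

theorem lv_apply (s u : ℝ) (z : ℂ) : (lv s u).1 * z + (lv s u).2 * conj z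
    = ⟨Real.exp (-s) * z.re, Real.exp s * (z.im + u * z.re)⟩ := by
  have h1 : Real.cosh s - Real.sinh s = Real.exp (-s) := Real.cosh_sub_sinh s
  have h2 : Real.cosh s + Real.sinh s = Real.exp s := Real.cosh_add_sinh s
  rw [← h1, ← h2]
  unfold lv mul dil low
  apply Complex.ext
  · simp only [Complex.add_re, Complex.mul_re, Complex.mul_im, Complex.add_im, Complex.ofReal_re,
      Complex.ofReal_im, Complex.neg_re, Complex.neg_im, Complex.I_re, Complex.I_im,
      Complex.conj_re, Complex.conj_im, Complex.one_re, Complex.one_im]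
    ring
  · simp only [Complex.add_re, Complex.mul_re, Complex.mul_im, Complex.add_im, Complex.ofReal_re,
      Complex.ofReal_im, Complex.neg_re, Complex.neg_im, Complex.I_re, Complex.I_im,
      Complex.conj_re, Complex.conj_im, Complex.one_re, Complex.one_im]
    ring

theorem opn_dil (t : ℝ) : opn (dil t) = Real.exp |t| := by
  have h1 : ‖(Real.cosh t : ℂ)‖ = Real.cosh |t| := by
    rw [Complex.norm_real, Real.norm_eq_abs, abs_of_pos (Real.cosh_pos t), Real.cosh_abs]
  have h2 : ‖-(Real.sinh t : ℂ)‖ = Real.sinh |t| := by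
    rw [norm_neg, Complex.norm_real, Real.norm_eq_abs, Real.abs_sinh]
  simp only [opn, dil]
  rw [h1, h2, Real.cosh_add_sinh]

theorem opn_low {w : ℝ} (hw : |w| ≤ 1) : opn (low w) ^ 2 ≤ 3 := by
  have h1 : ‖(1 : ℂ) + ((w / 2 : ℝ) : ℂ) * Complex.I‖ ^ 2 = 1 + (w / 2) ^ 2 := by
    rw [← Complex.normSq_eq_norm_sq, Complex.normSq_apply]
    simp
    ring
  have h2 : ‖((w / 2 : ℝ) : ℂ) * Complex.I‖ = |w| / 2 := by
    rw [norm_mul, Complex.norm_I, mul_one, Complex.norm_real, Real.norm_eq_abs, abs_div]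
    norm_num
  set a := ‖(1 : ℂ) + ((w / 2 : ℝ) : ℂ) * Complex.I‖ with ha
  have ha0 : 0 ≤ a := norm_nonneg _
  have hw2 : w ^ 2 ≤ 1 := by rw [← sq_abs]; nlinarith [abs_nonneg w]
  have ha2 : a ≤ 9 / 8 := by
    by_contra hcon
    push Not at hcon
    nlinarith
  have : opn (low w) = a + |w| / 2 := by
    simp only [opn, low]
    rw [← ha, h2]
  rw [this]
  have h3 : a + |w| / 2 ≤ 13 / 8 := by linarith
  have h4 : 0 ≤ a + |w| / 2 := by positivity
  nlinarith

/-! ### The system -/

/-- The projected form of a cocycle. -/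
def pr : Coch (ofSurf S) →ₗ[ℝ] LL S := (PX S).comp ((wL S).comp (Coch (ofSurf S)).subtype)

/-- The space of the classes. -/
abbrev VV : Submodule ℝ (LL S) := LinearMap.range (pr S)

instance : FiniteDimensional ℝ (VV S) := inferInstance

/-- The class of a cocycle. -/
def pV : Coch (ofSurf S) →ₗ[ℝ] VV S := (pr S).rangeRestrict

theorem pV_coe (x : Coch (ofSurf S)) : (pV S x : LL S) = PX S (wL S x) := rfl

theorem VV_orth (v : VV S) : (v : LL S) ∈ (EX S)ᗮ := by
  obtain ⟨x, hx⟩ := v.2
  rw [← hx]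
  exact PX_mem S _

theorem wL_cst (c : ℂ) : wL S (cst (ofSurf S) c) = cL S c := by
  refine Lp.ext ?_
  filter_upwards [wL_ae S (cst (ofSurf S) c), cL_ae S c, ae_mem_D S] with z h1 h2 h3
  rw [h1, h2]
  obtain ⟨i, hi⟩ := mem_iUnion.1 h3
  rw [wform_of_mem hi, Pool.Agent.Helper72.TF.omega_cst]

/-- The class of a constant form. -/
def eV (c : ℂ) : VV S := pV S ⟨cst (ofSurf S) c, cst_mem (ofSurf S) c⟩

theorem eV_coe (c : ℂ) : (eV S c : LL S) = cL S c := by
  unfold eV
  rw [pV_coe, wL_cst, PX_of_orth S (cL_orth S c)]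

/-- The mean as a covector. -/
def qV : VV S →ₗ[ℝ] ℝ × ℝ where
  toFun v := ((mn S v).re / S.μ.real univ, (mn S v).im / S.μ.real univ)
  map_add' v w := by
    ext
    · simp [add_div]
    · simp [add_div]
  map_smul' c v := by
    ext
    · simp [mul_div_assoc]
    · simp [mul_div_assoc]

/-- The form `G`. -/
def GV (s u : ℝ) : LinearMap.BilinForm ℝ (VV S) :=
  LinearMap.mk₂ ℝ (fun x y => (S.μ.real univ)⁻¹ * (refl S).gm (EX S) (lv s u) (zr S x) (zr S y))
    (by intro a b c; simp only [Submodule.coe_add, map_add, Refl.gm_add_left]; ring)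
    (by intro a b c; simp only [Submodule.coe_smul, map_smul, Refl.gm, real_inner_smul_left,
          smul_eq_mul]; ring)
    (by intro a b c; simp only [Submodule.coe_add, map_add, Refl.gm_add_right]; ring)
    (by intro a b c; simp only [Submodule.coe_smul, map_smul, Refl.gm, real_inner_smul_right,
          smul_eq_mul]; ring)

theorem GV_apply (s u : ℝ) (x y : VV S) : GV S s u x y
    = (S.μ.real univ)⁻¹ * (refl S).gm (EX S) (lv s u) (zr S x) (zr S y) := rfl

theorem zr_of_q {x : VV S} (hx : qV S x = 0) : zr S x = x := by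
  have h := area_pos S
  have h1 : (mn S x).re / S.μ.real univ = 0 := congrArg Prod.fst hx
  have h2 : (mn S x).im / S.μ.real univ = 0 := congrArg Prod.snd hx
  have h3 : mn S x = 0 := by
    apply Complex.ext
    · rcases div_eq_zero_iff.1 h1 with h4 | h4
      · exact h4
      · exact absurd h4 h.ne'
    · rcases div_eq_zero_iff.1 h2 with h4 | h4
      · exact h4
      · exact absurd h4 h.ne'
  rw [zr_apply, h3, smul_zero, map_zero, sub_zero]

/-- The system of `S`. -/
def sysOf : TFL.Sys (VV S) where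
  q := qV S
  e1 := eV S 1
  e2 := eV S Complex.I
  q1 := by
    have h := area_pos S
    have h1 : qV S (eV S 1) = ((mn S (eV S 1)).re / S.μ.real univ,
      (mn S (eV S 1)).im / S.μ.real univ) := rfl
    rw [h1, eV_coe, mn_cL, mul_one]
    simp [h.ne']
  q2 := by
    have h := area_pos S
    have h1 : qV S (eV S Complex.I) = ((mn S (eV S Complex.I)).re / S.μ.real univ,
      (mn S (eV S Complex.I)).im / S.μ.real univ) := rfl
    rw [h1, eV_coe, mn_cL]
    simp [h.ne']
  Lam := (AddSubgroup.comap (Coch (ofSurf S)).subtype.toAddMonoidHom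
    (CochZ (ofSurf S))).map (pV S).toAddMonoidHom
  G := GV S
  Gsymm s u x y := by rw [GV_apply, GV_apply, (refl S).gm_symm]
  Gnonneg s u x := by
    rw [GV_apply, (refl S).gm_self]
    have h := area_pos S
    positivity
  Ge1 s u x := by
    rw [GV_apply, eV_coe, zr_cL]
    simp [Refl.gm]
  Ge2 s u x := by
    rw [GV_apply, eV_coe, zr_cL]
    simp [Refl.gm]
  Gpos s u x hq hx := by
    rw [GV_apply, (refl S).gm_self, zr_of_q S hq]
    have h := area_pos S
    have h1 : (refl S).Q (EX S) (lv s u) x ≠ 0 := by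
      intro h2
      have h3 := Q_eq_zero (refl S) (EX_closed S) (lv_mem s u) h2
      exact hx (Subtype.ext (eq_zero_of_mem S h3 (VV_orth S x)))
    have h2 : 0 < ‖(refl S).Q (EX S) (lv s u) x‖ := norm_pos_iff.2 h1
    positivity
  Gup s u t x ht := by
    rw [GV_apply, GV_apply, (refl S).gm_self, (refl S).gm_self]
    have h := area_pos S
    have e : lv (s + t) u = mul (dil t) (lv s u) := by
      unfold lv
      rw [← mul_assoc', dil_add]
    have h1 := (refl S).norm_Q_mul_le (EX_closed S) (lv_mem s u) (dil t) (zr S x)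
    rw [opn_dil, abs_of_nonneg ht] at h1
    rw [e, mul_left_comm]
    have h2 : Real.exp (2 * t) * ‖(refl S).Q (EX S) (lv s u) (zr S x)‖ ^ 2
        = (Real.exp t * ‖(refl S).Q (EX S) (lv s u) (zr S x)‖) ^ 2 := by
      rw [mul_pow, ← Real.exp_nat_mul]
      norm_num
    rw [h2]
    gcongr
  Gdown s u t x ht := by
    rw [GV_apply, GV_apply, (refl S).gm_self, (refl S).gm_self]
    have h := area_pos S
    have e : lv s u = mul (dil (-t)) (lv (s + t) u) := by
      unfold lv
      rw [← mul_assoc', dil_add]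
      simp
    have h1 := (refl S).norm_Q_mul_le (EX_closed S) (lv_mem (s + t) u) (dil (-t)) (zr S x)
    rw [opn_dil, abs_neg, abs_of_nonneg ht, ← e] at h1
    rw [mul_left_comm]
    have h2 : Real.exp (2 * t) * ‖(refl S).Q (EX S) (lv (s + t) u) (zr S x)‖ ^ 2
        = (Real.exp t * ‖(refl S).Q (EX S) (lv (s + t) u) (zr S x)‖) ^ 2 := by
      rw [mul_pow, ← Real.exp_nat_mul]
      norm_num
    rw [h2]
    gcongr
  Gcell s u u₀ x hu := by
    rw [GV_apply, GV_apply, (refl S).gm_self, (refl S).gm_self]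
    have h := area_pos S
    have e := lv_step s 0 u u₀
    rw [add_zero, dil_zero, one_mul'] at e
    have hw : |(u - u₀) * Real.exp (2 * s)| ≤ 1 := by
      rw [abs_mul, abs_of_pos (Real.exp_pos _)]
      calc |u - u₀| * Real.exp (2 * s) ≤ Real.exp (-(2 * s)) * Real.exp (2 * s) := by gcongr
        _ = 1 := by rw [← Real.exp_add]; simp
    have h1 := (refl S).norm_Q_mul_le (EX_closed S) (lv_mem s u₀)
      (low ((u - u₀) * Real.exp (2 * s))) (zr S x)
    rw [← e] at h1
    have h3 := opn_low hw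
    have h4 : ‖(refl S).Q (EX S) (lv s u) (zr S x)‖ ^ 2
        ≤ 3 * ‖(refl S).Q (EX S) (lv s u₀) (zr S x)‖ ^ 2 := by
      calc ‖(refl S).Q (EX S) (lv s u) (zr S x)‖ ^ 2
          ≤ (opn (low ((u - u₀) * Real.exp (2 * s))) *
              ‖(refl S).Q (EX S) (lv s u₀) (zr S x)‖) ^ 2 := by gcongr
        _ = opn (low ((u - u₀) * Real.exp (2 * s))) ^ 2 *
              ‖(refl S).Q (EX S) (lv s u₀) (zr S x)‖ ^ 2 := mul_pow _ _ _
        _ ≤ _ := by gcongr
    rw [mul_left_comm]
    gcongr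

/-- The form `N` of the system. -/
theorem N_sysOf (s u : ℝ) (x : VV S) : (sysOf S).N s u x x
    = (S.μ.real univ)⁻¹ * (refl S).gm (EX S) (lv s u) (x : LL S) (x : LL S) := by
  have h := area_pos S
  have h0 : (sysOf S).N s u x x = (TFL.act s u (qV S x)).1 * (TFL.act s u (qV S x)).1
      + (TFL.act s u (qV S x)).2 * (TFL.act s u (qV S x)).2 + GV S s u x x := rfl
  rw [h0, gm_pyth S (lv s u) (lv_mem s u) x rfl, GV_apply, mul_add, ← mul_assoc,
    inv_mul_cancel₀ h.ne', one_mul, lv_apply, ← Complex.normSq_eq_norm_sq, Complex.normSq_apply]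
  have h1 : qV S x = ((mn S x).re / S.μ.real univ, (mn S x).im / S.μ.real univ) := rfl
  rw [h1]
  simp only [TFL.act, LinearMap.coe_mk, AddHom.coe_mk, Complex.real_smul, Complex.re_ofReal_mul,
    Complex.im_ofReal_mul]
  ring

theorem NS_sysOf : ∃ C δ : ℝ, 0 < C ∧ 0 < δ ∧ (sysOf S).NS C δ := by
  have h := area_pos S
  refine ⟨120, 2 / (Module.finrank ℝ (VV S) + 1), by norm_num, by positivity, ?_⟩
  refine NS_of_model (sysOf S) (refl S) (EX_closed S) (EX_iso S) (VV S).subtype ?_ ?_
    (inv_pos.2 h) (N_sysOf S)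
  · intro v e he
    obtain ⟨x, hx⟩ := v.2
    obtain ⟨e', he', h1⟩ := PX_sub S (wL S x)
    have h2 : (VV S).subtype v = wL S x + e' := by
      rw [← h1]
      exact hx.symm
    rw [h2, map_add, inner_add_left, wL_cl S x.2 e he, EX_iso S e' he' e he, add_zero]
  · intro v hv
    exact Subtype.ext (eq_zero_of_mem S hv (VV_orth S v))

variable {S}

/-- Positivity of the Hodge norm gives the kernel. -/
theorem mem_EX_iff (hpos : ∀ x ∈ Coch (ofSurf S), hn2 (ofSurf S) x = 0 → x ∈ Cob (ofSurf S))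
    {x : Fin S.n × Fin 3 → ℝ} (hx : x ∈ Coch (ofSurf S)) :
    wL S x ∈ EX S ↔ x ∈ Cob (ofSurf S) := by
  have hA : LinearMap.det ((LinearEquiv.refl ℝ ℂ : ℂ ≃ₗ[ℝ] ℂ) : ℂ →ₗ[ℝ] ℂ) = 1 := by simp
  have hact : act (ofSurf S) (LinearEquiv.refl ℝ ℂ) hA = ofSurf S := rfl
  have key := hn2_eq_gm S (LinearEquiv.refl ℝ ℂ) hA hx
  rw [hact] at key
  have hg : code (cov (LinearEquiv.refl ℝ ℂ)) ∈ SL := code_mem (det_cov _ hA)
  rw [(refl S).gm_self] at key
  constructor
  · intro h
    apply hpos x hx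
    rw [key, (refl S).Q_of_mem _ h]
    simp
  · intro h
    have h1 := hn2_cob h
    rw [key] at h1
    have h2 : (refl S).Q (EX S) (code (cov (LinearEquiv.refl ℝ ℂ))) (wL S x) = 0 := by
      rw [← norm_eq_zero]
      simpa using h1
    exact Q_eq_zero (refl S) (EX_closed S) hg h2

theorem model_sysOf (hpos : ∀ x ∈ Coch (ofSurf S), hn2 (ofSurf S) x = 0 → x ∈ Cob (ofSurf S)) :
    Pool.Agent.Helper45.ModL.Model S (sysOf S) (S.μ.real univ) (pV S) where
  ar_pos := area_pos S
  surj := (pr S).surjective_rangeRestrict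
  ker x := by
    rw [← mem_EX_iff hpos x.2]
    constructor
    · intro h
      have h1 : PX S (wL S x) = 0 := by rw [← pV_coe, h]; rfl
      obtain ⟨e, he, h2⟩ := PX_sub S (wL S x)
      rw [h1] at h2
      have h3 : wL S x = -e := by rw [eq_neg_iff_add_eq_zero]; exact h2.symm
      rw [h3]
      exact (EX S).neg_mem he
    · intro h
      apply Subtype.ext
      rw [pV_coe, PX_of_mem S h]
      rfl
  lam m := by
    constructor
    · rintro ⟨x, hx, rfl⟩
      exact ⟨x, hx, rfl⟩
    · rintro ⟨x, hx, rfl⟩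
      exact ⟨x, hx, rfl⟩
  N_eq s u x := by
    rw [N_sysOf, pV_coe, gm_PX, lv_eq_code, div_eq_inv_mul]
    congr 1
    exact (hn2_eq_gm S (gsu s u) (det_gsu s u) x.2).symm
  e2 := by
    refine ⟨⟨cst (ofSurf S) Complex.I, cst_mem (ofSurf S) Complex.I⟩, ?_, rfl⟩
    intro h
    change dot Complex.I (S.vec h) = _
    simp [dot]
  q0 s u x hx := by
    have h := area_pos S
    have h1 : (mn S (pV S x)).re / S.μ.real univ = 0 := congrArg Prod.fst hx
    have h2 : (mn S (pV S x)).im / S.μ.real univ = 0 := congrArg Prod.snd hx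
    have h3 : mn S (pV S x) = 0 := by
      apply Complex.ext
      · rcases div_eq_zero_iff.1 h1 with h4 | h4
        · exact h4
        · exact absurd h4 h.ne'
      · rcases div_eq_zero_iff.1 h2 with h4 | h4
        · exact h4
        · exact absurd h4 h.ne'
    obtain ⟨e, he, h4⟩ := PX_sub S (wL S x)
    rw [pV_coe, h4, map_add, mn_EX S he, add_zero, mn_apply, integral_congr_ae (wL_ae S x)] at h3
    have h5 := qT_act (S := S) (gsu s u) (det_gsu s u) x.2
    change qT (act (ofSurf S) (gsu s u) (det_gsu s u)) x = 0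
    rw [h5, h3, map_zero]

/-- The existence of the system (helper45's input), from the positivity of the Hodge norm. -/
theorem exists_sys (S : Surf)
    (hpos : ∀ x ∈ Coch (ofSurf S), hn2 (ofSurf S) x = 0 → x ∈ Cob (ofSurf S)) :
    ∃ (V : Type) (_ : AddCommGroup V) (_ : Module ℝ V) (_ : FiniteDimensional ℝ V)
      (Sg : TFL.Sys V) (ar : ℝ) (p : Coch (ofSurf S) →ₗ[ℝ] V),
      Pool.Agent.Helper45.ModL.Model S Sg ar p ∧ ∃ C δ : ℝ, 0 < C ∧ 0 < δ ∧ Sg.NS C δ :=
  ⟨VV S, inferInstance, inferInstance, inferInstance, sysOf S, S.μ.real univ, pV S,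
    model_sysOf hpos, NS_sysOf S⟩

/-- Positivity of the Hodge norm from the statement `periods_le` of `Skel.lean`. -/
theorem pos_of_periods (S : Surf)
    (hper : ∃ C : ℝ, 0 < C ∧ ∀ K : ℝ, 1 ≤ K → ∀ Y : Surf, Y.n = S.n →
      (∀ e, ‖Y.vec e‖ ≤ K) → (∀ i, 1 / K ≤ Y.area2 i) →
      ∀ x ∈ Coch (ofSurf Y), ∃ b ∈ Vert (ofSurf Y), ∀ h,
        |x h - dv (ofSurf Y) b h| ≤ C * K ^ C * Real.sqrt (hn2 (ofSurf Y) x)) :
    ∀ x ∈ Coch (ofSurf S), hn2 (ofSurf S) x = 0 → x ∈ Cob (ofSurf S) := by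
  intro x hx h0
  obtain ⟨C, hC, H⟩ := hper
  obtain ⟨K, hK1, hK2, hK3⟩ : ∃ K : ℝ, 1 ≤ K ∧ (∀ e, ‖S.vec e‖ ≤ K) ∧
      (∀ i, 1 / K ≤ S.area2 i) := by
    refine ⟨1 + (∑ e, ‖S.vec e‖) + ∑ i, (S.area2 i)⁻¹, ?_, ?_, ?_⟩
    · have h1 : 0 ≤ ∑ e, ‖S.vec e‖ := Finset.sum_nonneg fun _ _ => norm_nonneg _
      have h2 : 0 ≤ ∑ i, (S.area2 i)⁻¹ :=
        Finset.sum_nonneg fun i _ => (inv_pos.2 (S.area2_pos i)).le
      linarith
    · intro e
      have h1 : ‖S.vec e‖ ≤ ∑ e, ‖S.vec e‖ :=
        Finset.single_le_sum (f := fun e => ‖S.vec e‖) (fun _ _ => norm_nonneg _)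
          (Finset.mem_univ e)
      have h2 : 0 ≤ ∑ i, (S.area2 i)⁻¹ :=
        Finset.sum_nonneg fun i _ => (inv_pos.2 (S.area2_pos i)).le
      linarith
    · intro i
      have h1 : 0 ≤ ∑ e, ‖S.vec e‖ := Finset.sum_nonneg fun _ _ => norm_nonneg _
      have h2 : (S.area2 i)⁻¹ ≤ ∑ i, (S.area2 i)⁻¹ :=
        Finset.single_le_sum (f := fun i => (S.area2 i)⁻¹)
          (fun i _ => (inv_pos.2 (S.area2_pos i)).le) (Finset.mem_univ i)
      have h3 : 0 < (S.area2 i)⁻¹ := inv_pos.2 (S.area2_pos i)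
      rw [one_div, ← inv_inv (S.area2 i)]
      exact inv_anti₀ h3 (by linarith)
  obtain ⟨b, hb, hbx⟩ := H K hK1 S rfl hK2 hK3 x hx
  rw [h0, Real.sqrt_zero, mul_zero] at hbx
  refine ⟨b, hb, ?_⟩
  funext h
  have := hbx h
  have h1 : x h - dv (ofSurf S) b h = 0 := by
    rw [← abs_nonpos_iff]
    exact this
  linarith

end

end Pool.Agent.Helper35.E98
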